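import Pool.Agent.Lib.MP_0a9719_co_FR.Deg

/-! MP_0a9719_co, graphs with edge excess `O(1)`: a graph on `n` vertices without a copy of `F` has
at most `n^2/4 + C` edges. -/

namespace MP_0a9719_co

open Finset

theorem sum_deg_insert {V : Type*} [DecidableEq V] (G : SimpleGraph V) [DecidableRel G.Adj]
    (Y : Finset V) (v : V) (hv : v ∉ Y) :
    ∑ x ∈ insert v Y, ((insert v Y).filter (G.Adj x)).card =
      2 * ((insert v Y).filter (G.Adj v)).card + ∑ x ∈ Y, (Y.filter (G.Adj x)).card := by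
  have h0 : (insert v Y).filter (G.Adj v) = Y.filter (G.Adj v) := by
    rw [filter_insert, if_neg (G.loopless.irrefl v)]
  have h1 : ∀ x ∈ Y, ((insert v Y).filter (G.Adj x)).card =
      (Y.filter (G.Adj x)).card + if G.Adj v x then 1 else 0 := by
    intro x hx
    rw [filter_insert]
    by_cases h : G.Adj x v
    · rw [if_pos h, if_pos h.symm, card_insert_of_notMem (fun h2 => hv (mem_filter.1 h2).1)]
    · rw [if_neg h, if_neg (fun h2 => h h2.symm), add_zero]
  rw [sum_insert hv, h0, sum_congr rfl h1, sum_add_distrib, ← card_filter]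
  ring

theorem sq_step (n : ℕ) : n ^ 2 / 4 + (n + 1) / 2 = (n + 1) ^ 2 / 4 := by
  obtain ⟨m, rfl | rfl⟩ := Nat.even_or_odd' n
  · rw [show (2 * m) ^ 2 = 4 * (m ^ 2) by ring, show (2 * m + 1) ^ 2 = 4 * (m ^ 2 + m) + 1 by ring]
    generalize m ^ 2 = z
    omega
  · rw [show (2 * m + 1) ^ 2 = 4 * (m ^ 2 + m) + 1 by ring,
      show (2 * m + 1 + 1) ^ 2 = 4 * (m ^ 2 + 2 * m + 1) by ring]
    generalize m ^ 2 = z
    omega

theorem edge_bound {W : Type*} [Fintype W] (F : SimpleGraph W) (c : W)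
    (hc : (F.induce {c}ᶜ).Colorable 2) (Q : Set W)
    (hQ : ∀ x y, F.Adj x y → x ∉ Q → y ∈ Q)
    (hQ2 : ∀ x ∈ Q, ∀ y ∈ Q, ∀ z ∈ Q, F.Adj x y → F.Adj x z → y = z) :
    ∃ C : ℕ, ∀ (V : Type) [Fintype V] (G : SimpleGraph V), F.Free G →
      G.edgeSet.ncard ≤ (Fintype.card V) ^ 2 / 4 + C := by
  classical
  obtain ⟨κ⟩ := hc
  obtain ⟨P, hP⟩ : ∃ P : Set W, ∀ x, x ∈ P ↔
      ∀ h : x ≠ c, κ ⟨x, Set.mem_compl_singleton_iff.2 h⟩ = 0 := ⟨{x | _}, fun x => Iff.rfl⟩
  have hf1 : ∀ a b : Fin 2, a ≠ 0 → a ≠ b → b = 0 := by decide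
  have hval : ∀ x y (hx : x ≠ c) (hy : y ≠ c), F.Adj x y →
      κ ⟨x, Set.mem_compl_singleton_iff.2 hx⟩ ≠ κ ⟨y, Set.mem_compl_singleton_iff.2 hy⟩ := by
    intro x y hx hy hxy
    exact κ.valid hxy
  have hP1 : ∀ x y, F.Adj x y → x ∉ P → y ∈ P := by
    intro x y hxy hx
    rw [hP] at hx ⊢
    push Not at hx
    obtain ⟨hxc, hx⟩ := hx
    intro hy
    exact hf1 _ _ hx (hval x y hxc hy hxy)
  have hP2 : ∀ x y, F.Adj x y → x ∈ P → y ∈ P → x = c ∨ y = c := by
    intro x y hxy hx hy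
    rw [hP] at hx hy
    by_contra hcon
    push Not at hcon
    exact hval x y hcon.1 hcon.2 hxy ((hx hcon.1).trans (hy hcon.2).symm)
  have hq0 : 0 < Fintype.card W := Fintype.card_pos_iff.2 ⟨c⟩
  obtain ⟨s, N, hN⟩ := num_choice (Fintype.card W) hq0
  refine ⟨N ^ 2, fun V _ G hG => ?_⟩
  have key : ∀ n, ∀ X : Finset V, X.card = n →
      ∑ x ∈ X, (X.filter (G.Adj x)).card ≤ 2 * (n ^ 2 / 4 + N ^ 2) := by
    intro n
    induction n with
    | zero =>
      intro X hX
      rw [card_eq_zero.1 hX]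
      simp
    | succ n ih =>
      intro X hX
      by_cases hn : n + 1 < N
      · have h1 : ∑ x ∈ X, (X.filter (G.Adj x)).card ≤ X.card * X.card := by
          refine (sum_le_card_nsmul X _ X.card fun x _ => card_filter_le _ _).trans ?_
          rw [smul_eq_mul]
        rw [hX] at h1
        have h2 : (n + 1) * (n + 1) ≤ N ^ 2 := by nlinarith
        refine h1.trans (h2.trans ?_)
        generalize N ^ 2 = z
        generalize (n + 1) ^ 2 / 4 = w
        omega
      · obtain ⟨e, h1, h2, h3⟩ := hN (n + 1) (not_lt.1 hn)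
        obtain ⟨v, hv, hvd⟩ : ∃ v ∈ X, 2 * (X.filter (G.Adj v)).card ≤ n + 1 := by
          by_contra hcon
          push Not at hcon
          rw [← hX] at h1 h2 h3 hcon
          exact hG (copy_of_deg F c P hP1 hP2 Q hQ hQ2 G X (Fintype.card W) s e _ _ rfl hq0 rfl
            rfl h1 h2 h3 hcon)
        have h4 := sum_deg_insert G (X.erase v) v (notMem_erase v X)
        rw [insert_erase hv] at h4
        have h5 := ih (X.erase v) (by rw [card_erase_of_mem hv, hX]; rfl)
        have h6 := sq_step n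
        rw [h4, ← h6]
        clear h1 h2 h3 h4 hn
        generalize N ^ 2 = z at *
        generalize n ^ 2 / 4 = w at *
        omega
  have h1 := key _ univ rfl
  have h2 := G.sum_degrees_eq_twice_card_edges
  have h3 : ∀ x, G.degree x = (univ.filter (G.Adj x)).card := by
    intro x
    rw [← SimpleGraph.card_neighborFinset_eq_degree, SimpleGraph.neighborFinset_eq_filter]
  simp only [h3] at h2
  rw [h2, card_univ] at h1
  rw [Set.ncard_eq_toFinset_card']
  exact Nat.le_of_mul_le_mul_left h1 (by norm_num)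

end MP_0a9719_co
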