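import Pool.Agent.Lib.MP_0a9719_co_FR.EmbW

/-! MP_0a9719_co, graphs which become bipartite by the deletion of `κ + 1` edges at one vertex: upper
bounds for the number of edges of a graph without a copy of `F`. -/

namespace MP_0a9719_co

open Finset

section
variable {V : Type*} [DecidableEq V]

/-- the edges inside one of the classes are few -/
theorem inner_smallW {W : Type*} [Fintype W] (F : SimpleGraph W) (Q : Set W)
    (hQ2 : ∀ x ∈ Q, ∀ y ∈ Q, ∀ z ∈ Q, F.Adj x y → F.Adj x z → y = z)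
    (hQ3 : ∀ x ∉ Q, ∀ y ∉ Q, ∀ z ∉ Q, F.Adj x y → F.Adj x z → y = z)
    (G : SimpleGraph V) [DecidableRel G.Adj] (A B : Finset V) (κ q : ℕ)
    (hq : Fintype.card W = q)
    (hm : ∀ a ∈ A, (B.filter (fun y => ¬ G.Adj a y)).card ≤ 2 * κ)
    (hiA : ∀ a ∈ A, (A.filter (G.Adj a)).card ≤ κ)
    (hiB : ∀ b ∈ B, (B.filter (G.Adj b)).card ≤ κ) (hF : ¬ F.IsContained G) :
    ∑ a ∈ A, (A.filter (G.Adj a)).card ≤
        ((2 * q + 2 * q * (2 * κ)) + (2 * q + 2 * q * (2 * κ)) * κ) * κ ∨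
      ∑ b ∈ B, (B.filter (G.Adj b)).card ≤
        ((2 * q + 2 * q * (2 * κ)) + (2 * q + 2 * q * (2 * κ)) * κ) * κ := by
  subst hq
  by_cases hM : ∃ a b : Fin (Fintype.card W) → V, Function.Injective a ∧ Function.Injective b ∧
      (∀ i j, a i ≠ b j) ∧ ∀ i, a i ∈ A ∧ b i ∈ A ∧ G.Adj (a i) (b i)
  · right
    obtain ⟨a, b, ha, hb, hab, hadj⟩ := hM
    obtain ⟨T, hT⟩ : ∃ T : Finset V, T = univ.image a ∪ univ.image b := ⟨_, rfl⟩
    have hTc : T.card ≤ 2 * Fintype.card W := by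
      have h1 : (univ.image a).card ≤ Fintype.card W := by
        simpa using card_image_le (s := univ) (f := a)
      have h2 : (univ.image b).card ≤ Fintype.card W := by
        simpa using card_image_le (s := univ) (f := b)
      have h3 := card_union_le (univ.image a) (univ.image b)
      rw [← hT] at h3
      omega
    have haT : ∀ i, a i ∈ T := fun i => by
      rw [hT]
      exact mem_union_left _ (mem_image_of_mem a (mem_univ i))
    have hbT : ∀ i, b i ∈ T := fun i => by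
      rw [hT]
      exact mem_union_right _ (mem_image_of_mem b (mem_univ i))
    have hTA : ∀ x ∈ T, x ∈ A := by
      intro x hx
      simp only [hT, mem_union, mem_image, mem_univ, true_and] at hx
      rcases hx with ⟨i, rfl⟩ | ⟨i, rfl⟩
      · exact (hadj i).1
      · exact (hadj i).2.1
    obtain ⟨Z, hZ⟩ : ∃ Z : Finset V, Z = T.biUnion (fun t => B.filter (fun y => ¬ G.Adj t y)) :=
      ⟨_, rfl⟩
    have hZc : Z.card ≤ T.card * (2 * κ) := by
      rw [hZ]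
      exact card_biUnion_le_card_mul _ _ _ (fun t ht => hm t (hTA t ht))
    have hZB : ∀ t ∈ T, ∀ y ∈ B, y ∉ Z → G.Adj t y := by
      intro t ht y hy hyZ
      by_contra hcon
      apply hyZ
      rw [hZ, mem_biUnion]
      exact ⟨t, ht, mem_filter.2 ⟨hy, hcon⟩⟩
    have hM' : ¬ ∃ a b : Fin (Fintype.card W) → V, Function.Injective a ∧
        Function.Injective b ∧ (∀ i j, a i ≠ b j) ∧
        ∀ i, a i ∈ B \ Z ∧ b i ∈ B \ Z ∧ G.Adj (a i) (b i) := by
      rintro ⟨a', b', ha', hb', hab', hadj'⟩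
      have h1 : ∀ t ∈ T, ∀ j, G.Adj t (a' j) := fun t ht j =>
        hZB t ht _ (mem_sdiff.1 (hadj' j).1).1 (mem_sdiff.1 (hadj' j).1).2
      have h2 : ∀ t ∈ T, ∀ j, G.Adj t (b' j) := fun t ht j =>
        hZB t ht _ (mem_sdiff.1 (hadj' j).2.1).1 (mem_sdiff.1 (hadj' j).2.1).2
      exact hF (emb_two F G Q hQ2 hQ3 a b ha hb hab (fun i => (hadj i).2.2) a' b' ha' hb' hab'
        (fun i => (hadj' i).2.2) (fun i j => h1 _ (haT i) j) (fun i j => h2 _ (haT i) j)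
        (fun i j => h1 _ (hbT i) j) (fun i j => h2 _ (hbT i) j))
    obtain ⟨S, hSc, hS⟩ := mat_cover G (B \ Z) _ hM'
    have h5 := cov_sumW G B (S ∪ Z) κ (by
      intro x hx y hy hxS hyS
      rw [mem_union, not_or] at hxS hyS
      exact hS x (mem_sdiff.2 ⟨hx, hxS.2⟩) y (mem_sdiff.2 ⟨hy, hyS.2⟩) hxS.1 hyS.1) hiB
    have h6 : (S ∪ Z).card ≤ 2 * Fintype.card W + 2 * Fintype.card W * (2 * κ) :=
      (card_union_le S Z).trans (Nat.add_le_add hSc
        (hZc.trans (Nat.mul_le_mul_right _ hTc)))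
    exact h5.trans (Nat.mul_le_mul_right κ (Nat.add_le_add h6 (Nat.mul_le_mul_right κ h6)))
  · left
    obtain ⟨S, hSc, hS⟩ := mat_cover G A _ hM
    have h5 := cov_sumW G A S κ hS hiA
    have h6 : S.card ≤ 2 * Fintype.card W + 2 * Fintype.card W * (2 * κ) :=
      hSc.trans (Nat.le_add_right _ _)
    exact h5.trans (Nat.mul_le_mul_right κ (Nat.add_le_add h6 (Nat.mul_le_mul_right κ h6)))

theorem sum_classW (G : SimpleGraph V) [DecidableRel G.Adj] (X A B : Finset V)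
    (hX : ∀ y ∈ X, y ∈ A ∨ y ∈ B) :
    ∑ x ∈ A, (X.filter (G.Adj x)).card ≤
      ∑ x ∈ A, (A.filter (G.Adj x)).card + A.card * B.card := by
  have h1 : ∀ x ∈ A, (X.filter (G.Adj x)).card ≤ (A.filter (G.Adj x)).card + B.card := by
    intro x _
    have h2 : X.filter (G.Adj x) ⊆ A.filter (G.Adj x) ∪ B := by
      intro y hy
      rw [mem_filter] at hy
      rw [mem_union, mem_filter]
      rcases hX y hy.1 with h | h
      · exact Or.inl ⟨h, hy.2⟩
      · exact Or.inr h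
    exact (card_le_card h2).trans (card_union_le _ _)
  refine (sum_le_sum h1).trans ?_
  rw [sum_add_distrib, sum_const, smul_eq_mul]

theorem arV1 (n a b ia db ma κ : ℕ) (hn : a + b = n) (h1 : n < 2 * (ia + db)) (h2 : ia ≤ κ)
    (h3 : db + ma = b) (h4 : n < 2 * (κ + a)) : ma ≤ 2 * κ := by
  omega

theorem arW1 (sA sB tA tB ab nn kb kn k2 Bd : ℕ) (hA : tA ≤ sA + ab) (hB : tB ≤ sB + ab)
    (h4 : 4 * ab ≤ nn) (h1 : sA ≤ Bd) (h2 : sB ≤ kb) (h3 : 2 * kb ≤ kn + 2 * k2) :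
    tA + tB ≤ 2 * ((nn + kn) / 4 + (Bd + k2 + 2)) := by
  omega

theorem arW2 (sA sB tA tB ab nn ka kb : ℕ) (hA : tA ≤ sA + ab) (hB : tB ≤ sB + ab)
    (h4 : 4 * ab ≤ nn) (h1 : sA ≤ ka) (h2 : sB ≤ kb) :
    tA + tB ≤ 2 * ((nn + 2 * (ka + kb)) / 4 + 2) := by
  omega

/-- the two classes, with inner degrees at most `κ` -/
theorem classesW {W : Type*} [Fintype W] (F : SimpleGraph W) (c : W) (K : Finset W)
    (P : Set W) (hP : ∀ u v, F.Adj u v → u ∉ P → v ∈ P)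
    (hP2 : ∀ u v, F.Adj u v → u ∈ P → v ∈ P → (u = c ∧ v ∈ K) ∨ (v = c ∧ u ∈ K))
    (G : SimpleGraph V) [DecidableRel G.Adj] (X : Finset V) (q s e κ : ℕ)
    (hq : Fintype.card W = q) (hK : K.card ≤ κ + 1) (hq0 : 0 < q)
    (h1 : X.card * q + 2 ^ s * q * s < s * e)
    (h2 : 2 * ((2 * q + 1) * (q + q * (3 * e + 3 * s) + 3 * e + 3 * s) + q) + 2 * e + 2 * s ≤
      X.card)
    (h3 : 2 * (2 * q + 2 * q * q) + 2 * e + 2 * s < X.card)
    (hdeg : ∀ v ∈ X, X.card < 2 * (X.filter (G.Adj v)).card) (hF : ¬ F.IsContained G) :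
    ∃ A B : Finset V, A ⊆ X ∧ B ⊆ X ∧ Disjoint A B ∧ (∀ y ∈ X, y ∈ A ∨ y ∈ B) ∧
      A.Nonempty ∧ B.Nonempty ∧
      (∀ a ∈ A, (A.filter (G.Adj a)).card ≤ κ) ∧ (∀ b ∈ B, (B.filter (G.Adj b)).card ≤ κ) := by
  have hP3 : ∀ x y, F.Adj x y → x ∈ P → y ∈ P → x = c ∨ y = c := by
    intro u v huv hu hv
    rcases hP2 u v huv hu hv with h | h
    · exact Or.inl h.1
    · exact Or.inr h.1
  obtain ⟨A, B, A₁, B₁, hA₁, hB₁, hAX, hBX, hdis, hsplit, hmA, hmB, hA₁c, hB₁c⟩ :=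
    two_classes F c P hP hP3 G X q s e _ _ hq hq0 rfl rfl h1 h2 h3 hdeg hF
  clear h1 h2 h3
  generalize hM : q + q * (3 * e + 3 * s) + 3 * e + 3 * s = M at *
  have hMq : 1 ≤ M := by
    rw [← hM, add_assoc, add_assoc]
    exact hq0.trans_le (Nat.le_add_right _ _)
  have h7 : (2 * q + 1) * 1 ≤ (2 * q + 1) * M := Nat.mul_le_mul_left _ hMq
  have h8 : 2 * q + 1 ≤ (2 * q + 1) * M + q := by
    rw [mul_one] at h7
    exact h7.trans (Nat.le_add_right _ _)
  have hAc : 2 * q + 1 ≤ A.card := (h8.trans hA₁c).trans (card_le_card hA₁)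
  have hBc : 2 * q + 1 ≤ B.card := (h8.trans hB₁c).trans (card_le_card hB₁)
  exact ⟨A, B, hAX, hBX, hdis, hsplit, card_pos.1 ((Nat.succ_pos _).trans_le hAc),
    card_pos.1 ((Nat.succ_pos _).trans_le hBc),
    inner_leW F c K P hP hP2 G A B₁ q M κ hq hK hmA hB₁c hAc hF,
    inner_leW F c K P hP hP2 G B A₁ q M κ hq hK hmB hA₁c hBc hF⟩

theorem direct_boundW2 {W : Type*} [Fintype W] (F : SimpleGraph W) (c : W) (K : Finset W)
    (P : Set W) (hP : ∀ u v, F.Adj u v → u ∉ P → v ∈ P)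
    (hP2 : ∀ u v, F.Adj u v → u ∈ P → v ∈ P → (u = c ∧ v ∈ K) ∨ (v = c ∧ u ∈ K))
    (G : SimpleGraph V) [DecidableRel G.Adj] (X : Finset V) (q s e κ : ℕ)
    (hq : Fintype.card W = q) (hK : K.card ≤ κ + 1) (hq0 : 0 < q)
    (h1 : X.card * q + 2 ^ s * q * s < s * e)
    (h2 : 2 * ((2 * q + 1) * (q + q * (3 * e + 3 * s) + 3 * e + 3 * s) + q) + 2 * e + 2 * s ≤
      X.card)
    (h3 : 2 * (2 * q + 2 * q * q) + 2 * e + 2 * s < X.card)
    (hdeg : ∀ v ∈ X, X.card < 2 * (X.filter (G.Adj v)).card) (hF : ¬ F.IsContained G) :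
    ∑ v ∈ X, (X.filter (G.Adj v)).card ≤ 2 * ((X.card ^ 2 + 2 * (κ * X.card)) / 4 + 2) := by
  obtain ⟨A, B, hAX, hBX, hdis, hsplit, _, _, hiA, hiB⟩ :=
    classesW F c K P hP hP2 G X q s e κ hq hK hq0 h1 h2 h3 hdeg hF
  have hXAB : X = A ∪ B := by
    ext z
    rw [mem_union]
    exact ⟨hsplit z, fun h => h.elim (fun h => hAX h) (fun h => hBX h)⟩
  have hn : A.card + B.card = X.card := by rw [hXAB, card_union_of_disjoint hdis]
  have hsA : ∑ a ∈ A, (A.filter (G.Adj a)).card ≤ κ * A.card := by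
    have h := sum_le_card_nsmul A (fun a => (A.filter (G.Adj a)).card) κ hiA
    rwa [smul_eq_mul, mul_comm] at h
  have hsB : ∑ b ∈ B, (B.filter (G.Adj b)).card ≤ κ * B.card := by
    have h := sum_le_card_nsmul B (fun b => (B.filter (G.Adj b)).card) κ hiB
    rwa [smul_eq_mul, mul_comm] at h
  have hcA := sum_classW G X A B hsplit
  have hcB := sum_classW G X B A (fun y hy => (hsplit y hy).symm)
  have htot : ∑ v ∈ X, (X.filter (G.Adj v)).card =
      ∑ v ∈ A, (X.filter (G.Adj v)).card + ∑ v ∈ B, (X.filter (G.Adj v)).card := by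
    conv_lhs => rw [hXAB]
    rw [sum_union hdis, ← hXAB]
  rw [mul_comm B.card A.card] at hcB
  have h4 : 4 * (A.card * B.card) ≤ X.card ^ 2 := by
    rw [← hn]
    zify
    nlinarith [sq_nonneg ((A.card : ℤ) - B.card)]
  have h5 := arW2 _ _ _ _ _ _ _ _ hcA hcB h4 hsA hsB
  rw [htot]
  rwa [← mul_add, hn] at h5

theorem direct_boundW1 {W : Type*} [Fintype W] (F : SimpleGraph W) (c : W) (K : Finset W)
    (P : Set W) (hP : ∀ u v, F.Adj u v → u ∉ P → v ∈ P)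
    (hP2 : ∀ u v, F.Adj u v → u ∈ P → v ∈ P → (u = c ∧ v ∈ K) ∨ (v = c ∧ u ∈ K))
    (Q : Set W)
    (hQ2 : ∀ x ∈ Q, ∀ y ∈ Q, ∀ z ∈ Q, F.Adj x y → F.Adj x z → y = z)
    (hQ3 : ∀ x ∉ Q, ∀ y ∉ Q, ∀ z ∉ Q, F.Adj x y → F.Adj x z → y = z)
    (G : SimpleGraph V) [DecidableRel G.Adj] (X : Finset V) (q s e κ : ℕ)
    (hq : Fintype.card W = q) (hK : K.card ≤ κ + 1) (hq0 : 0 < q)
    (h1 : X.card * q + 2 ^ s * q * s < s * e)
    (h2 : 2 * ((2 * q + 1) * (q + q * (3 * e + 3 * s) + 3 * e + 3 * s) + q) + 2 * e + 2 * s ≤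
      X.card)
    (h3 : 2 * (2 * q + 2 * q * q) + 2 * e + 2 * s < X.card)
    (hdeg : ∀ v ∈ X, X.card < 2 * (X.filter (G.Adj v)).card) (hF : ¬ F.IsContained G) :
    ∑ v ∈ X, (X.filter (G.Adj v)).card ≤ 2 * ((X.card ^ 2 + κ * X.card) / 4 +
      (((2 * q + 2 * q * (2 * κ)) + (2 * q + 2 * q * (2 * κ)) * κ) * κ + κ * κ + 2)) := by
  obtain ⟨A, B, hAX, hBX, hdis, hsplit, ⟨a₀, ha₀⟩, ⟨b₀, hb₀⟩, hiA, hiB⟩ :=
    classesW F c K P hP hP2 G X q s e κ hq hK hq0 h1 h2 h3 hdeg hF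
  clear h1 h2 h3
  have hXAB : X = A ∪ B := by
    ext z
    rw [mem_union]
    exact ⟨hsplit z, fun h => h.elim (fun h => hAX h) (fun h => hBX h)⟩
  have hn : A.card + B.card = X.card := by rw [hXAB, card_union_of_disjoint hdis]
  have hdec : ∀ v ∈ X, X.card < 2 * ((A.filter (G.Adj v)).card + (B.filter (G.Adj v)).card) := by
    intro v hv
    have h4 : X.filter (G.Adj v) ⊆ A.filter (G.Adj v) ∪ B.filter (G.Adj v) := by
      intro y hy
      rw [mem_filter] at hy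
      rw [mem_union, mem_filter, mem_filter]
      rcases hsplit y hy.1 with h | h
      · exact Or.inl ⟨h, hy.2⟩
      · exact Or.inr ⟨h, hy.2⟩
    have h5 := (card_le_card h4).trans (card_union_le _ _)
    have h6 := hdeg v hv
    omega
  have hnB : X.card < 2 * (κ + B.card) := by
    have h4 := hdec a₀ (hAX ha₀)
    have h5 := hiA a₀ ha₀
    have h6 := card_filter_le B (G.Adj a₀)
    omega
  have hnA : X.card < 2 * (κ + A.card) := by
    have h4 := hdec b₀ (hBX hb₀)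
    have h5 := hiB b₀ hb₀
    have h6 := card_filter_le A (G.Adj b₀)
    omega
  have hmA1 : ∀ a ∈ A, (B.filter (fun y => ¬ G.Adj a y)).card ≤ 2 * κ := by
    intro a ha
    have h5 := card_filter_add_card_filter_not (s := B) (G.Adj a)
    exact arV1 _ _ _ _ _ _ _ hn (hdec a (hAX ha)) (hiA a ha) h5 hnA
  have hsA : ∑ a ∈ A, (A.filter (G.Adj a)).card ≤ κ * A.card := by
    have h := sum_le_card_nsmul A (fun a => (A.filter (G.Adj a)).card) κ hiA
    rwa [smul_eq_mul, mul_comm] at h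
  have hsB : ∑ b ∈ B, (B.filter (G.Adj b)).card ≤ κ * B.card := by
    have h := sum_le_card_nsmul B (fun b => (B.filter (G.Adj b)).card) κ hiB
    rwa [smul_eq_mul, mul_comm] at h
  have hsm := inner_smallW F Q hQ2 hQ3 G A B κ q hq hmA1 hiA hiB hF
  have hcA := sum_classW G X A B hsplit
  have hcB := sum_classW G X B A (fun y hy => (hsplit y hy).symm)
  have htot : ∑ v ∈ X, (X.filter (G.Adj v)).card =
      ∑ v ∈ A, (X.filter (G.Adj v)).card + ∑ v ∈ B, (X.filter (G.Adj v)).card := by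
    conv_lhs => rw [hXAB]
    rw [sum_union hdis, ← hXAB]
  rw [mul_comm B.card A.card] at hcB
  have h4 : 4 * (A.card * B.card) ≤ X.card ^ 2 := by
    rw [← hn]
    zify
    nlinarith [sq_nonneg ((A.card : ℤ) - B.card)]
  have hb2 : 2 * (κ * B.card) ≤ κ * X.card + 2 * (κ * κ) := by
    have h5 : 2 * B.card ≤ X.card + 2 * κ := by omega
    calc 2 * (κ * B.card) = κ * (2 * B.card) := by ring
      _ ≤ κ * (X.card + 2 * κ) := Nat.mul_le_mul_left κ h5
      _ = κ * X.card + 2 * (κ * κ) := by ring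
  have ha2 : 2 * (κ * A.card) ≤ κ * X.card + 2 * (κ * κ) := by
    have h5 : 2 * A.card ≤ X.card + 2 * κ := by omega
    calc 2 * (κ * A.card) = κ * (2 * A.card) := by ring
      _ ≤ κ * (X.card + 2 * κ) := Nat.mul_le_mul_left κ h5
      _ = κ * X.card + 2 * (κ * κ) := by ring
  rw [htot]
  rcases hsm with h | h
  · exact arW1 _ _ _ _ _ _ _ _ _ _ hcA hcB h4 h hsB hb2
  · rw [add_comm]
    exact arW1 _ _ _ _ _ _ _ _ _ _ hcB hcA h4 h hsA ha2

end

/-- the induction -/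
theorem edge_ind {W : Type*} (F : SimpleGraph W) (f : ℕ → ℕ)
    (hf : ∀ n, f n + (n + 1) / 2 ≤ f (n + 1)) (C N : ℕ)
    (hdir : ∀ (V : Type) [DecidableEq V] (G : SimpleGraph V) [DecidableRel G.Adj] (X : Finset V),
      N ≤ X.card → ¬ F.IsContained G → (∀ v ∈ X, X.card < 2 * (X.filter (G.Adj v)).card) →
      ∑ v ∈ X, (X.filter (G.Adj v)).card ≤ 2 * (f X.card + C)) :
    ∃ C : ℕ, ∀ (V : Type) [Fintype V] (G : SimpleGraph V), F.Free G →
      G.edgeSet.ncard ≤ f (Fintype.card V) + C := by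
  classical
  refine ⟨N ^ 2 + C, fun V _ G hG => ?_⟩
  have key : ∀ n, ∀ X : Finset V, X.card = n →
      ∑ x ∈ X, (X.filter (G.Adj x)).card ≤ 2 * (f n + (N ^ 2 + C)) := by
    intro n
    induction n with
    | zero =>
      intro X hX
      rw [card_eq_zero.1 hX]
      simp
    | succ n ih =>
      intro X hX
      by_cases hn : n + 1 < N
      · have h1 : ∑ x ∈ X, (X.filter (G.Adj x)).card ≤ X.card * X.card := by
          refine (sum_le_card_nsmul X _ X.card fun x _ => card_filter_le _ _).trans ?_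
          rw [smul_eq_mul]
        rw [hX] at h1
        have h2 : (n + 1) * (n + 1) ≤ N ^ 2 := by nlinarith
        refine h1.trans (h2.trans ?_)
        generalize N ^ 2 = z
        generalize f (n + 1) = w
        omega
      · by_cases hdeg : ∀ v ∈ X, X.card < 2 * (X.filter (G.Adj v)).card
        · have h4 := hdir V G X (by rw [hX]; exact not_lt.1 hn) hG hdeg
          rw [hX] at h4
          exact h4.trans (Nat.mul_le_mul_left 2 (Nat.add_le_add_left (Nat.le_add_left _ _) _))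
        · push Not at hdeg
          obtain ⟨v, hv, hvd⟩ := hdeg
          have h4 := sum_deg_insert G (X.erase v) v (notMem_erase v X)
          rw [insert_erase hv] at h4
          have h5 := ih (X.erase v) (by rw [card_erase_of_mem hv, hX]; rfl)
          have h6 := hf n
          rw [hX] at hvd
          rw [h4]
          clear h4 hn hdir
          generalize N ^ 2 = z at *
          generalize f n = w at *
          generalize f (n + 1) = w' at *
          omega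
  have h1 := key _ univ rfl
  have h2 := G.sum_degrees_eq_twice_card_edges
  have h3 : ∀ x, G.degree x = (univ.filter (G.Adj x)).card := by
    intro x
    rw [← SimpleGraph.card_neighborFinset_eq_degree, SimpleGraph.neighborFinset_eq_filter]
  simp only [h3] at h2
  rw [h2, card_univ] at h1
  rw [Set.ncard_eq_toFinset_card']
  exact Nat.le_of_mul_le_mul_left h1 (by norm_num)

theorem classP {W : Type*} (F : SimpleGraph W) (c : W) (K : Finset W)
    (hc : (F.deleteEdges {e | ∃ x ∈ K, e = s(c, x)}).Colorable 2) :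
    ∃ P : Set W, (∀ u v, F.Adj u v → u ∉ P → v ∈ P) ∧
      (∀ u v, F.Adj u v → u ∈ P → v ∈ P → (u = c ∧ v ∈ K) ∨ (v = c ∧ u ∈ K)) := by
  obtain ⟨κ⟩ := hc
  obtain ⟨P, hP⟩ : ∃ P : Set W, ∀ w, w ∈ P ↔ κ w = κ c := ⟨{w | κ w = κ c}, fun w => Iff.rfl⟩
  have hf1 : ∀ a b d : Fin 2, a ≠ d → a ≠ b → b = d := by decide
  have hval : ∀ u v, F.Adj u v → κ u = κ v → (u = c ∧ v ∈ K) ∨ (v = c ∧ u ∈ K) := by
    intro u v huv h
    by_contra hcon
    refine κ.valid (v := u) (w := v) ?_ h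
    rw [SimpleGraph.deleteEdges_adj]
    refine ⟨huv, fun h2 => hcon ?_⟩
    obtain ⟨x, hx, h2⟩ := h2
    rw [Sym2.eq_iff] at h2
    rcases h2 with ⟨h3, h4⟩ | ⟨h3, h4⟩
    · exact Or.inl ⟨h3, h4 ▸ hx⟩
    · exact Or.inr ⟨h4, h3 ▸ hx⟩
  refine ⟨P, ?_, ?_⟩
  · intro u v huv hu
    by_contra hv
    rw [hP] at hu hv
    by_cases h : κ u = κ v
    · rcases hval u v huv h with h1 | h1
      · exact hu (by rw [h1.1])
      · exact hv (by rw [h1.1])
    · exact hv (hf1 _ _ _ hu h)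
  · intro u v huv hu hv
    rw [hP] at hu hv
    exact hval u v huv (hu.trans hv.symm)

/-- upper bound, two-sided case -/
theorem edge_boundW2 {W : Type*} [Fintype W] (F : SimpleGraph W) (c : W) (K : Finset W)
    (κ : ℕ) (hκ : 1 ≤ κ) (hK : K.card ≤ κ + 1)
    (hc : (F.deleteEdges {e | ∃ x ∈ K, e = s(c, x)}).Colorable 2) :
    ∃ C : ℕ, ∀ (V : Type) [Fintype V] (G : SimpleGraph V), F.Free G →
      G.edgeSet.ncard ≤ ((Fintype.card V) ^ 2 + 2 * (κ * Fintype.card V)) / 4 + C := by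
  obtain ⟨P, hP1, hP2⟩ := classP F c K hc
  have hq0 : 0 < Fintype.card W := Fintype.card_pos_iff.2 ⟨c⟩
  obtain ⟨s, N, hN⟩ := num_choice (Fintype.card W) hq0
  refine edge_ind F (fun n => (n ^ 2 + 2 * (κ * n)) / 4) ?_ 2 N ?_
  · intro n
    show (n ^ 2 + 2 * (κ * n)) / 4 + (n + 1) / 2 ≤ ((n + 1) ^ 2 + 2 * (κ * (n + 1))) / 4
    rw [show (n + 1) ^ 2 + 2 * (κ * (n + 1)) = (n ^ 2 + 2 * (κ * n)) + 2 * n + 1 + 2 * κ by ring]
    generalize n ^ 2 + 2 * (κ * n) = z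
    omega
  · intro V _ G _ X hX hF hdeg
    obtain ⟨e, h1, h2, h3⟩ := hN _ hX
    exact direct_boundW2 F c K P hP1 hP2 G X _ s e κ rfl hK hq0 h1 h2 h3 hdeg hF

/-- upper bound, one-sided case -/
theorem edge_boundW1 {W : Type*} [Fintype W] (F : SimpleGraph W) (c : W) (K : Finset W)
    (κ : ℕ) (hκ : 1 ≤ κ) (hK : K.card ≤ κ + 1)
    (hc : (F.deleteEdges {e | ∃ x ∈ K, e = s(c, x)}).Colorable 2) (Q : Set W)
    (hQ2 : ∀ x ∈ Q, ∀ y ∈ Q, ∀ z ∈ Q, F.Adj x y → F.Adj x z → y = z)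
    (hQ3 : ∀ x ∉ Q, ∀ y ∉ Q, ∀ z ∉ Q, F.Adj x y → F.Adj x z → y = z) :
    ∃ C : ℕ, ∀ (V : Type) [Fintype V] (G : SimpleGraph V), F.Free G →
      G.edgeSet.ncard ≤ ((Fintype.card V) ^ 2 + κ * Fintype.card V) / 4 + C := by
  obtain ⟨P, hP1, hP2⟩ := classP F c K hc
  have hq0 : 0 < Fintype.card W := Fintype.card_pos_iff.2 ⟨c⟩
  obtain ⟨s, N, hN⟩ := num_choice (Fintype.card W) hq0
  refine edge_ind F (fun n => (n ^ 2 + κ * n) / 4) ?_
    (((2 * Fintype.card W + 2 * Fintype.card W * (2 * κ)) +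
      (2 * Fintype.card W + 2 * Fintype.card W * (2 * κ)) * κ) * κ + κ * κ + 2) N ?_
  · intro n
    show (n ^ 2 + κ * n) / 4 + (n + 1) / 2 ≤ ((n + 1) ^ 2 + κ * (n + 1)) / 4
    rw [show (n + 1) ^ 2 + κ * (n + 1) = (n ^ 2 + κ * n) + 2 * n + 1 + κ by ring]
    generalize n ^ 2 + κ * n = z
    omega
  · intro V _ G _ X hX hF hdeg
    obtain ⟨e, h1, h2, h3⟩ := hN _ hX
    exact direct_boundW1 F c K P hP1 hP2 Q hQ2 hQ3 G X _ s e κ rfl hK hq0 h1 h2 h3 hdeg hF

end MP_0a9719_co
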