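import Mathlib

/-! MP_0a9719_co, graphs with edge excess `O(1)`: counting lemmas. -/

namespace MP_0a9719_co

open Finset

variable {V : Type*} [DecidableEq V]

/-- if `s` vertices have at least `e` neighbours in `A` each, `e` proportional to `|A|` and `s`
large, then there is a `K_{t,t}` -/
theorem kst (G : SimpleGraph V) [DecidableRel G.Adj] (A B : Finset V) (t s e : ℕ)
    (hB : s ≤ B.card) (hdeg : ∀ b ∈ B, e ≤ (A.filter (G.Adj b)).card)
    (hcount : A.card * t + 2 ^ s * t * s < s * e) :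
    ∃ T ⊆ B, T.card = t ∧ t ≤ (A.filter (fun a => ∀ b ∈ T, G.Adj b a)).card := by
  obtain ⟨B', hB', hs⟩ := exists_subset_card_eq hB
  have h1 : s * e ≤ ∑ b ∈ B', (A.filter (G.Adj b)).card := by
    have h := card_nsmul_le_sum B' (fun b => (A.filter (G.Adj b)).card) e
      (fun b hb => hdeg b (hB' hb))
    rwa [hs, smul_eq_mul] at h
  have h2 : ∑ b ∈ B', (A.filter (G.Adj b)).card =
      ∑ a ∈ A, (B'.filter (fun b => G.Adj b a)).card := by
    simp only [card_filter]
    exact sum_comm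
  set A' := A.filter (fun a => t ≤ (B'.filter (fun b => G.Adj b a)).card) with hA'
  have h3 : ∑ a ∈ A, (B'.filter (fun b => G.Adj b a)).card ≤ A.card * t + A'.card * s := by
    have h : ∀ a ∈ A, (B'.filter (fun b => G.Adj b a)).card ≤
        t + if t ≤ (B'.filter (fun b => G.Adj b a)).card then s else 0 := by
      intro a _
      split_ifs with h
      · have := card_filter_le B' (fun b => G.Adj b a)
        omega
      · omega
    refine (sum_le_sum h).trans ?_
    rw [sum_add_distrib, sum_const, smul_eq_mul, ← sum_filter, sum_const, smul_eq_mul]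
  have h4 : 2 ^ s * t < A'.card := by
    by_contra hcon
    push Not at hcon
    have := Nat.mul_le_mul_right s hcon
    omega
  have h5 : ∀ a ∈ A', ∃ T, T ⊆ B'.filter (fun b => G.Adj b a) ∧ T.card = t :=
    fun a ha => exists_subset_card_eq (mem_filter.1 ha).2
  choose! f hf hfc using h5
  have h6 : ∀ a ∈ A', f a ∈ B'.powerset :=
    fun a ha => mem_powerset.2 ((hf a ha).trans (filter_subset _ _))
  have h7 : B'.powerset.card * t < A'.card := by rwa [card_powerset, hs]
  obtain ⟨T, hT, hT2⟩ := exists_lt_card_fiber_of_mul_lt_card_of_maps_to h6 h7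
  refine ⟨T, (mem_powerset.1 hT).trans hB', ?_, ?_⟩
  · obtain ⟨a, ha⟩ : (A'.filter (fun x => f x = T)).Nonempty := card_pos.1 (by omega)
    rw [mem_filter] at ha
    rw [← ha.2]
    exact hfc a ha.1
  · refine hT2.le.trans (card_le_card ?_)
    intro a ha
    rw [mem_filter] at ha
    have ha' := ha.1
    rw [hA', mem_filter] at ha'
    refine mem_filter.2 ⟨ha'.1, fun b hb => ?_⟩
    rw [← ha.2] at hb
    exact (mem_filter.1 (hf a ha.1 hb)).2

theorem mat_cover (G : SimpleGraph V) (A : Finset V) (k : ℕ)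
    (hk : ¬ ∃ a b : Fin k → V, Function.Injective a ∧ Function.Injective b ∧
      (∀ i j, a i ≠ b j) ∧ ∀ i, a i ∈ A ∧ b i ∈ A ∧ G.Adj (a i) (b i)) :
    ∃ S : Finset V, S.card ≤ 2 * k ∧
      ∀ x ∈ A, ∀ y ∈ A, x ∉ S → y ∉ S → ¬ G.Adj x y := by
  obtain ⟨m, hmk, ⟨a, b, ha, hb, hab, hadj⟩, hm1⟩ : ∃ m, m < k ∧
      (∃ a b : Fin m → V, Function.Injective a ∧ Function.Injective b ∧
        (∀ i j, a i ≠ b j) ∧ ∀ i, a i ∈ A ∧ b i ∈ A ∧ G.Adj (a i) (b i)) ∧
      ¬ (∃ a b : Fin (m + 1) → V, Function.Injective a ∧ Function.Injective b ∧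
        (∀ i j, a i ≠ b j) ∧ ∀ i, a i ∈ A ∧ b i ∈ A ∧ G.Adj (a i) (b i)) := by
    by_contra hcon
    have h : ∀ m, m ≤ k → ∃ a b : Fin m → V, Function.Injective a ∧ Function.Injective b ∧
        (∀ i j, a i ≠ b j) ∧ ∀ i, a i ∈ A ∧ b i ∈ A ∧ G.Adj (a i) (b i) := by
      intro m
      induction m with
      | zero =>
        intro _
        exact ⟨Fin.elim0, Fin.elim0, fun i => i.elim0, fun i => i.elim0, fun i => i.elim0,
          fun i => i.elim0⟩
      | succ m ih =>
        intro h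
        by_contra h2
        exact hcon ⟨m, by omega, ih (by omega), h2⟩
    exact hk (h k le_rfl)
  refine ⟨univ.image a ∪ univ.image b, ?_, ?_⟩
  · have h1 : (univ.image a).card ≤ m := by simpa using card_image_le (s := univ) (f := a)
    have h2 : (univ.image b).card ≤ m := by simpa using card_image_le (s := univ) (f := b)
    have h3 := card_union_le (univ.image a) (univ.image b)
    omega
  · intro x hx y hy hxS hyS hxy
    simp only [mem_union, mem_image, mem_univ, true_and, not_or, not_exists] at hxS hyS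
    apply hm1
    refine ⟨Fin.cons x a, Fin.cons y b, ?_, ?_, ?_, ?_⟩
    · rw [Fin.cons_injective_iff]
      exact ⟨fun ⟨i, hi⟩ => hxS.1 i hi, ha⟩
    · rw [Fin.cons_injective_iff]
      exact ⟨fun ⟨i, hi⟩ => hyS.2 i hi, hb⟩
    · intro i j
      refine Fin.cases ?_ (fun i => ?_) i <;> refine Fin.cases ?_ (fun j => ?_) j
      · simpa using hxy.ne
      · simpa using fun h => hxS.2 j h.symm
      · simpa using hyS.1 i
      · simpa using hab i j
    · intro i
      refine Fin.cases ?_ (fun i => ?_) i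
      · simpa using ⟨hx, hy, hxy⟩
      · simpa using hadj i

theorem common_card (G : SimpleGraph V) [DecidableRel G.Adj] (B T : Finset V) (M : ℕ)
    (hm : ∀ a ∈ T, (B.filter (fun y => ¬ G.Adj a y)).card ≤ M) :
    B.card ≤ (B.filter (fun y => ∀ a ∈ T, G.Adj a y)).card + T.card * M := by
  have h1 : B ⊆ B.filter (fun y => ∀ a ∈ T, G.Adj a y) ∪
      T.biUnion (fun a => B.filter (fun y => ¬ G.Adj a y)) := by
    intro y hy
    simp only [mem_union, mem_filter, mem_biUnion]
    by_cases h : ∀ a ∈ T, G.Adj a y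
    · exact Or.inl ⟨hy, h⟩
    · push Not at h
      obtain ⟨a, ha, h⟩ := h
      exact Or.inr ⟨a, ha, hy, h⟩
  exact (card_le_card h1).trans ((card_union_le _ _).trans
    (Nat.add_le_add_left (card_biUnion_le_card_mul _ _ _ hm) _))

/-- numbers -/
theorem num_choice (q : ℕ) (hq : 0 < q) : ∃ s N : ℕ, ∀ n, N ≤ n → ∃ e : ℕ,
    n * q + 2 ^ s * q * s < s * e ∧
    2 * ((2 * q + 1) * (q + q * (3 * e + 3 * s) + 3 * e + 3 * s) + q) + 2 * e + 2 * s ≤ n ∧
    2 * (2 * q + 2 * q * q) + 2 * e + 2 * s < n := by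
  set K := 100 * (q + 1) ^ 2 with hK
  have hK0 : 0 < K := by positivity
  set s := 2 * K * q with hs
  set E := 1 + 2 ^ s * s + s + q with hE
  refine ⟨s, K * E, fun n hn => ⟨n / K, ?_⟩⟩
  set e := n / K with he
  have h1 : K * e ≤ n := Nat.mul_div_le n K
  have h2 : n < K * (e + 1) := Nat.lt_mul_div_succ n hK0
  have h3 : E ≤ e := (Nat.le_div_iff_mul_le hK0).2 (by rw [mul_comm]; exact hn)
  have h4 : s ≤ e := by omega
  have h5 : q ≤ e := by omega
  have h6 : 1 + 2 ^ s * s ≤ e := by omega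
  have h7 : q * s ≤ q * e := Nat.mul_le_mul_left q h4
  have h8 : q * q ≤ q * e := Nat.mul_le_mul_left q h5
  have h9 : q * q * s ≤ q * q * e := Nat.mul_le_mul_left _ h4
  have h10 : K * e = 100 * (q * q * e) + 200 * (q * e) + 100 * e := by rw [hK]; ring
  refine ⟨?_, ?_, ?_⟩
  · have a1 : n * q < K * (e + 1) * q := Nat.mul_lt_mul_of_pos_right h2 hq
    have a2 : K * q * (1 + 2 ^ s * s) ≤ K * q * e := Nat.mul_le_mul_left _ h6
    have a3 : 1 * (q * (2 ^ s * s)) ≤ K * (q * (2 ^ s * s)) := Nat.mul_le_mul_right _ hK0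
    have a4 : s * e = K * q * e + K * q * e := by rw [hs]; ring
    have a5 : K * (e + 1) * q = K * q * e + K * q := by ring
    have a6 : K * q * (1 + 2 ^ s * s) = K * q + K * (q * (2 ^ s * s)) := by ring
    have a7 : 2 ^ s * q * s = q * (2 ^ s * s) := by ring
    rw [a7]
    generalize q * (2 ^ s * s) = z at *
    omega
  · have a1 : 2 * ((2 * q + 1) * (q + q * (3 * e + 3 * s) + 3 * e + 3 * s) + q) + 2 * e + 2 * s =
        4 * (q * q) + 12 * (q * q * e) + 12 * (q * q * s) + 18 * (q * e) + 18 * (q * s) + 4 * q +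
          8 * e + 8 * s := by ring
    omega
  · have a1 : 2 * (2 * q + 2 * q * q) + 2 * e + 2 * s = 4 * q + 4 * (q * q) + 2 * e + 2 * s := by
      ring
    omega

end MP_0a9719_co
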