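import Pool.Agent.Lib.MP_0a9719_co_FR.Emb
import Pool.Agent.Lib.MP_0a9719_co_FR.Cov

/-! MP_0a9719_co, graphs with edge excess `O(1)`: a large graph in which all degrees exceed half
of the number of vertices contains every fixed `F` such that `F - c` is bipartite for some `c` and
`F` has a partition into an independent class and a class of maximum degree at most one. -/

namespace MP_0a9719_co

open Finset

theorem ar1 (n a b r e s x na nb mb : ℕ) (h1 : r + b + a = n) (h2 : n + 1 ≤ 2 * a + 2 * s)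
    (h4 : n < 2 * (na + nb + r)) (h5 : nb + mb = b) (hx : na < x) : mb ≤ x + 3 * e + 3 * s := by
  omega

theorem ar2 (n a b r e s x na nb ma : ℕ) (h1 : r + b + a = n)
    (h2 : n + 1 ≤ 2 * b + 2 * e + 2 * s)
    (h4 : n < 2 * (na + nb + r)) (h5 : na + ma = a) (hx : nb < x) : ma ≤ x + 3 * e + 3 * s := by
  omega

theorem ar3 (n a b r e s na nb mb : ℕ) (h1 : r + b + a = n) (h2 : n + 1 ≤ 2 * a + 2 * s)
    (h4 : n < 2 * (na + nb + r)) (h5 : nb + mb = b) (hx : na < e) : mb ≤ 3 * e + 3 * s := by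
  omega

theorem ar4 (n k a e s : ℕ) (h : 2 * k + 2 * e + 2 * s ≤ n)
    (h' : n + 1 ≤ 2 * a + 2 * e + 2 * s) : k ≤ a := by
  omega

theorem ar5 (n k a a' e s : ℕ) (h : 2 * k + 2 * e + 2 * s < n)
    (h' : n + 1 ≤ 2 * a + 2 * e + 2 * s) (h2 : a ≤ a') : k < a' := by
  omega

theorem ar6 (n a s f d : ℕ) (h1 : n < 2 * f) (h2 : f - d ≤ a) (h3 : d < s) :
    n + 1 ≤ 2 * a + 2 * s := by
  omega

theorem ar7 (n b s e f d g x : ℕ) (h1 : n < 2 * f) (h2 : g - d ≤ b) (h3 : d < s) (h4 : f ≤ g + x)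
    (h5 : x < e) : n + 1 ≤ 2 * b + 2 * e + 2 * s := by
  omega

theorem ar8 (n u x y z r : ℕ) (h1 : n < 2 * u) (h2 : u ≤ z + r) (h3 : z ≤ x + y) :
    n < 2 * (x + y + r) := by
  omega

variable {V : Type*} [DecidableEq V]

theorem final_case {W : Type*} [Fintype W] (F : SimpleGraph W) (c : W) (P : Set W)
    (hP : ∀ x y, F.Adj x y → x ∉ P → y ∈ P)
    (hP2 : ∀ x y, F.Adj x y → x ∈ P → y ∈ P → x = c ∨ y = c) (Q : Set W)
    (hQ : ∀ x y, F.Adj x y → x ∉ Q → y ∈ Q)
    (hQ2 : ∀ x ∈ Q, ∀ y ∈ Q, ∀ z ∈ Q, F.Adj x y → F.Adj x z → y = z)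
    (G : SimpleGraph V) [DecidableRel G.Adj] (A B : Finset V) (q M : ℕ)
    (hq : Fintype.card W = q) (hq0 : 0 < q)
    (hA : ∀ a ∈ A, ∃ a' ∈ A, G.Adj a a')
    (hm : ∀ a ∈ A, (B.filter (fun y => ¬ G.Adj a y)).card ≤ M)
    (hB : (2 * q + 1) * M + q ≤ B.card) (hAc : 2 * q + 2 * q * q < A.card) :
    F.IsContained G := by
  by_cases hM : ∃ a b : Fin q → V, Function.Injective a ∧ Function.Injective b ∧
      (∀ i j, a i ≠ b j) ∧ ∀ i, a i ∈ A ∧ b i ∈ A ∧ G.Adj (a i) (b i)
  · obtain ⟨a, b, ha, hb, hab, hadj⟩ := hM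
    subst hq
    obtain ⟨T, hT⟩ : ∃ T : Finset V, T = univ.image a ∪ univ.image b := ⟨_, rfl⟩
    have hTc : T.card ≤ 2 * Fintype.card W := by
      have h1 : (univ.image a).card ≤ Fintype.card W := by
        simpa using card_image_le (s := univ) (f := a)
      have h2 : (univ.image b).card ≤ Fintype.card W := by
        simpa using card_image_le (s := univ) (f := b)
      have h3 := card_union_le (univ.image a) (univ.image b)
      rw [← hT] at h3
      clear hB hAc hq0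
      omega
    have haT : ∀ i, a i ∈ T := fun i => by
      rw [hT]
      exact mem_union_left _ (mem_image_of_mem a (mem_univ i))
    have hbT : ∀ i, b i ∈ T := fun i => by
      rw [hT]
      exact mem_union_right _ (mem_image_of_mem b (mem_univ i))
    have hTA : ∀ x ∈ T, x ∈ A := by
      intro x hx
      simp only [hT, mem_union, mem_image, mem_univ, true_and] at hx
      rcases hx with ⟨i, rfl⟩ | ⟨i, rfl⟩
      · exact (hadj i).1
      · exact (hadj i).2.1
    have h1 := common_card G B T M (fun x hx => hm x (hTA x hx))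
    have h2 : T.card * M ≤ 2 * Fintype.card W * M := Nat.mul_le_mul_right M hTc
    have h3 : (2 * Fintype.card W + 1) * M = 2 * Fintype.card W * M + M := by ring
    refine emb_mat F G Q hQ hQ2 a b ha hb hab (fun i => (hadj i).2.2)
      (B.filter (fun y => ∀ a ∈ T, G.Adj a y)) (by clear hAc hq0 hTc; omega) ?_ ?_
    · intro i y hy
      exact (mem_filter.1 hy).2 _ (haT i)
    · intro i y hy
      exact (mem_filter.1 hy).2 _ (hbT i)
  · obtain ⟨S, hS, hS2⟩ := mat_cover G A q hM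
    obtain ⟨s, hsA, hs⟩ : ∃ s ∈ A, q ≤ (A.filter (G.Adj s)).card := by
      by_contra hcon
      push Not at hcon
      have h1 : A \ S ⊆ (A.filter (· ∈ S)).biUnion (fun s => A.filter (G.Adj s)) := by
        intro x hx
        rw [mem_sdiff] at hx
        obtain ⟨y, hy, hxy⟩ := hA x hx.1
        rw [mem_biUnion]
        refine ⟨y, mem_filter.2 ⟨hy, ?_⟩, mem_filter.2 ⟨hx.1, hxy.symm⟩⟩
        by_contra hyS
        exact hS2 x hx.1 y hy hx.2 hyS hxy
      have h2 := (card_le_card h1).trans (card_biUnion_le_card_mul _ _ q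
        (fun x hx => (hcon x (mem_filter.1 hx).1).le))
      have h3 : (A.filter (· ∈ S)).card ≤ S.card := by
        apply card_le_card
        intro x hx
        exact (mem_filter.1 hx).2
      have h4 : (A.filter (· ∈ S)).card * q ≤ 2 * q * q := Nat.mul_le_mul_right q (h3.trans hS)
      have h5 := le_card_sdiff S A
      clear hB hq0
      omega
    obtain ⟨T, hT, hTc⟩ := exists_subset_card_eq hs
    have hTA : ∀ x ∈ T, x ∈ A ∧ G.Adj s x := fun x hx => mem_filter.1 (hT hx)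
    have hins : ∀ x ∈ insert s T, x ∈ A := by
      intro x hx
      rcases mem_insert.1 hx with rfl | hx
      · exact hsA
      · exact (hTA x hx).1
    have h1 := common_card G B (insert s T) M (fun x hx => hm x (hins x hx))
    have h2 : (insert s T).card ≤ q + 1 := hTc ▸ card_insert_le s T
    have h3 : (insert s T).card * M ≤ (q + 1) * M := Nat.mul_le_mul_right M h2
    have h4 : (q + 1) * M ≤ (2 * q + 1) * M := Nat.mul_le_mul_right M (by omega)
    refine emb_star F G c P hP hP2 s T (B.filter (fun y => ∀ a ∈ insert s T, G.Adj a y))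
      (by rw [hq, hTc]) (fun t ht => (hTA t ht).2) (by
        rw [hq]
        clear hAc hq0 hS h2 hs hTc hq
        omega) ?_ ?_
    · intro y hy
      exact (mem_filter.1 hy).2 _ (mem_insert_self s T)
    · intro t ht y hy
      exact (mem_filter.1 hy).2 _ (mem_insert_of_mem ht)

theorem copy_of_deg {W : Type*} [Fintype W] (F : SimpleGraph W) (c : W) (P : Set W)
    (hP : ∀ x y, F.Adj x y → x ∉ P → y ∈ P)
    (hP2 : ∀ x y, F.Adj x y → x ∈ P → y ∈ P → x = c ∨ y = c) (Q : Set W)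
    (hQ : ∀ x y, F.Adj x y → x ∉ Q → y ∈ Q)
    (hQ2 : ∀ x ∈ Q, ∀ y ∈ Q, ∀ z ∈ Q, F.Adj x y → F.Adj x z → y = z)
    (G : SimpleGraph V) [DecidableRel G.Adj] (X : Finset V) (q s e d M : ℕ)
    (hq : Fintype.card W = q) (hq0 : 0 < q)
    (hd : d = q + q * (3 * e + 3 * s)) (hM : M = d + 3 * e + 3 * s)
    (h1 : X.card * q + 2 ^ s * q * s < s * e)
    (h2 : 2 * ((2 * q + 1) * M + q) + 2 * e + 2 * s ≤ X.card)
    (h3 : 2 * (2 * q + 2 * q * q) + 2 * e + 2 * s < X.card)
    (hdeg : ∀ v ∈ X, X.card < 2 * (X.filter (G.Adj v)).card) : F.IsContained G := by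
  by_contra hF
  have hed : e ≤ d := by
    have h : 1 * (3 * e + 3 * s) ≤ q * (3 * e + 3 * s) := Nat.mul_le_mul_right _ hq0
    clear h1 h2 h3 hM
    omega
  have hqd : q ≤ d := by
    rw [hd]
    exact Nat.le_add_right _ _
  -- a star and a complete bipartite graph in a neighbourhood
  have hstar : ∀ v : V, ∀ T C : Finset V, q ≤ T.card → (∀ t ∈ T, G.Adj v t) → q ≤ C.card →
      (∀ y ∈ C, G.Adj v y) → (∀ t ∈ T, ∀ y ∈ C, G.Adj t y) → False := by
    intro v T C hT hTv hC hCv hCT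
    exact hF (emb_star F G c P hP hP2 v T C (hq ▸ hT) hTv (hq ▸ hC) hCv hCT)
  -- few vertices of a neighbourhood have many neighbours in it
  have hbad : ∀ v : V, ((X.filter (G.Adj v)).filter
      (fun b => e ≤ ((X.filter (G.Adj v)).filter (G.Adj b)).card)).card < s := by
    intro v
    by_contra hcon
    push Not at hcon
    have hAX : (X.filter (G.Adj v)).card ≤ X.card := card_filter_le _ _
    obtain ⟨T, hT, hTc, hT2⟩ := kst G (X.filter (G.Adj v)) _ q s e hcon
      (fun b hb => (mem_filter.1 hb).2)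
      ((Nat.add_le_add_right (Nat.mul_le_mul_right q hAX) _).trans_lt h1)
    refine hstar v T _ hTc.ge ?_ hT2 ?_ ?_
    · intro t ht
      exact (mem_filter.1 (mem_filter.1 (hT ht)).1).2
    · intro y hy
      exact (mem_filter.1 (mem_filter.1 hy).1).2
    · intro t ht y hy
      exact (mem_filter.1 hy).2 t ht
  -- the two classes
  obtain ⟨v₀, hv₀⟩ : X.Nonempty := card_pos.1 ((Nat.zero_le _).trans_lt h3)
  obtain ⟨A₀, hA₀⟩ : ∃ A₀, A₀ = X.filter (G.Adj v₀) := ⟨_, rfl⟩
  obtain ⟨D₀, hD₀⟩ : ∃ D₀, D₀ = A₀.filter (fun b => e ≤ (A₀.filter (G.Adj b)).card) := ⟨_, rfl⟩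
  have hD₀c : D₀.card < s := by
    rw [hD₀, hA₀]
    exact hbad v₀
  obtain ⟨A₁, hA₁⟩ : ∃ A₁, A₁ = A₀ \ D₀ := ⟨_, rfl⟩
  have hA₁c : X.card + 1 ≤ 2 * A₁.card + 2 * s := by
    have h4 := hdeg v₀ hv₀
    have h5 := le_card_sdiff D₀ A₀
    rw [← hA₀] at h4
    rw [← hA₁] at h5
    exact ar6 _ _ _ _ _ h4 h5 hD₀c
  have hA₁X : A₁ ⊆ X := by
    rw [hA₁, hA₀]
    exact sdiff_subset.trans (filter_subset _ _)
  have hA₁0 : A₁ ⊆ A₀ := by
    rw [hA₁]
    exact sdiff_subset
  have hA₁d : ∀ a ∈ A₁, (A₀.filter (G.Adj a)).card < e := by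
    intro a ha
    rw [hA₁, mem_sdiff, hD₀, mem_filter] at ha
    by_contra hcon
    exact ha.2 ⟨ha.1, not_lt.1 hcon⟩
  have hA₁c' : X.card + 1 ≤ 2 * A₁.card + 2 * e + 2 * s := by
    clear h1 h2 h3 hM hd
    omega
  obtain ⟨x₀, hx₀⟩ : A₁.Nonempty :=
    card_pos.1 ((Nat.zero_le _).trans_lt (ar5 _ _ _ _ _ _ h3 hA₁c' le_rfl))
  obtain ⟨B₀, hB₀⟩ : ∃ B₀, B₀ = X.filter (G.Adj x₀) := ⟨_, rfl⟩
  obtain ⟨D₁, hD₁⟩ : ∃ D₁, D₁ = B₀.filter (fun b => e ≤ (B₀.filter (G.Adj b)).card) := ⟨_, rfl⟩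
  have hD₁c : D₁.card < s := by
    rw [hD₁, hB₀]
    exact hbad x₀
  obtain ⟨B₁, hB₁⟩ : ∃ B₁, B₁ = (B₀ \ A₀) \ D₁ := ⟨_, rfl⟩
  have hB₁c : X.card + 1 ≤ 2 * B₁.card + 2 * e + 2 * s := by
    have h4 := hdeg x₀ (hA₁X hx₀)
    have h5 := hA₁d x₀ hx₀
    have h6 : B₀.card ≤ (B₀ \ A₀).card + (A₀.filter (G.Adj x₀)).card := by
      have h7 : B₀ ⊆ (B₀ \ A₀) ∪ A₀.filter (G.Adj x₀) := by
        intro y hy
        have hy2 := hy
        rw [hB₀, mem_filter] at hy2
        simp only [mem_union, mem_sdiff, mem_filter]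
        tauto
      exact (card_le_card h7).trans (card_union_le _ _)
    have h8 := le_card_sdiff D₁ (B₀ \ A₀)
    rw [← hB₀] at h4
    rw [← hB₁] at h8
    exact ar7 _ _ _ _ _ _ _ _ h4 h8 hD₁c h6 h5
  have hB₁0 : B₁ ⊆ B₀ := by
    rw [hB₁]
    exact sdiff_subset.trans sdiff_subset
  have hB₁X : B₁ ⊆ X := by
    refine hB₁0.trans ?_
    rw [hB₀]
    exact filter_subset _ _
  have hB₁d : ∀ b ∈ B₁, (B₀.filter (G.Adj b)).card < e := by
    intro b hb
    have hb0 := hB₁0 hb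
    rw [hB₁, mem_sdiff, hD₁, mem_filter] at hb
    by_contra hcon
    exact hb.2 ⟨hb0, not_lt.1 hcon⟩
  have hdis : ∀ x ∈ A₁, x ∉ B₁ := by
    intro x hx hx2
    rw [hB₁, mem_sdiff, mem_sdiff] at hx2
    exact hx2.1.2 (hA₁0 hx)
  have hA₁e : ∀ a ∈ A₁, (A₁.filter (G.Adj a)).card < e := fun a ha =>
    (card_le_card (filter_subset_filter _ hA₁0)).trans_lt (hA₁d a ha)
  have hB₁e : ∀ b ∈ B₁, (B₁.filter (G.Adj b)).card < e := fun b hb =>
    (card_le_card (filter_subset_filter _ hB₁0)).trans_lt (hB₁d b hb)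
  obtain ⟨R, hR⟩ : ∃ R, R = (X \ A₁) \ B₁ := ⟨_, rfl⟩
  have hRc : R.card + B₁.card + A₁.card = X.card := by
    have h4 : (X \ A₁).card + A₁.card = X.card := card_sdiff_add_card_eq_card hA₁X
    have h5 : ((X \ A₁) \ B₁).card + B₁.card = (X \ A₁).card :=
      card_sdiff_add_card_eq_card (fun y hy => mem_sdiff.2 ⟨hB₁X hy, fun h => hdis y h hy⟩)
    rw [← hR] at h5
    rw [h5, h4]
  have hdec : ∀ v ∈ X, X.card <
      2 * ((A₁.filter (G.Adj v)).card + (B₁.filter (G.Adj v)).card + R.card) := by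
    intro v hv
    have h4 : X.filter (G.Adj v) ⊆ (A₁.filter (G.Adj v) ∪ B₁.filter (G.Adj v)) ∪ R := by
      intro y hy
      simp only [mem_union, mem_filter, hR, mem_sdiff] at hy ⊢
      tauto
    have h5 := (card_le_card h4).trans (card_union_le _ _)
    have h6 := card_union_le (A₁.filter (G.Adj v)) (B₁.filter (G.Adj v))
    exact ar8 _ _ _ _ _ _ (hdeg v hv) h5 h6
  have hmissB : ∀ v ∈ X, ∀ x, (A₁.filter (G.Adj v)).card < x →
      (B₁.filter (fun y => ¬ G.Adj v y)).card ≤ x + 3 * e + 3 * s := by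
    intro v hv x hx
    have h5 := card_filter_add_card_filter_not (s := B₁) (G.Adj v)
    exact ar1 _ _ _ _ _ _ _ _ _ _ hRc hA₁c (hdec v hv) h5 hx
  have hmissA : ∀ v ∈ X, ∀ x, (B₁.filter (G.Adj v)).card < x →
      (A₁.filter (fun y => ¬ G.Adj v y)).card ≤ x + 3 * e + 3 * s := by
    intro v hv x hx
    have h5 := card_filter_add_card_filter_not (s := A₁) (G.Adj v)
    exact ar2 _ _ _ _ _ _ _ _ _ _ hRc hB₁c (hdec v hv) h5 hx
  have hmissA₁ : ∀ v ∈ A₁, (B₁.filter (fun y => ¬ G.Adj v y)).card ≤ 3 * e + 3 * s := by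
    intro v hv
    have h5 := card_filter_add_card_filter_not (s := B₁) (G.Adj v)
    exact ar3 _ _ _ _ _ _ _ _ _ hRc hA₁c (hdec v (hA₁X hv)) h5 (hA₁e v hv)
  -- no vertex has many neighbours in both classes
  have hboth : ∀ r ∈ X, d ≤ (A₁.filter (G.Adj r)).card → (B₁.filter (G.Adj r)).card < d := by
    intro r hr h4
    by_contra h5
    push Not at h5
    obtain ⟨T, hT, hTc⟩ := exists_subset_card_eq (hqd.trans h4)
    have hTA : ∀ x ∈ T, x ∈ A₁ ∧ G.Adj r x := fun x hx => mem_filter.1 (hT hx)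
    have h6 := common_card G (B₁.filter (G.Adj r)) T (3 * e + 3 * s) (by
      intro a ha
      refine (card_le_card ?_).trans (hmissA₁ a (hTA a ha).1)
      exact filter_subset_filter _ (filter_subset _ _))
    rw [hTc] at h6
    refine hstar r T ((B₁.filter (G.Adj r)).filter (fun y => ∀ a ∈ T, G.Adj a y)) hTc.ge
      (fun t ht => (hTA t ht).2) (by
        rw [hd] at h5
        exact Nat.le_of_add_le_add_right (h5.trans h6)) ?_ ?_
    · intro y hy
      exact (mem_filter.1 (mem_filter.1 hy).1).2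
    · intro t ht y hy
      exact (mem_filter.1 hy).2 t ht
  obtain ⟨A, hA⟩ : ∃ A, A = A₁ ∪ R.filter (fun r => (A₁.filter (G.Adj r)).card < d) := ⟨_, rfl⟩
  obtain ⟨B, hB⟩ : ∃ B, B = B₁ ∪ R.filter (fun r => ¬ (A₁.filter (G.Adj r)).card < d) := ⟨_, rfl⟩
  have hRX : R ⊆ X := by
    rw [hR]
    exact sdiff_subset.trans sdiff_subset
  have hAX : A ⊆ X := by
    rw [hA]
    exact union_subset hA₁X ((filter_subset _ _).trans hRX)
  have hBX : B ⊆ X := by
    rw [hB]
    exact union_subset hB₁X ((filter_subset _ _).trans hRX)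
  have hAd : ∀ a ∈ A, (A₁.filter (G.Adj a)).card < d := by
    intro a ha
    rw [hA, mem_union, mem_filter] at ha
    rcases ha with ha | ha
    · exact (hA₁e a ha).trans_le hed
    · exact ha.2
  have hBd : ∀ b ∈ B, (B₁.filter (G.Adj b)).card < d := by
    intro b hb
    have hbX := hBX hb
    rw [hB, mem_union, mem_filter] at hb
    rcases hb with hb | hb
    · exact (hB₁e b hb).trans_le hed
    · exact hboth b hbX (not_lt.1 hb.2)
  have hsplit : ∀ y ∈ X, y ∈ A ∨ y ∈ B := by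
    intro y hy
    simp only [hA, hB, hR, mem_union, mem_filter, mem_sdiff]
    tauto
  have hcard : A.card + B.card ≤ X.card := by
    have h4 : Disjoint A B := by
      rw [disjoint_left]
      intro y hy hy2
      simp only [hA, hB, hR, mem_union, mem_filter, mem_sdiff] at hy hy2
      have h5 := hdis y
      tauto
    rw [← card_union_of_disjoint h4]
    exact card_le_card (union_subset hAX hBX)
  have hA₁A : A₁.card ≤ A.card := card_le_card (by rw [hA]; exact subset_union_left)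
  have hB₁B : B₁.card ≤ B.card := card_le_card (by rw [hB]; exact subset_union_left)
  rcases Nat.lt_or_ge X.card (2 * B.card) with h4 | h4
  · refine hF (final_case F c P hP hP2 Q hQ hQ2 G B A₁ q M hq hq0 ?_ ?_
      (ar4 _ _ _ _ _ h2 hA₁c') (ar5 _ _ _ _ _ _ h3 hB₁c hB₁B))
    · intro b hb
      by_contra hcon
      push Not at hcon
      have h5 : X.filter (G.Adj b) ⊆ A := by
        intro y hy
        rw [mem_filter] at hy
        rcases hsplit y hy.1 with h6 | h6
        · exact h6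
        · exact absurd hy.2 (hcon y h6)
      have h6 := card_le_card h5
      have h7 := hdeg b (hBX hb)
      clear h1 h2 h3 hM hd hRc hA₁c hB₁c hA₁c' hed hqd hA₁A hB₁B hD₀c hD₁c
      omega
    · intro b hb
      rw [hM]
      exact hmissA b (hBX hb) d (hBd b hb)
  · refine hF (final_case F c P hP hP2 Q hQ hQ2 G A B₁ q M hq hq0 ?_ ?_
      (ar4 _ _ _ _ _ h2 hB₁c) (ar5 _ _ _ _ _ _ h3 hA₁c' hA₁A))
    · intro a ha
      by_contra hcon
      push Not at hcon
      have h5 : X.filter (G.Adj a) ⊆ B := by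
        intro y hy
        rw [mem_filter] at hy
        rcases hsplit y hy.1 with h6 | h6
        · exact absurd hy.2 (hcon y h6)
        · exact h6
      have h6 := card_le_card h5
      have h7 := hdeg a (hAX ha)
      clear h1 h2 h3 hM hd hRc hA₁c hB₁c hA₁c' hed hqd hA₁A hB₁B hD₀c hD₁c
      omega
    · intro a ha
      rw [hM]
      exact hmissB a (hAX ha) d (hAd a ha)

end MP_0a9719_co
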