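import Pool.Agent.Lib.MP_0a9719_co_FR.Emb

/-! MP_0a9719_co, graphs with edge excess `n/4`: embedding lemmas. `K_{t,t}` with a path on three
vertices in one class, `K_{t,t}` with a matching in both classes. -/

namespace MP_0a9719_co

open Finset

/-- a path on three vertices in one class -/
theorem emb_cherry {W V : Type*} [Fintype W] (F : SimpleGraph W) (G : SimpleGraph V) (c x y : W)
    (P : Set W) (hP : ∀ s t, F.Adj s t → s ∉ P → t ∈ P)
    (hP2 : ∀ s t, F.Adj s t → s ∈ P → t ∈ P →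
      (s = c ∧ (t = x ∨ t = y)) ∨ (t = c ∧ (s = x ∨ s = y)))
    (hxc : x ≠ c) (hyc : y ≠ c)
    (v t1 t2 : V) (h12 : t1 ≠ t2) (hv1 : G.Adj v t1) (hv2 : G.Adj v t2)
    (T C : Finset V) (hT : Fintype.card W ≤ T.card) (hvT : v ∉ T) (h1T : t1 ∉ T) (h2T : t2 ∉ T)
    (hC : Fintype.card W ≤ C.card) (hCv : ∀ z ∈ C, G.Adj v z) (hC1 : ∀ z ∈ C, G.Adj t1 z)
    (hC2 : ∀ z ∈ C, G.Adj t2 z) (hCT : ∀ t ∈ T, ∀ z ∈ C, G.Adj t z) : F.IsContained G := by
  classical
  obtain ⟨g⟩ : Nonempty (W ↪ T) := by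
    apply Function.Embedding.nonempty_of_card_le
    simpa using hT
  have hgv : ∀ w, (g w : V) ≠ v := fun w h => hvT (h ▸ (g w).2)
  have hg1 : ∀ w, (g w : V) ≠ t1 := fun w h => h1T (h ▸ (g w).2)
  have hg2 : ∀ w, (g w : V) ≠ t2 := fun w h => h2T (h ▸ (g w).2)
  have hgi : ∀ s t, (g s : V) = (g t : V) → s = t := fun s t h => g.injective (Subtype.ext h)
  have hn1 : v ≠ t1 := hv1.ne
  have hn2 : v ≠ t2 := hv2.ne
  let φ : W → V := fun w => if w = c then v else if w = x then t1 else if w = y then t2 else g w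
  have hφc : φ c = v := by simp [φ]
  have hφx : φ x = t1 := by simp [φ, hxc]
  have hφy : φ y = t1 ∨ φ y = t2 := by
    by_cases h : y = x
    · left; rw [h]; exact hφx
    · right; simp [φ, hyc, h]
  have hφ : ∀ w, φ w = v ∨ φ w = t1 ∨ φ w = t2 ∨ ∃ u, φ w = g u := by
    intro w
    simp only [φ]
    split_ifs
    · exact Or.inl rfl
    · exact Or.inr (Or.inl rfl)
    · exact Or.inr (Or.inr (Or.inl rfl))
    · exact Or.inr (Or.inr (Or.inr ⟨w, rfl⟩))
  have hvy : G.Adj v (φ y) := by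
    rcases hφy with h | h <;> rw [h] <;> assumption
  refine emb_extend F G P hP φ ?_ ?_ C hC ?_
  · intro s _ t _ h
    simp only [φ] at h
    split_ifs at h with h1 h2 h3 h4 h5 h6 h7 h8 h9 h10 h11 h12 h13 h14 h15
    all_goals first
      | exact hgi _ _ h
      | exact absurd h hn1
      | exact absurd h hn2
      | exact absurd h hn1.symm
      | exact absurd h hn2.symm
      | exact absurd h h12
      | exact absurd h.symm h12
      | exact absurd h (hgv _)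
      | exact absurd h (hg1 _)
      | exact absurd h (hg2 _)
      | exact absurd h.symm (hgv _)
      | exact absurd h.symm (hg1 _)
      | exact absurd h.symm (hg2 _)
      | (subst_vars; rfl)
  · intro s hs t ht hst
    rcases hP2 s t hst hs ht with ⟨rfl, rfl | rfl⟩ | ⟨rfl, rfl | rfl⟩
    · rw [hφc, hφx]; exact hv1
    · rw [hφc]; exact hvy
    · rw [hφc, hφx]; exact hv1.symm
    · rw [hφc]; exact hvy.symm
  · intro s _ z hz
    rcases hφ s with h | h | h | ⟨u, h⟩ <;> rw [h]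
    · exact hCv z hz
    · exact hC1 z hz
    · exact hC2 z hz
    · exact hCT _ (g u).2 z hz

/-- a class with at most one inner neighbour per vertex is mapped onto a matching -/
theorem mat_map {W V : Type*} [Fintype W] (F : SimpleGraph W) (G : SimpleGraph V) (Q : Set W)
    (hQ2 : ∀ x ∈ Q, ∀ y ∈ Q, ∀ z ∈ Q, F.Adj x y → F.Adj x z → y = z)
    (a b : Fin (Fintype.card W) → V) (ha : Function.Injective a) (hb : Function.Injective b)
    (hab : ∀ i j, a i ≠ b j) (hadj : ∀ i, G.Adj (a i) (b i)) :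
    ∃ φ : W → V, (∀ x ∈ Q, ∀ y ∈ Q, φ x = φ y → x = y) ∧
      (∀ x ∈ Q, ∀ y ∈ Q, F.Adj x y → G.Adj (φ x) (φ y)) ∧
      ∀ x ∈ Q, (∃ i, φ x = a i) ∨ ∃ i, φ x = b i := by
  classical
  let e := Fintype.equivFin W
  let φ : W → V := fun w =>
    if h : ∃ y, y ∈ Q ∧ F.Adj w y ∧ e y < e w then b (e h.choose) else a (e w)
  have hφ1 : ∀ w y, w ∈ Q → y ∈ Q → F.Adj w y → e y < e w → φ w = b (e y) := by
    intro w y hw hy h1 h2
    have h : ∃ y, y ∈ Q ∧ F.Adj w y ∧ e y < e w := ⟨y, hy, h1, h2⟩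
    have h3 : h.choose = y :=
      hQ2 w hw _ h.choose_spec.1 y hy h.choose_spec.2.1 h1
    simp only [φ, dif_pos h, h3]
  have hφ2 : ∀ w, (¬ ∃ y, y ∈ Q ∧ F.Adj w y ∧ e y < e w) → φ w = a (e w) := by
    intro w h
    simp only [φ, dif_neg h]
  have key : ∀ x ∈ Q, ∀ y ∈ Q, F.Adj x y → e x < e y → G.Adj (φ x) (φ y) := by
    intro x hx y hy hxy h
    rw [hφ1 y x hy hx hxy.symm h, hφ2 x]
    · exact hadj _
    · rintro ⟨z, hz, h1, h2⟩
      have := hQ2 x hx z hz y hy h1 hxy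
      subst this
      exact absurd h (not_lt.2 h2.le)
  refine ⟨φ, ?_, ?_, ?_⟩
  · intro x hx y hy hxy
    by_cases h1 : ∃ z, z ∈ Q ∧ F.Adj x z ∧ e z < e x <;>
      by_cases h2 : ∃ z, z ∈ Q ∧ F.Adj y z ∧ e z < e y
    · obtain ⟨z, hz, h3, h4⟩ := h1
      obtain ⟨z', hz', h5, h6⟩ := h2
      rw [hφ1 x z hx hz h3 h4, hφ1 y z' hy hz' h5 h6] at hxy
      have h7 : z = z' := e.injective (hb hxy)
      subst h7
      exact hQ2 z hz x hx y hy h3.symm h5.symm
    · obtain ⟨z, hz, h3, h4⟩ := h1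
      rw [hφ1 x z hx hz h3 h4, hφ2 y h2] at hxy
      exact absurd hxy.symm (hab _ _)
    · obtain ⟨z', hz', h5, h6⟩ := h2
      rw [hφ2 x h1, hφ1 y z' hy hz' h5 h6] at hxy
      exact absurd hxy (hab _ _)
    · rw [hφ2 x h1, hφ2 y h2] at hxy
      exact e.injective (ha hxy)
  · intro x hx y hy hxy
    rcases lt_trichotomy (e x) (e y) with h | h | h
    · exact key x hx y hy hxy h
    · exact absurd (e.injective h) hxy.ne
    · exact (key y hy x hx hxy.symm h).symm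
  · intro x hx
    by_cases h1 : ∃ z, z ∈ Q ∧ F.Adj x z ∧ e z < e x
    · obtain ⟨z, hz, h3, h4⟩ := h1
      exact Or.inr ⟨_, hφ1 x z hx hz h3 h4⟩
    · exact Or.inl ⟨_, hφ2 x h1⟩

/-- a matching in both classes -/
theorem emb_mm {W V : Type*} [Fintype W] (F : SimpleGraph W) (G : SimpleGraph V) (Q : Set W)
    (hQ2 : ∀ x ∈ Q, ∀ y ∈ Q, ∀ z ∈ Q, F.Adj x y → F.Adj x z → y = z)
    (hQ3 : ∀ x, x ∉ Q → ∀ y, y ∉ Q → ∀ z, z ∉ Q → F.Adj x y → F.Adj x z → y = z)
    (a b a' b' : Fin (Fintype.card W) → V) (ha : Function.Injective a)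
    (hb : Function.Injective b) (hab : ∀ i j, a i ≠ b j) (hadj : ∀ i, G.Adj (a i) (b i))
    (ha' : Function.Injective a') (hb' : Function.Injective b') (hab' : ∀ i j, a' i ≠ b' j)
    (hadj' : ∀ i, G.Adj (a' i) (b' i)) (h1 : ∀ i j, G.Adj (a i) (a' j))
    (h2 : ∀ i j, G.Adj (a i) (b' j)) (h3 : ∀ i j, G.Adj (b i) (a' j))
    (h4 : ∀ i j, G.Adj (b i) (b' j)) : F.IsContained G := by
  classical
  obtain ⟨φ, hφ1, hφ2, hφ3⟩ := mat_map F G Q hQ2 a b ha hb hab hadj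
  obtain ⟨ψ, hψ1, hψ2, hψ3⟩ := mat_map F G Qᶜ
    (fun x hx y hy z hz => hQ3 x hx y hy z hz) a' b' ha' hb' hab' hadj'
  have hcross : ∀ x ∈ Q, ∀ y, y ∉ Q → G.Adj (φ x) (ψ y) := by
    intro x hx y hy
    rcases hφ3 x hx with ⟨i, hi⟩ | ⟨i, hi⟩ <;> rcases hψ3 y hy with ⟨j, hj⟩ | ⟨j, hj⟩ <;>
      rw [hi, hj]
    · exact h1 i j
    · exact h2 i j
    · exact h3 i j
    · exact h4 i j
  refine ⟨⟨⟨fun w => if w ∈ Q then φ w else ψ w, ?_⟩, ?_⟩⟩
  · intro x y hxy
    by_cases hx : x ∈ Q <;> by_cases hy : y ∈ Q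
    · simpa [hx, hy] using hφ2 x hx y hy hxy
    · simpa [hx, hy] using hcross x hx y hy
    · simpa [hx, hy] using (hcross y hy x hx).symm
    · simpa [hx, hy] using hψ2 x hx y hy hxy
  · intro x y hxy
    by_cases hx : x ∈ Q <;> by_cases hy : y ∈ Q
    · exact hφ1 x hx y hy (by simpa [hx, hy] using hxy)
    · have h5 : φ x = ψ y := by simpa [hx, hy] using hxy
      exact absurd h5 (hcross x hx y hy).ne
    · have h5 : ψ x = φ y := by simpa [hx, hy] using hxy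
      exact absurd h5 (hcross y hy x hx).ne'
    · exact hψ1 x hx y hy (by simpa [hx, hy] using hxy)

end MP_0a9719_co
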