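import Mathlib

/-! MP_0a9719_co, graphs with edge excess `O(1)`: embedding lemmas. `K_{t,t}` with a star in one
class, `K_{t,t}` with a matching in one class. -/

namespace MP_0a9719_co

open Finset

/-- extension to the independent class -/
theorem emb_extend {W V : Type*} [Fintype W] (F : SimpleGraph W) (G : SimpleGraph V)
    (P : Set W) (hP : ∀ x y, F.Adj x y → x ∉ P → y ∈ P) (φ : W → V)
    (hinj : ∀ x ∈ P, ∀ y ∈ P, φ x = φ y → x = y)
    (hhom : ∀ x ∈ P, ∀ y ∈ P, F.Adj x y → G.Adj (φ x) (φ y))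
    (C : Finset V) (hC : Fintype.card W ≤ C.card)
    (hCP : ∀ x ∈ P, ∀ y ∈ C, G.Adj (φ x) y) : F.IsContained G := by
  classical
  obtain ⟨g⟩ : Nonempty (W ↪ C) := by
    apply Function.Embedding.nonempty_of_card_le
    simpa using hC
  refine ⟨⟨⟨fun w => if w ∈ P then φ w else (g w : V), ?_⟩, ?_⟩⟩
  · intro x y hxy
    by_cases hx : x ∈ P <;> by_cases hy : y ∈ P
    · simpa [hx, hy] using hhom x hx y hy hxy
    · simpa [hx, hy] using hCP x hx (g y) (g y).2
    · simpa [hx, hy] using (hCP y hy (g x) (g x).2).symm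
    · exact absurd (hP x y hxy hx) hy
  · intro x y hxy
    by_cases hx : x ∈ P <;> by_cases hy : y ∈ P
    · exact hinj x hx y hy (by simpa [hx, hy] using hxy)
    · have h1 : φ x = (g y : V) := by simpa [hx, hy] using hxy
      have h2 := hCP x hx (g y) (g y).2
      rw [h1] at h2
      exact absurd h2 (G.loopless.irrefl _)
    · have h1 : (g x : V) = φ y := by simpa [hx, hy] using hxy
      have h2 := hCP y hy (g x) (g x).2
      rw [← h1] at h2
      exact absurd h2 (G.loopless.irrefl _)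
    · have h1 : (g x : V) = (g y : V) := by simpa [hx, hy] using hxy
      exact g.injective (Subtype.ext h1)

/-- a star in one class -/
theorem emb_star {W V : Type*} [Fintype W] (F : SimpleGraph W) (G : SimpleGraph V) (c : W)
    (P : Set W) (hP : ∀ x y, F.Adj x y → x ∉ P → y ∈ P)
    (hP2 : ∀ x y, F.Adj x y → x ∈ P → y ∈ P → x = c ∨ y = c)
    (v : V) (T C : Finset V) (hT : Fintype.card W ≤ T.card) (hTv : ∀ t ∈ T, G.Adj v t)
    (hC : Fintype.card W ≤ C.card) (hCv : ∀ y ∈ C, G.Adj v y)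
    (hCT : ∀ t ∈ T, ∀ y ∈ C, G.Adj t y) : F.IsContained G := by
  classical
  obtain ⟨g⟩ : Nonempty (W ↪ T) := by
    apply Function.Embedding.nonempty_of_card_le
    simpa using hT
  refine emb_extend F G P hP (fun w => if w = c then v else (g w : V)) ?_ ?_ C hC ?_
  · intro x _ y _ hxy
    by_cases hx : x = c <;> by_cases hy : y = c
    · rw [hx, hy]
    · have h1 : v = (g y : V) := by simpa [hx, hy] using hxy
      have h2 := hTv (g y) (g y).2
      rw [← h1] at h2
      exact absurd h2 (G.loopless.irrefl _)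
    · have h1 : (g x : V) = v := by simpa [hx, hy] using hxy
      have h2 := hTv (g x) (g x).2
      rw [h1] at h2
      exact absurd h2 (G.loopless.irrefl _)
    · have h1 : (g x : V) = (g y : V) := by simpa [hx, hy] using hxy
      exact g.injective (Subtype.ext h1)
  · intro x hx y hy hxy
    rcases hP2 x y hxy hx hy with rfl | rfl
    · have h1 : y ≠ x := hxy.ne'
      simpa [h1] using hTv (g y) (g y).2
    · have h1 : x ≠ y := hxy.ne
      simpa [h1] using (hTv (g x) (g x).2).symm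
  · intro x _ y hy
    by_cases hx : x = c
    · simpa [hx] using hCv y hy
    · simpa [hx] using hCT (g x) (g x).2 y hy

/-- a matching in one class -/
theorem emb_mat {W V : Type*} [Fintype W] (F : SimpleGraph W) (G : SimpleGraph V)
    (Q : Set W) (hQ : ∀ x y, F.Adj x y → x ∉ Q → y ∈ Q)
    (hQ2 : ∀ x ∈ Q, ∀ y ∈ Q, ∀ z ∈ Q, F.Adj x y → F.Adj x z → y = z)
    (a b : Fin (Fintype.card W) → V) (ha : Function.Injective a) (hb : Function.Injective b)
    (hab : ∀ i j, a i ≠ b j) (hadj : ∀ i, G.Adj (a i) (b i)) (C : Finset V)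
    (hC : Fintype.card W ≤ C.card) (hCa : ∀ i, ∀ y ∈ C, G.Adj (a i) y)
    (hCb : ∀ i, ∀ y ∈ C, G.Adj (b i) y) : F.IsContained G := by
  classical
  let e := Fintype.equivFin W
  let φ : W → V := fun w =>
    if h : ∃ y, y ∈ Q ∧ F.Adj w y ∧ e y < e w then b (e h.choose) else a (e w)
  have hφ1 : ∀ w y, w ∈ Q → y ∈ Q → F.Adj w y → e y < e w → φ w = b (e y) := by
    intro w y hw hy h1 h2
    have h : ∃ y, y ∈ Q ∧ F.Adj w y ∧ e y < e w := ⟨y, hy, h1, h2⟩
    have h3 : h.choose = y :=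
      hQ2 w hw _ h.choose_spec.1 y hy h.choose_spec.2.1 h1
    simp only [φ, dif_pos h, h3]
  have hφ2 : ∀ w, (¬ ∃ y, y ∈ Q ∧ F.Adj w y ∧ e y < e w) → φ w = a (e w) := by
    intro w h
    simp only [φ, dif_neg h]
  have key : ∀ x ∈ Q, ∀ y ∈ Q, F.Adj x y → e x < e y → G.Adj (φ x) (φ y) := by
    intro x hx y hy hxy h
    rw [hφ1 y x hy hx hxy.symm h, hφ2 x]
    · exact hadj _
    · rintro ⟨z, hz, h1, h2⟩
      have := hQ2 x hx z hz y hy h1 hxy
      subst this
      exact absurd h (not_lt.2 h2.le)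
  refine emb_extend F G Q hQ φ ?_ ?_ C hC ?_
  · intro x hx y hy hxy
    by_cases h1 : ∃ z, z ∈ Q ∧ F.Adj x z ∧ e z < e x <;>
      by_cases h2 : ∃ z, z ∈ Q ∧ F.Adj y z ∧ e z < e y
    · obtain ⟨z, hz, h3, h4⟩ := h1
      obtain ⟨z', hz', h5, h6⟩ := h2
      rw [hφ1 x z hx hz h3 h4, hφ1 y z' hy hz' h5 h6] at hxy
      have h7 : z = z' := e.injective (hb hxy)
      subst h7
      exact hQ2 z hz x hx y hy h3.symm h5.symm
    · obtain ⟨z, hz, h3, h4⟩ := h1
      rw [hφ1 x z hx hz h3 h4, hφ2 y h2] at hxy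
      exact absurd hxy.symm (hab _ _)
    · obtain ⟨z', hz', h5, h6⟩ := h2
      rw [hφ2 x h1, hφ1 y z' hy hz' h5 h6] at hxy
      exact absurd hxy (hab _ _)
    · rw [hφ2 x h1, hφ2 y h2] at hxy
      exact e.injective (ha hxy)
  · intro x hx y hy hxy
    rcases lt_trichotomy (e x) (e y) with h | h | h
    · exact key x hx y hy hxy h
    · exact absurd (e.injective h) hxy.ne
    · exact (key y hy x hx hxy.symm h).symm
  · intro x hx y hy
    by_cases h1 : ∃ z, z ∈ Q ∧ F.Adj x z ∧ e z < e x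
    · obtain ⟨z, hz, h3, h4⟩ := h1
      rw [hφ1 x z hx hz h3 h4]
      exact hCb _ y hy
    · rw [hφ2 x h1]
      exact hCa _ y hy

end MP_0a9719_co
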