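import Pool.Agent.Lib.MP_0a9719_co_FR.Emb

/-! MP_0a9719_co, graphs with edge excess `n/4`: embedding lemmas. `K_{t,t}` with a path with three
vertices in one class, and with a matching in both classes. -/

namespace MP_0a9719_co

open Finset

/-- a path with three vertices in one class -/
theorem emb_cherry {W V : Type*} [Fintype W] (F : SimpleGraph W) (G : SimpleGraph V) (c x y : W)
    (P : Set W) (hP : ∀ u v, F.Adj u v → u ∉ P → v ∈ P)
    (hP2 : ∀ u v, F.Adj u v → u ∈ P → v ∈ P →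
      (u = c ∧ (v = x ∨ v = y)) ∨ (v = c ∧ (u = x ∨ u = y)))
    (hcx : x ≠ c) (hcy : y ≠ c) (hxy : x ≠ y)
    (a₀ a₁ a₂ : V) (h1 : G.Adj a₀ a₁) (h2 : G.Adj a₀ a₂) (h12 : a₁ ≠ a₂)
    (T : Finset V) (hT : Fintype.card W ≤ T.card) (hT0 : a₀ ∉ T) (hT1 : a₁ ∉ T) (hT2 : a₂ ∉ T)
    (C : Finset V) (hC : Fintype.card W ≤ C.card) (hC0 : ∀ z ∈ C, G.Adj a₀ z)
    (hC1 : ∀ z ∈ C, G.Adj a₁ z) (hC2 : ∀ z ∈ C, G.Adj a₂ z)
    (hCT : ∀ t ∈ T, ∀ z ∈ C, G.Adj t z) : F.IsContained G := by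
  classical
  obtain ⟨g⟩ : Nonempty (W ↪ T) := by
    apply Function.Embedding.nonempty_of_card_le
    simpa using hT
  obtain ⟨φ, hφ⟩ : ∃ φ : W → V, φ =
    fun w => if w = c then a₀ else if w = x then a₁ else if w = y then a₂ else (g w : V) := ⟨_, rfl⟩
  have hφc : φ c = a₀ := by simp [hφ]
  have hφx : φ x = a₁ := by simp [hφ, hcx]
  have hφy : φ y = a₂ := by simp [hφ, hcy, hxy.symm]
  have hall : ∀ w, (w = c ∧ φ w = a₀) ∨ (w = x ∧ φ w = a₁) ∨ (w = y ∧ φ w = a₂) ∨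
      (w = w ∧ φ w = (g w : V)) := by
    intro w
    by_cases hw1 : w = c
    · exact Or.inl ⟨hw1, hw1 ▸ hφc⟩
    by_cases hw2 : w = x
    · exact Or.inr (Or.inl ⟨hw2, hw2 ▸ hφx⟩)
    by_cases hw3 : w = y
    · exact Or.inr (Or.inr (Or.inl ⟨hw3, hw3 ▸ hφy⟩))
    · exact Or.inr (Or.inr (Or.inr ⟨rfl, by simp [hφ, hw1, hw2, hw3]⟩))
  have hg0 : ∀ w, (g w : V) ≠ a₀ := fun w h => hT0 (h ▸ (g w).2)
  have hg1 : ∀ w, (g w : V) ≠ a₁ := fun w h => hT1 (h ▸ (g w).2)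
  have hg2 : ∀ w, (g w : V) ≠ a₂ := fun w h => hT2 (h ▸ (g w).2)
  refine emb_extend F G P hP φ ?_ ?_ C hC ?_
  · intro u _ v _ huv
    rcases hall u with ⟨hu0, hu⟩ | ⟨hu0, hu⟩ | ⟨hu0, hu⟩ | ⟨hu0, hu⟩ <;>
      rcases hall v with ⟨hv0, hv⟩ | ⟨hv0, hv⟩ | ⟨hv0, hv⟩ | ⟨hv0, hv⟩ <;>
      rw [hu, hv] at huv
    · exact hu0.trans hv0.symm
    · exact absurd huv h1.ne
    · exact absurd huv h2.ne
    · exact absurd huv.symm (hg0 _)
    · exact absurd huv h1.ne'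
    · exact hu0.trans hv0.symm
    · exact absurd huv h12
    · exact absurd huv.symm (hg1 _)
    · exact absurd huv h2.ne'
    · exact absurd huv.symm h12
    · exact hu0.trans hv0.symm
    · exact absurd huv.symm (hg2 _)
    · exact absurd huv (hg0 _)
    · exact absurd huv (hg1 _)
    · exact absurd huv (hg2 _)
    · exact g.injective (Subtype.ext huv)
  · intro u hu v hv huv
    rcases hP2 u v huv hu hv with ⟨rfl, rfl | rfl⟩ | ⟨rfl, rfl | rfl⟩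
    · rw [hφc, hφx]
      exact h1
    · rw [hφc, hφy]
      exact h2
    · rw [hφc, hφx]
      exact h1.symm
    · rw [hφc, hφy]
      exact h2.symm
  · intro u _ z hz
    rcases hall u with ⟨_, hu⟩ | ⟨_, hu⟩ | ⟨_, hu⟩ | ⟨_, hu⟩ <;> rw [hu]
    · exact hC0 z hz
    · exact hC1 z hz
    · exact hC2 z hz
    · exact hCT _ (g u).2 z hz

theorem mat_map {W V : Type*} [Fintype W] (F : SimpleGraph W) (G : SimpleGraph V)
    (Q : Set W) (hQ2 : ∀ x ∈ Q, ∀ y ∈ Q, ∀ z ∈ Q, F.Adj x y → F.Adj x z → y = z)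
    (a b : Fin (Fintype.card W) → V) (ha : Function.Injective a) (hb : Function.Injective b)
    (hab : ∀ i j, a i ≠ b j) (hadj : ∀ i, G.Adj (a i) (b i)) :
    ∃ φ : W → V, (∀ w, (∃ i, φ w = a i) ∨ ∃ i, φ w = b i) ∧
      (∀ x ∈ Q, ∀ y ∈ Q, φ x = φ y → x = y) ∧
      (∀ x ∈ Q, ∀ y ∈ Q, F.Adj x y → G.Adj (φ x) (φ y)) := by
  classical
  let e := Fintype.equivFin W
  let φ : W → V := fun w =>
    if h : ∃ y, y ∈ Q ∧ F.Adj w y ∧ e y < e w then b (e h.choose) else a (e w)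
  have hφ1 : ∀ w y, w ∈ Q → y ∈ Q → F.Adj w y → e y < e w → φ w = b (e y) := by
    intro w y hw hy h1 h2
    have h : ∃ y, y ∈ Q ∧ F.Adj w y ∧ e y < e w := ⟨y, hy, h1, h2⟩
    have h3 : h.choose = y :=
      hQ2 w hw _ h.choose_spec.1 y hy h.choose_spec.2.1 h1
    simp only [φ, dif_pos h, h3]
  have hφ2 : ∀ w, (¬ ∃ y, y ∈ Q ∧ F.Adj w y ∧ e y < e w) → φ w = a (e w) := by
    intro w h
    simp only [φ, dif_neg h]
  have key : ∀ x ∈ Q, ∀ y ∈ Q, F.Adj x y → e x < e y → G.Adj (φ x) (φ y) := by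
    intro x hx y hy hxy h
    rw [hφ1 y x hy hx hxy.symm h, hφ2 x]
    · exact hadj _
    · rintro ⟨z, hz, h1, h2⟩
      have := hQ2 x hx z hz y hy h1 hxy
      subst this
      exact absurd h (not_lt.2 h2.le)
  refine ⟨φ, ?_, ?_, ?_⟩
  · intro w
    by_cases h : ∃ y, y ∈ Q ∧ F.Adj w y ∧ e y < e w
    · right
      exact ⟨e h.choose, by simp only [φ, dif_pos h]⟩
    · left
      exact ⟨_, hφ2 w h⟩
  · intro x hx y hy hxy
    by_cases h1 : ∃ z, z ∈ Q ∧ F.Adj x z ∧ e z < e x <;>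
      by_cases h2 : ∃ z, z ∈ Q ∧ F.Adj y z ∧ e z < e y
    · obtain ⟨z, hz, h3, h4⟩ := h1
      obtain ⟨z', hz', h5, h6⟩ := h2
      rw [hφ1 x z hx hz h3 h4, hφ1 y z' hy hz' h5 h6] at hxy
      have h7 : z = z' := e.injective (hb hxy)
      subst h7
      exact hQ2 z hz x hx y hy h3.symm h5.symm
    · obtain ⟨z, hz, h3, h4⟩ := h1
      rw [hφ1 x z hx hz h3 h4, hφ2 y h2] at hxy
      exact absurd hxy.symm (hab _ _)
    · obtain ⟨z', hz', h5, h6⟩ := h2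
      rw [hφ2 x h1, hφ1 y z' hy hz' h5 h6] at hxy
      exact absurd hxy (hab _ _)
    · rw [hφ2 x h1, hφ2 y h2] at hxy
      exact e.injective (ha hxy)
  · intro x hx y hy hxy
    rcases lt_trichotomy (e x) (e y) with h | h | h
    · exact key x hx y hy hxy h
    · exact absurd (e.injective h) hxy.ne
    · exact (key y hy x hx hxy.symm h).symm

/-- a matching in both classes -/
theorem emb_two {W V : Type*} [Fintype W] (F : SimpleGraph W) (G : SimpleGraph V) (Q : Set W)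
    (hQ2 : ∀ x ∈ Q, ∀ y ∈ Q, ∀ z ∈ Q, F.Adj x y → F.Adj x z → y = z)
    (hQ3 : ∀ x ∉ Q, ∀ y ∉ Q, ∀ z ∉ Q, F.Adj x y → F.Adj x z → y = z)
    (a b : Fin (Fintype.card W) → V) (ha : Function.Injective a) (hb : Function.Injective b)
    (hab : ∀ i j, a i ≠ b j) (hadj : ∀ i, G.Adj (a i) (b i))
    (a' b' : Fin (Fintype.card W) → V) (ha' : Function.Injective a') (hb' : Function.Injective b')
    (hab' : ∀ i j, a' i ≠ b' j) (hadj' : ∀ i, G.Adj (a' i) (b' i))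
    (haa : ∀ i j, G.Adj (a i) (a' j)) (hab2 : ∀ i j, G.Adj (a i) (b' j))
    (hba : ∀ i j, G.Adj (b i) (a' j)) (hbb : ∀ i j, G.Adj (b i) (b' j)) : F.IsContained G := by
  classical
  obtain ⟨φ, hφr, hφi, hφh⟩ := mat_map F G Q hQ2 a b ha hb hab hadj
  obtain ⟨ψ, hψr, hψi, hψh⟩ := mat_map F G Qᶜ hQ3 a' b' ha' hb' hab' hadj'
  have hcross : ∀ x y, G.Adj (φ x) (ψ y) := by
    intro x y
    rcases hφr x with ⟨i, hi⟩ | ⟨i, hi⟩ <;> rcases hψr y with ⟨j, hj⟩ | ⟨j, hj⟩ <;> rw [hi, hj]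
    · exact haa i j
    · exact hab2 i j
    · exact hba i j
    · exact hbb i j
  refine ⟨⟨⟨fun w => if w ∈ Q then φ w else ψ w, ?_⟩, ?_⟩⟩
  · intro x y hxy
    by_cases hx : x ∈ Q <;> by_cases hy : y ∈ Q
    · simpa [hx, hy] using hφh x hx y hy hxy
    · simpa [hx, hy] using hcross x y
    · simpa [hx, hy] using (hcross y x).symm
    · simpa [hx, hy] using hψh x hx y hy hxy
  · intro x y hxy
    by_cases hx : x ∈ Q <;> by_cases hy : y ∈ Q
    · exact hφi x hx y hy (by simpa [hx, hy] using hxy)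
    · have h1 : φ x = ψ y := by simpa [hx, hy] using hxy
      exact absurd h1 (hcross x y).ne
    · have h1 : ψ x = φ y := by simpa [hx, hy] using hxy
      exact absurd h1.symm (hcross y x).ne
    · exact hψi x hx y hy (by simpa [hx, hy] using hxy)

end MP_0a9719_co
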