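import Pool.Agent.Lib.MP_0a9719_co_FR.Deg

/-! MP_0a9719_co, graphs with edge excess `n/4`: the two classes of a graph without a copy of `F` in
which all degrees exceed half of the number of vertices. -/

namespace MP_0a9719_co

open Finset

variable {V : Type*} [DecidableEq V]

theorem two_classes {W : Type*} [Fintype W] (F : SimpleGraph W) (c : W) (P : Set W)
    (hP : ∀ x y, F.Adj x y → x ∉ P → y ∈ P)
    (hP2 : ∀ x y, F.Adj x y → x ∈ P → y ∈ P → x = c ∨ y = c)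
    (G : SimpleGraph V) [DecidableRel G.Adj] (X : Finset V) (q s e d M : ℕ)
    (hq : Fintype.card W = q) (hq0 : 0 < q)
    (hd : d = q + q * (3 * e + 3 * s)) (hM : M = d + 3 * e + 3 * s)
    (h1 : X.card * q + 2 ^ s * q * s < s * e)
    (h2 : 2 * ((2 * q + 1) * M + q) + 2 * e + 2 * s ≤ X.card)
    (h3 : 2 * (2 * q + 2 * q * q) + 2 * e + 2 * s < X.card)
    (hdeg : ∀ v ∈ X, X.card < 2 * (X.filter (G.Adj v)).card) (hF : ¬ F.IsContained G) :
    ∃ A B A₁ B₁ : Finset V, A₁ ⊆ A ∧ B₁ ⊆ B ∧ A ⊆ X ∧ B ⊆ X ∧ Disjoint A B ∧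
      (∀ y ∈ X, y ∈ A ∨ y ∈ B) ∧
      (∀ a ∈ A, (B₁.filter (fun y => ¬ G.Adj a y)).card ≤ M) ∧
      (∀ b ∈ B, (A₁.filter (fun y => ¬ G.Adj b y)).card ≤ M) ∧
      (2 * q + 1) * M + q ≤ A₁.card ∧ (2 * q + 1) * M + q ≤ B₁.card := by
  have hed : e ≤ d := by
    have h : 1 * (3 * e + 3 * s) ≤ q * (3 * e + 3 * s) := Nat.mul_le_mul_right _ hq0
    clear h1 h2 h3 hM
    omega
  have hqd : q ≤ d := by
    rw [hd]
    exact Nat.le_add_right _ _
  -- a star and a complete bipartite graph in a neighbourhood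
  have hstar : ∀ v : V, ∀ T C : Finset V, q ≤ T.card → (∀ t ∈ T, G.Adj v t) → q ≤ C.card →
      (∀ y ∈ C, G.Adj v y) → (∀ t ∈ T, ∀ y ∈ C, G.Adj t y) → False := by
    intro v T C hT hTv hC hCv hCT
    exact hF (emb_star F G c P hP hP2 v T C (hq ▸ hT) hTv (hq ▸ hC) hCv hCT)
  -- few vertices of a neighbourhood have many neighbours in it
  have hbad : ∀ v : V, ((X.filter (G.Adj v)).filter
      (fun b => e ≤ ((X.filter (G.Adj v)).filter (G.Adj b)).card)).card < s := by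
    intro v
    by_contra hcon
    push Not at hcon
    have hAX : (X.filter (G.Adj v)).card ≤ X.card := card_filter_le _ _
    obtain ⟨T, hT, hTc, hT2⟩ := kst G (X.filter (G.Adj v)) _ q s e hcon
      (fun b hb => (mem_filter.1 hb).2)
      ((Nat.add_le_add_right (Nat.mul_le_mul_right q hAX) _).trans_lt h1)
    refine hstar v T _ hTc.ge ?_ hT2 ?_ ?_
    · intro t ht
      exact (mem_filter.1 (mem_filter.1 (hT ht)).1).2
    · intro y hy
      exact (mem_filter.1 (mem_filter.1 hy).1).2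
    · intro t ht y hy
      exact (mem_filter.1 hy).2 t ht
  -- the two classes
  obtain ⟨v₀, hv₀⟩ : X.Nonempty := card_pos.1 ((Nat.zero_le _).trans_lt h3)
  obtain ⟨A₀, hA₀⟩ : ∃ A₀, A₀ = X.filter (G.Adj v₀) := ⟨_, rfl⟩
  obtain ⟨D₀, hD₀⟩ : ∃ D₀, D₀ = A₀.filter (fun b => e ≤ (A₀.filter (G.Adj b)).card) := ⟨_, rfl⟩
  have hD₀c : D₀.card < s := by
    rw [hD₀, hA₀]
    exact hbad v₀
  obtain ⟨A₁, hA₁⟩ : ∃ A₁, A₁ = A₀ \ D₀ := ⟨_, rfl⟩
  have hA₁c : X.card + 1 ≤ 2 * A₁.card + 2 * s := by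
    have h4 := hdeg v₀ hv₀
    have h5 := le_card_sdiff D₀ A₀
    rw [← hA₀] at h4
    rw [← hA₁] at h5
    exact ar6 _ _ _ _ _ h4 h5 hD₀c
  have hA₁X : A₁ ⊆ X := by
    rw [hA₁, hA₀]
    exact sdiff_subset.trans (filter_subset _ _)
  have hA₁0 : A₁ ⊆ A₀ := by
    rw [hA₁]
    exact sdiff_subset
  have hA₁d : ∀ a ∈ A₁, (A₀.filter (G.Adj a)).card < e := by
    intro a ha
    rw [hA₁, mem_sdiff, hD₀, mem_filter] at ha
    by_contra hcon
    exact ha.2 ⟨ha.1, not_lt.1 hcon⟩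
  have hA₁c' : X.card + 1 ≤ 2 * A₁.card + 2 * e + 2 * s := by
    clear h1 h2 h3 hM hd
    omega
  obtain ⟨x₀, hx₀⟩ : A₁.Nonempty :=
    card_pos.1 ((Nat.zero_le _).trans_lt (ar5 _ _ _ _ _ _ h3 hA₁c' le_rfl))
  obtain ⟨B₀, hB₀⟩ : ∃ B₀, B₀ = X.filter (G.Adj x₀) := ⟨_, rfl⟩
  obtain ⟨D₁, hD₁⟩ : ∃ D₁, D₁ = B₀.filter (fun b => e ≤ (B₀.filter (G.Adj b)).card) := ⟨_, rfl⟩
  have hD₁c : D₁.card < s := by
    rw [hD₁, hB₀]
    exact hbad x₀
  obtain ⟨B₁, hB₁⟩ : ∃ B₁, B₁ = (B₀ \ A₀) \ D₁ := ⟨_, rfl⟩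
  have hB₁c : X.card + 1 ≤ 2 * B₁.card + 2 * e + 2 * s := by
    have h4 := hdeg x₀ (hA₁X hx₀)
    have h5 := hA₁d x₀ hx₀
    have h6 : B₀.card ≤ (B₀ \ A₀).card + (A₀.filter (G.Adj x₀)).card := by
      have h7 : B₀ ⊆ (B₀ \ A₀) ∪ A₀.filter (G.Adj x₀) := by
        intro y hy
        have hy2 := hy
        rw [hB₀, mem_filter] at hy2
        simp only [mem_union, mem_sdiff, mem_filter]
        tauto
      exact (card_le_card h7).trans (card_union_le _ _)
    have h8 := le_card_sdiff D₁ (B₀ \ A₀)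
    rw [← hB₀] at h4
    rw [← hB₁] at h8
    exact ar7 _ _ _ _ _ _ _ _ h4 h8 hD₁c h6 h5
  have hB₁0 : B₁ ⊆ B₀ := by
    rw [hB₁]
    exact sdiff_subset.trans sdiff_subset
  have hB₁X : B₁ ⊆ X := by
    refine hB₁0.trans ?_
    rw [hB₀]
    exact filter_subset _ _
  have hB₁d : ∀ b ∈ B₁, (B₀.filter (G.Adj b)).card < e := by
    intro b hb
    have hb0 := hB₁0 hb
    rw [hB₁, mem_sdiff, hD₁, mem_filter] at hb
    by_contra hcon
    exact hb.2 ⟨hb0, not_lt.1 hcon⟩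
  have hdis : ∀ x ∈ A₁, x ∉ B₁ := by
    intro x hx hx2
    rw [hB₁, mem_sdiff, mem_sdiff] at hx2
    exact hx2.1.2 (hA₁0 hx)
  have hA₁e : ∀ a ∈ A₁, (A₁.filter (G.Adj a)).card < e := fun a ha =>
    (card_le_card (filter_subset_filter _ hA₁0)).trans_lt (hA₁d a ha)
  have hB₁e : ∀ b ∈ B₁, (B₁.filter (G.Adj b)).card < e := fun b hb =>
    (card_le_card (filter_subset_filter _ hB₁0)).trans_lt (hB₁d b hb)
  obtain ⟨R, hR⟩ : ∃ R, R = (X \ A₁) \ B₁ := ⟨_, rfl⟩
  have hRc : R.card + B₁.card + A₁.card = X.card := by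
    have h4 : (X \ A₁).card + A₁.card = X.card := card_sdiff_add_card_eq_card hA₁X
    have h5 : ((X \ A₁) \ B₁).card + B₁.card = (X \ A₁).card :=
      card_sdiff_add_card_eq_card (fun y hy => mem_sdiff.2 ⟨hB₁X hy, fun h => hdis y h hy⟩)
    rw [← hR] at h5
    rw [h5, h4]
  have hdec : ∀ v ∈ X, X.card <
      2 * ((A₁.filter (G.Adj v)).card + (B₁.filter (G.Adj v)).card + R.card) := by
    intro v hv
    have h4 : X.filter (G.Adj v) ⊆ (A₁.filter (G.Adj v) ∪ B₁.filter (G.Adj v)) ∪ R := by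
      intro y hy
      simp only [mem_union, mem_filter, hR, mem_sdiff] at hy ⊢
      tauto
    have h5 := (card_le_card h4).trans (card_union_le _ _)
    have h6 := card_union_le (A₁.filter (G.Adj v)) (B₁.filter (G.Adj v))
    exact ar8 _ _ _ _ _ _ (hdeg v hv) h5 h6
  have hmissB : ∀ v ∈ X, ∀ x, (A₁.filter (G.Adj v)).card < x →
      (B₁.filter (fun y => ¬ G.Adj v y)).card ≤ x + 3 * e + 3 * s := by
    intro v hv x hx
    have h5 := card_filter_add_card_filter_not (s := B₁) (G.Adj v)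
    exact ar1 _ _ _ _ _ _ _ _ _ _ hRc hA₁c (hdec v hv) h5 hx
  have hmissA : ∀ v ∈ X, ∀ x, (B₁.filter (G.Adj v)).card < x →
      (A₁.filter (fun y => ¬ G.Adj v y)).card ≤ x + 3 * e + 3 * s := by
    intro v hv x hx
    have h5 := card_filter_add_card_filter_not (s := A₁) (G.Adj v)
    exact ar2 _ _ _ _ _ _ _ _ _ _ hRc hB₁c (hdec v hv) h5 hx
  have hmissA₁ : ∀ v ∈ A₁, (B₁.filter (fun y => ¬ G.Adj v y)).card ≤ 3 * e + 3 * s := by
    intro v hv
    have h5 := card_filter_add_card_filter_not (s := B₁) (G.Adj v)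
    exact ar3 _ _ _ _ _ _ _ _ _ hRc hA₁c (hdec v (hA₁X hv)) h5 (hA₁e v hv)
  -- no vertex has many neighbours in both classes
  have hboth : ∀ r ∈ X, d ≤ (A₁.filter (G.Adj r)).card → (B₁.filter (G.Adj r)).card < d := by
    intro r hr h4
    by_contra h5
    push Not at h5
    obtain ⟨T, hT, hTc⟩ := exists_subset_card_eq (hqd.trans h4)
    have hTA : ∀ x ∈ T, x ∈ A₁ ∧ G.Adj r x := fun x hx => mem_filter.1 (hT hx)
    have h6 := common_card G (B₁.filter (G.Adj r)) T (3 * e + 3 * s) (by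
      intro a ha
      refine (card_le_card ?_).trans (hmissA₁ a (hTA a ha).1)
      exact filter_subset_filter _ (filter_subset _ _))
    rw [hTc] at h6
    refine hstar r T ((B₁.filter (G.Adj r)).filter (fun y => ∀ a ∈ T, G.Adj a y)) hTc.ge
      (fun t ht => (hTA t ht).2) (by
        rw [hd] at h5
        exact Nat.le_of_add_le_add_right (h5.trans h6)) ?_ ?_
    · intro y hy
      exact (mem_filter.1 (mem_filter.1 hy).1).2
    · intro t ht y hy
      exact (mem_filter.1 hy).2 t ht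
  obtain ⟨A, hA⟩ : ∃ A, A = A₁ ∪ R.filter (fun r => (A₁.filter (G.Adj r)).card < d) := ⟨_, rfl⟩
  obtain ⟨B, hB⟩ : ∃ B, B = B₁ ∪ R.filter (fun r => ¬ (A₁.filter (G.Adj r)).card < d) := ⟨_, rfl⟩
  have hRX : R ⊆ X := by
    rw [hR]
    exact sdiff_subset.trans sdiff_subset
  have hAX : A ⊆ X := by
    rw [hA]
    exact union_subset hA₁X ((filter_subset _ _).trans hRX)
  have hBX : B ⊆ X := by
    rw [hB]
    exact union_subset hB₁X ((filter_subset _ _).trans hRX)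
  have hAd : ∀ a ∈ A, (A₁.filter (G.Adj a)).card < d := by
    intro a ha
    rw [hA, mem_union, mem_filter] at ha
    rcases ha with ha | ha
    · exact (hA₁e a ha).trans_le hed
    · exact ha.2
  have hBd : ∀ b ∈ B, (B₁.filter (G.Adj b)).card < d := by
    intro b hb
    have hbX := hBX hb
    rw [hB, mem_union, mem_filter] at hb
    rcases hb with hb | hb
    · exact (hB₁e b hb).trans_le hed
    · exact hboth b hbX (not_lt.1 hb.2)
  have hsplit : ∀ y ∈ X, y ∈ A ∨ y ∈ B := by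
    intro y hy
    simp only [hA, hB, hR, mem_union, mem_filter, mem_sdiff]
    tauto
  have hDis : Disjoint A B := by
    rw [disjoint_left]
    intro y hy hy2
    simp only [hA, hB, hR, mem_union, mem_filter, mem_sdiff] at hy hy2
    have h5 := hdis y
    tauto
  refine ⟨A, B, A₁, B₁, by rw [hA]; exact subset_union_left, by rw [hB]; exact subset_union_left,
    hAX, hBX, hDis, hsplit, ?_, ?_, ar4 _ _ _ _ _ h2 hA₁c', ar4 _ _ _ _ _ h2 hB₁c⟩
  · intro a ha
    rw [hM]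
    exact hmissB a (hAX ha) d (hAd a ha)
  · intro b hb
    rw [hM]
    exact hmissA b (hBX hb) d (hBd b hb)

end MP_0a9719_co
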