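import Pool.Agent.Lib.MP_0a9719_co_FR.Emb2
import Pool.Agent.Lib.MP_0a9719_co_FR.Str
import Pool.Agent.Lib.MP_0a9719_co_FR.Bnd

/-! MP_0a9719_co, graphs which become bipartite by the deletion of `k` edges at one vertex: embedding
and counting lemmas. -/

namespace MP_0a9719_co

open Finset

/-- a star with few leaves in one class -/
theorem emb_kstar {W V : Type*} [Fintype W] (F : SimpleGraph W) (G : SimpleGraph V) (c : W)
    (K : Finset W) (P : Set W) (hP : ∀ u v, F.Adj u v → u ∉ P → v ∈ P)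
    (hP2 : ∀ u v, F.Adj u v → u ∈ P → v ∈ P → (u = c ∧ v ∈ K) ∨ (v = c ∧ u ∈ K))
    (a₀ : V) (L T C : Finset V) (hL : K.card ≤ L.card) (hLa : ∀ z ∈ L, G.Adj a₀ z)
    (hT : Fintype.card W ≤ T.card) (hT0 : a₀ ∉ T) (hLT : ∀ z ∈ L, z ∉ T)
    (hC : Fintype.card W ≤ C.card) (hC0 : ∀ z ∈ C, G.Adj a₀ z)
    (hCL : ∀ l ∈ L, ∀ z ∈ C, G.Adj l z) (hCT : ∀ t ∈ T, ∀ z ∈ C, G.Adj t z) :
    F.IsContained G := by
  classical
  obtain ⟨g⟩ : Nonempty (W ↪ T) := by
    apply Function.Embedding.nonempty_of_card_le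
    simpa using hT
  obtain ⟨k⟩ : Nonempty (K ↪ L) := by
    apply Function.Embedding.nonempty_of_card_le
    simpa using hL
  obtain ⟨φ, hφ⟩ : ∃ φ : W → V, φ =
    fun w => if w = c then a₀ else if h : w ∈ K then (k ⟨w, h⟩ : V) else (g w : V) := ⟨_, rfl⟩
  have hφc : φ c = a₀ := by simp [hφ]
  have hφK : ∀ w (h : w ∈ K), w ≠ c → φ w = (k ⟨w, h⟩ : V) := by
    intro w h hw
    simp [hφ, hw, h]
  have hall : ∀ w, (w = c ∧ φ w = a₀) ∨ (∃ h : w ∈ K, φ w = (k ⟨w, h⟩ : V)) ∨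
      φ w = (g w : V) := by
    intro w
    by_cases hw1 : w = c
    · exact Or.inl ⟨hw1, hw1 ▸ hφc⟩
    by_cases hw2 : w ∈ K
    · exact Or.inr (Or.inl ⟨hw2, hφK w hw2 hw1⟩)
    · exact Or.inr (Or.inr (by simp [hφ, hw1, hw2]))
  have hg0 : ∀ w, (g w : V) ≠ a₀ := fun w h => hT0 (h ▸ (g w).2)
  have hk0 : ∀ w, (k w : V) ≠ a₀ := fun w h => (hLa _ (k w).2).ne h.symm
  have hgk : ∀ w w', (k w : V) ≠ (g w' : V) := fun w w' h => hLT _ (k w).2 (h ▸ (g w').2)
  refine emb_extend F G P hP φ ?_ ?_ C hC ?_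
  · intro u _ v _ huv
    rcases hall u with ⟨hu0, hu⟩ | ⟨hu0, hu⟩ | hu <;>
      rcases hall v with ⟨hv0, hv⟩ | ⟨hv0, hv⟩ | hv <;>
      rw [hu, hv] at huv
    · exact hu0.trans hv0.symm
    · exact absurd huv.symm (hk0 _)
    · exact absurd huv.symm (hg0 _)
    · exact absurd huv (hk0 _)
    · have h := k.injective (Subtype.ext huv)
      exact congrArg Subtype.val h
    · exact absurd huv (hgk _ _)
    · exact absurd huv (hg0 _)
    · exact absurd huv.symm (hgk _ _)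
    · exact g.injective (Subtype.ext huv)
  · intro u hu v hv huv
    rcases hP2 u v huv hu hv with ⟨rfl, h⟩ | ⟨rfl, h⟩
    · rw [hφc, hφK v h huv.ne']
      exact hLa _ (k ⟨v, h⟩).2
    · rw [hφc, hφK u h huv.ne]
      exact (hLa _ (k ⟨u, h⟩).2).symm
  · intro u _ z hz
    rcases hall u with ⟨_, hu⟩ | ⟨h, hu⟩ | hu <;> rw [hu]
    · exact hC0 z hz
    · exact hCL _ (k ⟨u, h⟩).2 z hz
    · exact hCT _ (g u).2 z hz

variable {V : Type*} [DecidableEq V]

/-- the inner degrees are at most `κ` -/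
theorem inner_leW {W : Type*} [Fintype W] (F : SimpleGraph W) (c : W) (K : Finset W)
    (P : Set W) (hP : ∀ u v, F.Adj u v → u ∉ P → v ∈ P)
    (hP2 : ∀ u v, F.Adj u v → u ∈ P → v ∈ P → (u = c ∧ v ∈ K) ∨ (v = c ∧ u ∈ K))
    (G : SimpleGraph V) [DecidableRel G.Adj] (A B : Finset V) (q M κ : ℕ)
    (hq : Fintype.card W = q) (hK : K.card ≤ κ + 1)
    (hm : ∀ a ∈ A, (B.filter (fun y => ¬ G.Adj a y)).card ≤ M)
    (hB : (2 * q + 1) * M + q ≤ B.card) (hAc : 2 * q + 1 ≤ A.card)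
    (hF : ¬ F.IsContained G) : ∀ a ∈ A, (A.filter (G.Adj a)).card ≤ κ := by
  intro a₀ ha₀
  by_contra hcon
  push Not at hcon
  have hKq : K.card ≤ q := hq ▸ card_le_univ K
  obtain ⟨L, hL, hLc⟩ := exists_subset_card_eq (hK.trans (Nat.succ_le_of_lt hcon))
  have hLA : ∀ z ∈ L, z ∈ A ∧ G.Adj a₀ z := fun z hz => mem_filter.1 (hL hz)
  obtain ⟨S, hS⟩ : ∃ S : Finset V, S = insert a₀ L := ⟨_, rfl⟩
  have hSc : S.card ≤ q + 1 := by
    rw [hS]
    exact (card_insert_le _ _).trans (by rw [hLc]; exact Nat.succ_le_succ hKq)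
  have hS0 : a₀ ∈ S := by
    rw [hS]
    exact mem_insert_self _ _
  have hSL : ∀ z ∈ L, z ∈ S := fun z hz => by
    rw [hS]
    exact mem_insert_of_mem hz
  have hSA : ∀ z ∈ S, z ∈ A := by
    intro z hz
    rw [hS, mem_insert] at hz
    rcases hz with rfl | hz
    · exact ha₀
    · exact (hLA z hz).1
  have hAS : q ≤ (A \ S).card := by
    have h := le_card_sdiff S A
    clear hB
    omega
  obtain ⟨T, hT, hTc⟩ := exists_subset_card_eq hAS
  have hTS : ∀ z ∈ S, z ∉ T := fun z hz hzT => (mem_sdiff.1 (hT hzT)).2 hz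
  have hTA : ∀ z ∈ T, z ∈ A := fun z hz => (mem_sdiff.1 (hT hz)).1
  have h1 := common_card G B (S ∪ T) M (by
    intro z hz
    rcases mem_union.1 hz with h | h
    · exact hm z (hSA z h)
    · exact hm z (hTA z h))
  have h2 : (S ∪ T).card ≤ 2 * q + 1 := by
    have h := card_union_le S T
    clear hB h1
    omega
  have h3 : (S ∪ T).card * M ≤ (2 * q + 1) * M := Nat.mul_le_mul_right M h2
  have h4 : q ≤ (B.filter (fun y => ∀ a ∈ S ∪ T, G.Adj a y)).card := by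
    clear hAS hTc h2 hSc hAc hq hcon hK hLc hKq
    omega
  refine hF (emb_kstar F G c K P hP hP2 a₀ L T (B.filter (fun y => ∀ a ∈ S ∪ T, G.Adj a y))
    hLc.ge (fun z hz => (hLA z hz).2) (by rw [hq, hTc]) (hTS _ hS0)
    (fun z hz => hTS _ (hSL z hz)) (by rw [hq]; exact h4) ?_ ?_ ?_)
  · intro z hz
    exact (mem_filter.1 hz).2 _ (mem_union_left _ hS0)
  · intro l hl z hz
    exact (mem_filter.1 hz).2 _ (mem_union_left _ (hSL l hl))
  · intro t ht z hz
    exact (mem_filter.1 hz).2 _ (mem_union_right _ ht)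

theorem cov_sumW (G : SimpleGraph V) [DecidableRel G.Adj] (A S : Finset V) (κ : ℕ)
    (hS : ∀ x ∈ A, ∀ y ∈ A, x ∉ S → y ∉ S → ¬ G.Adj x y)
    (hi : ∀ a ∈ A, (A.filter (G.Adj a)).card ≤ κ) :
    ∑ a ∈ A, (A.filter (G.Adj a)).card ≤ (S.card + S.card * κ) * κ := by
  obtain ⟨S', hS'⟩ : ∃ S' : Finset V, S' = A.filter (· ∈ S) := ⟨_, rfl⟩
  obtain ⟨U, hU⟩ : ∃ U : Finset V, U = S' ∪ S'.biUnion (fun s => A.filter (G.Adj s)) := ⟨_, rfl⟩
  have hS'A : ∀ s ∈ S', s ∈ A := fun s hs => by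
    rw [hS'] at hs
    exact (mem_filter.1 hs).1
  have hS'c : S'.card ≤ S.card := by
    apply card_le_card
    intro s hs
    rw [hS'] at hs
    exact (mem_filter.1 hs).2
  have hUc : U.card ≤ S'.card + S'.card * κ := by
    rw [hU]
    exact (card_union_le _ _).trans (Nat.add_le_add_left
      (card_biUnion_le_card_mul _ _ κ (fun s hs => hi s (hS'A s hs))) _)
  have h1 : ∀ a ∈ A, (A.filter (G.Adj a)).card ≤ if a ∈ U then κ else 0 := by
    intro a ha
    by_cases haU : a ∈ U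
    · rw [if_pos haU]
      exact hi a ha
    · rw [if_neg haU, Nat.le_zero, card_eq_zero, filter_eq_empty_iff]
      intro y hy hay
      have haS : a ∉ S := by
        intro h
        apply haU
        rw [hU, mem_union, hS', mem_filter]
        exact Or.inl ⟨ha, h⟩
      have hyS : y ∉ S := by
        intro h
        apply haU
        rw [hU, mem_union, mem_biUnion]
        refine Or.inr ⟨y, ?_, mem_filter.2 ⟨ha, hay.symm⟩⟩
        rw [hS', mem_filter]
        exact ⟨hy, h⟩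
      exact hS a ha y hy haS hyS hay
  refine (sum_le_sum h1).trans ?_
  rw [← sum_filter, sum_const, smul_eq_mul]
  have h2 : (A.filter (· ∈ U)).card ≤ U.card := by
    apply card_le_card
    intro s hs
    exact (mem_filter.1 hs).2
  have h3 : S'.card * κ ≤ S.card * κ := Nat.mul_le_mul_right κ hS'c
  exact Nat.mul_le_mul_right κ (h2.trans (hUc.trans (Nat.add_le_add hS'c h3)))

end MP_0a9719_co
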