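import Pool.Agent.Lib.MP_0a9719_co_FR.LowW

/-! MP_0a9719_co, lower bounds with gadgets: the gadget for every `k ≥ 2`, and the one-sided and
the two-sided lower bound. -/

namespace MP_0a9719_co

theorem top_edges (α : Type*) [Finite α] :
    (⊤ : SimpleGraph α).edgeSet.ncard = (Nat.card α).choose 2 := by
  classical
  have : Fintype α := Fintype.ofFinite α
  rw [Set.ncard_eq_toFinset_card', Nat.card_eq_fintype_card]
  exact SimpleGraph.card_edgeFinset_top_eq_card_choose_two

/-- orientations of a complete graph with a given source -/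
theorem src_card {α : Type*} [Finite α] (u : α) :
    {O : α → α → Prop | IsOr ⊤ O ∧ ∀ w, w ≠ u → O u w}.ncard ≤
      2 ^ ((Nat.card α - 1).choose 2) := by
  classical
  have : Fintype α := Fintype.ofFinite α
  have h1 : {D : {w : α // w ≠ u} → {w : α // w ≠ u} → Prop | IsOr ⊤ D}.ncard =
      2 ^ ((Nat.card α - 1).choose 2) := by
    rw [ncard_or, top_edges]
    congr 2
    rw [Nat.card_eq_fintype_card, Nat.card_eq_fintype_card, Fintype.card_subtype_compl]
    simp
  rw [← h1]
  apply Set.ncard_le_ncard_of_injOn (fun O a b => O a.1 b.1)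
  · rintro O ⟨h2, _⟩
    intro a b
    have h4 := h2 a.1 b.1
    simp only [SimpleGraph.top_adj] at h4 ⊢
    refine ⟨?_, h4.2⟩
    rw [← h4.1]
    exact not_congr Subtype.ext_iff
  · rintro O ⟨h2, h3⟩ O' ⟨h2', h3'⟩ h
    funext a b
    by_cases ha : a = u
    · by_cases hb : b = u
      · subst ha
        subst hb
        have h5 : ¬ O b b := fun h6 => by
          have := (h2 b b).1.2 (Or.inl h6)
          simp at this
        have h5' : ¬ O' b b := fun h6 => by
          have := (h2' b b).1.2 (Or.inl h6)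
          simp at this
        exact propext ⟨fun h6 => absurd h6 h5, fun h6 => absurd h6 h5'⟩
      · subst ha
        exact propext ⟨fun _ => h3' b hb, fun _ => h3 b hb⟩
    · by_cases hb : b = u
      · subst hb
        have h5 : ¬ O a b := fun h6 => (h2 a b).2 ⟨h6, h3 a ha⟩
        have h5' : ¬ O' a b := fun h6 => (h2' a b).2 ⟨h6, h3' a ha⟩
        exact propext ⟨fun h6 => absurd h6 h5, fun h6 => absurd h6 h5'⟩
      · exact congrFun (congrFun h ⟨a, ha⟩) ⟨b, hb⟩

theorem gadK_card (k : ℕ) (hk : 3 ≤ k) :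
    2 ^ (k.choose 2 + (k - 1)) ≤ (goodOr (⊤ : SimpleGraph (Fin (k + 1))) k).ncard := by
  classical
  have hall : {O : Fin (k + 1) → Fin (k + 1) → Prop | IsOr ⊤ O}.ncard = 2 ^ (k.choose 2 + k) := by
    rw [ncard_or, top_edges, Nat.card_eq_fintype_card, Fintype.card_fin]
    congr 1
    rw [Nat.choose_succ_succ' k 1, Nat.choose_one_right, add_comm]
  have hsub : {O : Fin (k + 1) → Fin (k + 1) → Prop | IsOr ⊤ O} ⊆
      goodOr (⊤ : SimpleGraph (Fin (k + 1))) k ∪
        ⋃ u : Fin (k + 1), {O | IsOr ⊤ O ∧ ∀ w, w ≠ u → O u w} := by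
    intro O hO
    by_cases h : ∀ u, {w | O u w}.ncard < k
    · exact Or.inl ⟨hO, h⟩
    · push Not at h
      obtain ⟨u, hu⟩ := h
      refine Or.inr (Set.mem_iUnion.2 ⟨u, hO, ?_⟩)
      have h1 : {w | O u w} ⊆ ({u}ᶜ : Set (Fin (k + 1))) := by
        intro w hw h2
        rw [Set.mem_singleton_iff] at h2
        subst h2
        have := (hO w w).1.2 (Or.inl hw)
        simp at this
      have h2 : ({u}ᶜ : Set (Fin (k + 1))).ncard = k := by
        rw [Set.ncard_compl, Set.ncard_singleton, Nat.card_eq_fintype_card, Fintype.card_fin]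
        rfl
      have h3 : {w | O u w} = ({u}ᶜ : Set (Fin (k + 1))) :=
        Set.eq_of_subset_of_ncard_le h1 (by rw [h2]; exact hu) (Set.toFinite _)
      intro w hw
      have h4 : w ∈ ({u}ᶜ : Set (Fin (k + 1))) := hw
      rw [← h3] at h4
      exact h4
  have h1 := Set.ncard_le_ncard hsub (Set.toFinite _)
  have h2 := Set.ncard_union_le (goodOr (⊤ : SimpleGraph (Fin (k + 1))) k)
    (⋃ u : Fin (k + 1), {O | IsOr ⊤ O ∧ ∀ w, w ≠ u → O u w})
  have h3 : (⋃ u : Fin (k + 1),
      {O : Fin (k + 1) → Fin (k + 1) → Prop | IsOr ⊤ O ∧ ∀ w, w ≠ u → O u w}).ncard ≤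
      (k + 1) * 2 ^ (k.choose 2) := by
    refine (Set.ncard_iUnion_le_of_fintype _).trans ?_
    refine (Finset.sum_le_card_nsmul _ _ (2 ^ (k.choose 2)) ?_).trans ?_
    · intro u _
      have := src_card u
      rwa [Nat.card_eq_fintype_card, Fintype.card_fin] at this
    · simp
  rw [hall] at h1
  have h4 : ∀ k : ℕ, 3 ≤ k → k + 1 ≤ 2 ^ (k - 1) := by
    intro k hk
    induction k, hk using Nat.le_induction with
    | base => norm_num
    | succ n hn ih =>
      rw [show n + 1 - 1 = (n - 1) + 1 by omega, pow_succ]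
      omega
  have h5 : (k + 1) * 2 ^ (k.choose 2) ≤ 2 ^ (k - 1) * 2 ^ (k.choose 2) :=
    Nat.mul_le_mul_right _ (h4 k hk)
  have h6 : 2 ^ (k.choose 2 + k) = 2 * (2 ^ (k - 1) * 2 ^ (k.choose 2)) := by
    rw [← pow_add, ← pow_succ']
    congr 1
    omega
  have h7 : 2 ^ (k.choose 2 + (k - 1)) = 2 ^ (k - 1) * 2 ^ (k.choose 2) := by
    rw [← pow_add, add_comm]
  rw [h6] at h1
  rw [h7]
  omega

/-- a gadget for every `k ≥ 2` -/
theorem gadget (k : ℕ) (hk : 2 ≤ k) : ∃ s, 0 < s ∧ ∃ L : SimpleGraph (Fin s),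
    2 ^ ((k - 1) * s) < (goodOr L k).ncard ^ 2 := by
  rcases Nat.lt_or_ge k 3 with h | h
  · obtain rfl : k = 2 := by omega
    refine ⟨3, by norm_num, gadP, ?_⟩
    have h1 := gadP_card
    have h2 := Nat.pow_le_pow_left h1 2
    refine lt_of_lt_of_le ?_ h2
    norm_num
  · refine ⟨k + 1, Nat.succ_pos k, ⊤, ?_⟩
    have h1 := Nat.pow_le_pow_left (gadK_card k h) 2
    refine lt_of_lt_of_le ?_ h1
    rw [← pow_mul]
    apply Nat.pow_lt_pow_right (by norm_num)
    have h2 : k.choose 2 * 2 = k * (k - 1) := by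
      have := Nat.choose_two_right k
      rw [this]
      exact Nat.div_mul_cancel (Nat.even_mul_pred_self k).two_dvd
    have h3 : (k.choose 2 + (k - 1)) * 2 = k * (k - 1) + 2 * (k - 1) := by
      rw [add_mul, h2, mul_comm 2]
    rw [h3]
    obtain ⟨j, rfl⟩ : ∃ j, k = j + 3 := ⟨k - 3, by omega⟩
    simp only [show j + 3 - 1 = j + 2 by omega]
    nlinarith

/-- one-sided lower bound -/
theorem lowW1 {W : Type*} [Finite W] (F : SimpleGraph W) (A : W → W → Prop) (hA : IsOr F A)
    (k : ℕ) (hk : 1 ≤ k)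
    (h : ∀ J : Set W, (∀ a b, F.Adj a b → a ∈ J ∨ b ∈ J) →
      ∃ v ∈ J, k ≤ {u | u ∈ J ∧ A v u}.ncard)
    (s : ℕ) (L : SimpleGraph (Fin s)) (g : ℕ) :
    ∃ H : SimpleGraph ((Fin g × Fin s) ⊕ (Fin g × Fin s)),
      (goodOr L k).ncard ^ g * 2 ^ ((g * s) ^ 2) ≤ numFree A H := by
  classical
  refine ⟨hostQ g L ⊥, ?_⟩
  have hbot : goodOr (⊥ : SimpleGraph (Fin s)) k = {fun _ _ => False} := by
    ext O
    constructor
    · rintro ⟨h1, _⟩
      rw [Set.mem_singleton_iff]
      funext a b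
      exact propext ⟨fun h2 => (h1 a b).1.2 (Or.inl h2), fun h2 => h2.elim⟩
    · rintro rfl
      refine ⟨fun a b => ⟨⟨fun h2 => h2.elim, fun h2 => h2.elim id id⟩, fun h2 => h2.1⟩, ?_⟩
      intro u
      have h3 : {w : Fin s | (fun _ _ => False : Fin s → Fin s → Prop) u w} = ∅ := by
        ext w
        simp
      rw [h3, Set.ncard_empty]
      exact hk
  have h1 := low_gen A k L (⊥ : SimpleGraph (Fin s)) g (by
    intro g' o o' ho ho' f hf
    obtain ⟨v, hv, hvk⟩ := h {w | (f w).isLeft = true} (by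
      intro a b hab
      by_contra hcon
      simp only [Set.mem_ofPred_eq, not_or, Bool.not_eq_true, Sum.isLeft_eq_false] at hcon
      have hno : ∀ a b, A a b → (f a).isRight = true → (f b).isRight = true → False := by
        intro a b h2 h3 h4
        have h5 := hf a b h2
        rcases hfa : f a with x | x
        · rw [hfa] at h3; simp at h3
        · rcases hfb : f b with y | y
          · rw [hfb] at h4; simp at h4
          · rw [hfa, hfb] at h5
            obtain ⟨h6, h7⟩ := h5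
            exact ((ho' x.1).1 x.2 y.2).1.2 (Or.inl h7)
      rcases (hA a b).1.1 hab with h2 | h2
      · exact hno a b h2 hcon.1 hcon.2
      · exact hno b a h2 hcon.2 hcon.1)
    refine ⟨v, (Set.toFinite {u | u ∈ {w | (f w).isLeft = true} ∧ A v u}).toFinset, ?_, ?_⟩
    · rwa [← Set.ncard_eq_toFinset_card]
    · intro w hw
      rw [Set.Finite.mem_toFinset] at hw
      have h2 : (f w).isLeft = true := hw.1
      have h3 : (f v).isLeft = true := hv
      exact ⟨hw.2, h2.trans h3.symm⟩)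
  rw [hbot, Set.ncard_singleton, one_pow, mul_one, Nat.card_eq_fintype_card, Fintype.card_fin,
    ← pow_two] at h1
  exact h1

/-- two-sided lower bound -/
theorem lowW2 {W : Type*} [Finite W] (A : W → W → Prop) (k : ℕ)
    (h : ∀ J : Set W, ∃ v, k ≤ {u | (u ∈ J ↔ v ∈ J) ∧ A v u}.ncard)
    (s : ℕ) (L : SimpleGraph (Fin s)) (g : ℕ) :
    ∃ H : SimpleGraph ((Fin g × Fin s) ⊕ (Fin g × Fin s)),
      (goodOr L k).ncard ^ (2 * g) * 2 ^ ((g * s) ^ 2) ≤ numFree A H := by
  classical
  refine ⟨hostQ g L L, ?_⟩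
  have h1 := low_gen A k L L g (by
    intro g' o o' ho ho' f hf
    obtain ⟨v, hvk⟩ := h {w | (f w).isLeft = true}
    refine ⟨v, (Set.toFinite {u | (u ∈ {w | (f w).isLeft = true} ↔
      v ∈ {w | (f w).isLeft = true}) ∧ A v u}).toFinset, ?_, ?_⟩
    · rwa [← Set.ncard_eq_toFinset_card]
    · intro w hw
      rw [Set.Finite.mem_toFinset] at hw
      have h2 : (f w).isLeft = true ↔ (f v).isLeft = true := hw.1
      refine ⟨hw.2, ?_⟩
      cases h3 : (f w).isLeft <;> cases h4 : (f v).isLeft <;> simp_all)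
  rw [← pow_add, Nat.card_eq_fintype_card, Fintype.card_fin, ← pow_two] at h1
  rw [two_mul]
  exact h1

end MP_0a9719_co
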