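import Pool.Agent.Lib.MP_0a9719_co.Crit
import Pool.Agent.Lib.MP_0a9719_co_FR.BndW
import Pool.Agent.Lib.MP_0a9719_co_FR.LowX

/-! MP_0a9719_co, graphs which become bipartite by the deletion of `k` edges at one vertex: the
comparison of the two bounds. -/

namespace MP_0a9719_co

theorem pow_ge (a g : ℕ) : a ^ g * (a + g) ≤ a * (a + 1) ^ g := by
  induction g with
  | zero => simp
  | succ g ih =>
    have h1 : a ^ (g + 1) * (a + (g + 1)) = a * (a ^ g * (a + g)) + a ^ g * a := by ring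
    have h2 : a * (a + 1) ^ (g + 1) = a * (a * (a + 1) ^ g) + a * (a + 1) ^ g := by ring
    have h3 : a * (a ^ g * (a + g)) ≤ a * (a * (a + 1) ^ g) := Nat.mul_le_mul_left a ih
    have h4 : a ^ g * a ≤ a ^ g * (a + g) := Nat.mul_le_mul_left _ (Nat.le_add_right _ _)
    rw [h1, h2]
    exact Nat.add_le_add h3 (h4.trans ih)

theorem grow (a b C : ℕ) (ha : 0 < a) (hab : a < b) (g : ℕ) (hg : a * 2 ^ C ≤ g) :
    a ^ g * 2 ^ C < b ^ g := by
  have h1 := pow_ge a g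
  have h2 : (a + 1) ^ g ≤ b ^ g := Nat.pow_le_pow_left hab g
  have h3 : 0 < a ^ g := by positivity
  refine lt_of_mul_lt_mul_left (a := a) ?_ (Nat.zero_le _)
  calc a * (a ^ g * 2 ^ C) = a ^ g * (a * 2 ^ C) := by ring
    _ ≤ a ^ g * g := Nat.mul_le_mul_left _ hg
    _ < a ^ g * (a + g) := Nat.mul_lt_mul_of_pos_left (by omega) h3
    _ ≤ a * (a + 1) ^ g := h1
    _ ≤ a * b ^ g := Nat.mul_le_mul_left _ h2

/-- two-sided case -/
theorem main_two {W : Type*} [Finite W] (F : SimpleGraph W) (A : W → W → Prop) (hA : IsOr F A)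
    (k : ℕ) (hk : 2 ≤ k) (c : W) (K : Set W) (hKk : K.ncard ≤ k)
    (hbip : (F.deleteEdges {e | ∃ x ∈ K, e = s(c, x)}).Colorable 2)
    (h : ∀ J : Set W, ∃ v, k ≤ {u | (u ∈ J ↔ v ∈ J) ∧ A v u}.ncard) : PropertyP F := by
  classical
  have : Fintype W := Fintype.ofFinite W
  obtain ⟨κ, rfl⟩ : ∃ κ, k = κ + 1 := ⟨k - 1, by omega⟩
  obtain ⟨s, hs, L, hL⟩ := gadget (κ + 1) hk
  have hlow := lowW2 A (κ + 1) h s L
  rw [Nat.add_sub_cancel] at hL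
  generalize (goodOr L (κ + 1)).ncard = N at hL hlow
  obtain ⟨C, hC⟩ := edge_boundW2 F c K.toFinset κ (by omega)
    (by rwa [← Set.ncard_eq_toFinset_card']) (by simpa using hbip)
  refine criterion F A hA fun n₀ => ?_
  obtain ⟨g, hg⟩ : ∃ g, g = n₀ + 2 ^ (κ * s) * 2 ^ C := ⟨_, rfl⟩
  have hg1 : n₀ ≤ g := by
    rw [hg]
    exact Nat.le_add_right _ _
  have hg2 : 2 ^ (κ * s) * 2 ^ C ≤ g := by
    rw [hg]
    exact Nat.le_add_left _ _
  obtain ⟨H, hH⟩ := hlow g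
  refine ⟨g * s + g * s, ?_, (Fin g × Fin s) ⊕ (Fin g × Fin s), inferInstance, H, by simp,
    Or.inr fun H' hH' => ?_⟩
  · exact hg1.trans ((Nat.le_mul_of_pos_right g hs).trans (Nat.le_add_right _ _))
  have h5 := hC ((Fin g × Fin s) ⊕ (Fin g × Fin s)) H' hH'
  have h6 : Fintype.card ((Fin g × Fin s) ⊕ (Fin g × Fin s)) = g * s + g * s := by simp
  have h7 : ((g * s + g * s) ^ 2 + 2 * (κ * (g * s + g * s))) / 4 = (g * s) ^ 2 + κ * s * g := by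
    rw [show (g * s + g * s) ^ 2 + 2 * (κ * (g * s + g * s)) = 4 * ((g * s) ^ 2 + κ * s * g) by
      ring]
    exact Nat.mul_div_cancel_left _ (by norm_num)
  rw [h6, h7] at h5
  have h8 := grow (2 ^ (κ * s)) (N ^ 2) C (by positivity) hL g hg2
  calc 2 ^ H'.edgeSet.ncard ≤ 2 ^ ((g * s) ^ 2 + κ * s * g + C) :=
        Nat.pow_le_pow_right (by norm_num) h5
    _ = ((2 ^ (κ * s)) ^ g * 2 ^ C) * 2 ^ ((g * s) ^ 2) := by
        rw [pow_add, pow_add, pow_mul 2 (κ * s) g]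
        ring
    _ < (N ^ 2) ^ g * 2 ^ ((g * s) ^ 2) := Nat.mul_lt_mul_of_pos_right h8 (by positivity)
    _ = N ^ (2 * g) * 2 ^ ((g * s) ^ 2) := by rw [pow_mul]
    _ ≤ numFree A H := hH

/-- one-sided case -/
theorem main_one {W : Type*} [Finite W] (F : SimpleGraph W) (A : W → W → Prop) (hA : IsOr F A)
    (k : ℕ) (hk : 2 ≤ k) (c : W) (K : Set W) (hKk : K.ncard ≤ k)
    (hbip : (F.deleteEdges {e | ∃ x ∈ K, e = s(c, x)}).Colorable 2) (Q : Set W)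
    (hQ2 : ∀ x ∈ Q, ∀ y ∈ Q, ∀ z ∈ Q, F.Adj x y → F.Adj x z → y = z)
    (hQ3 : ∀ x ∉ Q, ∀ y ∉ Q, ∀ z ∉ Q, F.Adj x y → F.Adj x z → y = z)
    (h : ∀ J : Set W, (∀ a b, F.Adj a b → a ∈ J ∨ b ∈ J) →
      ∃ v ∈ J, k ≤ {u | u ∈ J ∧ A v u}.ncard) : PropertyP F := by
  classical
  have : Fintype W := Fintype.ofFinite W
  obtain ⟨κ, rfl⟩ : ∃ κ, k = κ + 1 := ⟨k - 1, by omega⟩
  obtain ⟨s, hs, L, hL⟩ := gadget (κ + 1) hk
  have hlow := lowW1 F A hA (κ + 1) (by omega) h s L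
  rw [Nat.add_sub_cancel] at hL
  generalize (goodOr L (κ + 1)).ncard = N at hL hlow
  obtain ⟨C, hC⟩ := edge_boundW1 F c K.toFinset κ (by omega)
    (by rwa [← Set.ncard_eq_toFinset_card']) (by simpa using hbip) Q hQ2 hQ3
  refine criterion F A hA fun n₀ => ?_
  obtain ⟨g, hg⟩ : ∃ g, g = n₀ + 2 ^ (κ * s) * 2 ^ C := ⟨_, rfl⟩
  have hg1 : n₀ ≤ g := by
    rw [hg]
    exact Nat.le_add_right _ _
  have hg2 : 2 ^ (κ * s) * 2 ^ C ≤ g := by
    rw [hg]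
    exact Nat.le_add_left _ _
  obtain ⟨H, hH⟩ := hlow (2 * g)
  refine ⟨2 * g * s + 2 * g * s, ?_, (Fin (2 * g) × Fin s) ⊕ (Fin (2 * g) × Fin s),
    inferInstance, H, by simp, Or.inr fun H' hH' => ?_⟩
  · refine hg1.trans (le_trans ?_ (Nat.le_add_right _ _))
    exact (Nat.le_mul_of_pos_left g (by norm_num)).trans (Nat.le_mul_of_pos_right _ hs)
  have h5 := hC ((Fin (2 * g) × Fin s) ⊕ (Fin (2 * g) × Fin s)) H' hH'
  have h6 : Fintype.card ((Fin (2 * g) × Fin s) ⊕ (Fin (2 * g) × Fin s)) =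
      2 * g * s + 2 * g * s := by simp
  have h7 : ((2 * g * s + 2 * g * s) ^ 2 + κ * (2 * g * s + 2 * g * s)) / 4 =
      (2 * g * s) ^ 2 + κ * s * g := by
    rw [show (2 * g * s + 2 * g * s) ^ 2 + κ * (2 * g * s + 2 * g * s) =
      4 * ((2 * g * s) ^ 2 + κ * s * g) by ring]
    exact Nat.mul_div_cancel_left _ (by norm_num)
  rw [h6, h7] at h5
  have h8 := grow (2 ^ (κ * s)) (N ^ 2) C (by positivity) hL g hg2
  calc 2 ^ H'.edgeSet.ncard ≤ 2 ^ ((2 * g * s) ^ 2 + κ * s * g + C) :=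
        Nat.pow_le_pow_right (by norm_num) h5
    _ = ((2 ^ (κ * s)) ^ g * 2 ^ C) * 2 ^ ((2 * g * s) ^ 2) := by
        rw [pow_add, pow_add, pow_mul 2 (κ * s) g]
        ring
    _ < (N ^ 2) ^ g * 2 ^ ((2 * g * s) ^ 2) := Nat.mul_lt_mul_of_pos_right h8 (by positivity)
    _ = N ^ (2 * g) * 2 ^ ((2 * g * s) ^ 2) := by rw [pow_mul]
    _ ≤ numFree A H := hH

end MP_0a9719_co
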