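import Pool.Agent.Lib.MP_0a9719_co.Defs

/-! MP_0a9719_co, lower bound for graphs `F` with a vertex `c` whose neighbourhood contains a path
`u v w` and two disjoint edges `p p'`, `r r'`.

Orient `F` so that `c` is a source and `v` is a source apart from `c`. Host: `K_{3k,3k}` with `k`
disjoint paths on three vertices inside the left class; the orientations in which the centre of
every path has at most one out-neighbour in its path contain no copy. There are
`3 ^ k * 2 ^ ((3 * k) ^ 2)` of them. -/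

namespace MP_0a9719_co

/-- the orientation of `F` in which `c` is a source, and `v` is a source apart from `c`. -/
def srcOrP {W : Type*} (F : SimpleGraph W) (c v : W) (a b : W) : Prop :=
  F.Adj a b ∧ (a = c ∨ (b ≠ c ∧ (a = v ∨ (b ≠ v ∧ WellOrderingRel a b))))

theorem srcOrP_total {W : Type*} (F : SimpleGraph W) (c v a b : W) (h : F.Adj a b) :
    srcOrP F c v a b ∨ srcOrP F c v b a := by
  by_cases ha : a = c
  · exact Or.inl ⟨h, Or.inl ha⟩
  by_cases hb : b = c
  · exact Or.inr ⟨h.symm, Or.inl hb⟩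
  by_cases ha' : a = v
  · exact Or.inl ⟨h, Or.inr ⟨hb, Or.inl ha'⟩⟩
  by_cases hb' : b = v
  · exact Or.inr ⟨h.symm, Or.inr ⟨ha, Or.inl hb'⟩⟩
  rcases trichotomous_of (WellOrderingRel (α := W)) a b with h1 | h1 | h1
  · exact Or.inl ⟨h, Or.inr ⟨hb, Or.inr ⟨hb', h1⟩⟩⟩
  · exact absurd h1 h.ne
  · exact Or.inr ⟨h.symm, Or.inr ⟨ha, Or.inr ⟨ha', h1⟩⟩⟩

theorem srcOrP_isOr {W : Type*} (F : SimpleGraph W) (c v : W) : IsOr F (srcOrP F c v) := by
  intro a b
  constructor
  · constructor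
    · exact srcOrP_total F c v a b
    · rintro (h | h)
      · exact h.1
      · exact h.1.symm
  · rintro ⟨⟨h1, h2⟩, ⟨_, h4⟩⟩
    have hne : a ≠ b := h1.ne
    rcases h2 with h2 | ⟨h2, h2'⟩
    · rcases h4 with h4 | ⟨h4, _⟩
      · exact hne (h2.trans h4.symm)
      · exact h4 h2
    · rcases h4 with h4 | ⟨_, h4'⟩
      · exact h2 h4
      · rcases h2' with h5 | ⟨h5, h5'⟩
        · rcases h4' with h6 | ⟨h6, _⟩
          · exact hne (h5.trans h6.symm)
          · exact h6 h5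
        · rcases h4' with h6 | ⟨_, h6'⟩
          · exact h5 h6
          · exact asymm_of (WellOrderingRel (α := W)) h5' h6'

/-- the host: `K_{3k,3k}` plus `k` disjoint paths `(i,0), (i,1), (i,2)` in the left class. -/
def hostPG (k : ℕ) : SimpleGraph ((Fin k × Fin 3) ⊕ (Fin k × Fin 3)) where
  Adj x y := match x, y with
    | Sum.inl x, Sum.inl y => x.1 = y.1 ∧ x.2 ≠ y.2 ∧ (x.2 = 1 ∨ y.2 = 1)
    | Sum.inl _, Sum.inr _ => True
    | Sum.inr _, Sum.inl _ => True
    | Sum.inr _, Sum.inr _ => False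
  symm := by
    constructor
    rintro (i | i) (j | j) h
    · exact ⟨h.1.symm, h.2.1.symm, h.2.2.symm⟩
    · trivial
    · trivial
    · exact h
  loopless := by
    constructor
    rintro (i | i) h
    · exact h.2.1 rfl
    · exact h

/-- the orientation of the host given by `g` on the cross edges and by `h` on the paths: the centre
`(i,1)` has no out-neighbour in its path except `(i, h i)` if `h i ≠ 1`. -/
def hostPD (k : ℕ) (g : (Fin k × Fin 3) → (Fin k × Fin 3) → Bool) (h : Fin k → Fin 3) :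
    ((Fin k × Fin 3) ⊕ (Fin k × Fin 3)) → ((Fin k × Fin 3) ⊕ (Fin k × Fin 3)) → Prop
  | Sum.inl x, Sum.inl y => x.1 = y.1 ∧ x.2 ≠ y.2 ∧
      ((x.2 = 1 ∧ y.2 = h x.1) ∨ (y.2 = 1 ∧ x.2 ≠ h x.1))
  | Sum.inl x, Sum.inr y => g x y = true
  | Sum.inr y, Sum.inl x => g x y = false
  | Sum.inr _, Sum.inr _ => False

theorem fin3_aux : ∀ a b t : Fin 3,
    ((a ≠ b ∧ (a = 1 ∨ b = 1)) ↔ ((a ≠ b ∧ ((a = 1 ∧ b = t) ∨ (b = 1 ∧ a ≠ t))) ∨
      (b ≠ a ∧ ((b = 1 ∧ a = t) ∨ (a = 1 ∧ b ≠ t))))) ∧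
    ¬ ((a ≠ b ∧ ((a = 1 ∧ b = t) ∨ (b = 1 ∧ a ≠ t))) ∧
      (b ≠ a ∧ ((b = 1 ∧ a = t) ∨ (a = 1 ∧ b ≠ t)))) := by
  decide

theorem fin3_inj : ∀ t t' : Fin 3,
    (∀ b : Fin 3, ((1 : Fin 3) ≠ b ∧ b = t) → b = t') →
    (∀ b : Fin 3, ((1 : Fin 3) ≠ b ∧ b = t') → b = t) → t = t' := by
  decide

theorem hostPD_isOr (k : ℕ) (g : (Fin k × Fin 3) → (Fin k × Fin 3) → Bool) (h : Fin k → Fin 3) :
    IsOr (hostPG k) (hostPD k g h) := by
  rintro (⟨i, a⟩ | x) (⟨j, b⟩ | y)
  · have key := fin3_aux a b (h i)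
    constructor
    · constructor
      · rintro ⟨h1, h2⟩
        simp only at h1 h2
        subst h1
        rcases key.1.mp h2 with h3 | h3
        · exact Or.inl ⟨rfl, h3⟩
        · exact Or.inr ⟨rfl, h3⟩
      · rintro (⟨h1, h2⟩ | ⟨h1, h2⟩)
        · simp only at h1 h2
          subst h1
          exact ⟨rfl, key.1.mpr (Or.inl h2)⟩
        · simp only at h1 h2
          subst h1
          exact ⟨rfl, key.1.mpr (Or.inr h2)⟩
    · rintro ⟨⟨h1, h2⟩, ⟨_, h3⟩⟩
      simp only at h1 h2 h3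
      subst h1
      exact key.2 ⟨h2, h3⟩
  · simp only [hostPG, hostPD]
    cases g (i, a) y <;> simp
  · simp only [hostPG, hostPD]
    cases g (j, b) x <;> simp
  · simp [hostPG, hostPD]

theorem hostPD_inj (k : ℕ) :
    Function.Injective (fun p : ((Fin k × Fin 3) → (Fin k × Fin 3) → Bool) × (Fin k → Fin 3) =>
      hostPD k p.1 p.2) := by
  rintro ⟨g, h⟩ ⟨g', h'⟩ heq
  have hg : g = g' := by
    funext x y
    have h1 := congrFun (congrFun heq (Sum.inl x)) (Sum.inr y)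
    simp only [hostPD, eq_iff_iff] at h1
    cases h2 : g x y <;> cases h3 : g' x y <;> simp_all
  have hh : h = h' := by
    funext i
    have h1 : ∀ b : Fin 3, hostPD k g h (Sum.inl (i, 1)) (Sum.inl (i, b)) =
        hostPD k g' h' (Sum.inl (i, 1)) (Sum.inl (i, b)) :=
      fun b => congrFun (congrFun heq (Sum.inl (i, 1))) (Sum.inl (i, b))
    apply fin3_inj
    · rintro b ⟨hb, hb'⟩
      rcases (iff_of_eq (h1 b)).mp ⟨rfl, hb, Or.inl ⟨rfl, hb'⟩⟩ with ⟨_, _, h2 | h2⟩
      · exact h2.2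
      · exact absurd h2.1.symm hb
    · rintro b ⟨hb, hb'⟩
      rcases (iff_of_eq (h1 b)).mpr ⟨rfl, hb, Or.inl ⟨rfl, hb'⟩⟩ with ⟨_, _, h2 | h2⟩
      · exact h2.2
      · exact absurd h2.1.symm hb
  rw [hg, hh]

/-- every vertex has at most one out-neighbour inside the left class. -/
theorem hostPD_out (k : ℕ) (g : (Fin k × Fin 3) → (Fin k × Fin 3) → Bool) (h : Fin k → Fin 3)
    (x y y' : Fin k × Fin 3) (h1 : hostPD k g h (Sum.inl x) (Sum.inl y))
    (h2 : hostPD k g h (Sum.inl x) (Sum.inl y')) : y = y' := by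
  obtain ⟨h3, h4, h5⟩ := h1
  obtain ⟨h3', h4', h5'⟩ := h2
  have h6 : y.1 = y'.1 := h3.symm.trans h3'
  have h7 : y.2 = y'.2 := by
    rcases h5 with h5 | h5 <;> rcases h5' with h5' | h5'
    · exact h5.2.trans h5'.2.symm
    · exact absurd (h5.1.trans h5'.1.symm) h4'
    · exact absurd (h5'.1.trans h5.1.symm) h4
    · exact h5.1.trans h5'.1.symm
  exact Prod.ext h6 h7

theorem hostPD_free {W : Type*} (F : SimpleGraph W) (c u v w p p' r r' : W)
    (hu : F.Adj c u) (hv : F.Adj c v) (hw : F.Adj c w) (hvu : F.Adj v u) (hvw : F.Adj v w)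
    (huw : u ≠ w) (hp : F.Adj c p) (hp' : F.Adj c p') (hpp : F.Adj p p')
    (hr : F.Adj c r) (hr' : F.Adj c r') (hrr : F.Adj r r')
    (h1 : p ≠ r) (h2 : p ≠ r') (h3 : p' ≠ r) (h4 : p' ≠ r')
    (k : ℕ) (g : (Fin k × Fin 3) → (Fin k × Fin 3) → Bool) (h : Fin k → Fin 3) :
    ¬ Contains (srcOrP F c v) (hostPD k g h) := by
  rintro ⟨f, hf, hA⟩
  have hAdj : ∀ a b, F.Adj a b → (hostPG k).Adj (f a) (f b) := by
    intro a b hab
    have hO := (hostPD_isOr k g h (f a) (f b)).1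
    rcases srcOrP_total F c v a b hab with h5 | h5
    · exact hO.mpr (Or.inl (hA a b h5))
    · exact hO.mpr (Or.inr (hA b a h5))
  rcases hc : f c with x | y
  · -- at most one neighbour of `c` is mapped to the left class
    have hone : ∀ a b, F.Adj c a → F.Adj c b → (f a).isLeft = true → (f b).isLeft = true →
        a = b := by
      intro a b ha hb hla hlb
      have h5 := hA c a ⟨ha, Or.inl rfl⟩
      have h6 := hA c b ⟨hb, Or.inl rfl⟩
      rw [hc] at h5 h6
      rcases hfa : f a with a' | a'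
      · rcases hfb : f b with b' | b'
        · rw [hfa] at h5
          rw [hfb] at h6
          have h7 := hostPD_out k g h x a' b' h5 h6
          exact hf (by rw [hfa, hfb, h7])
        · rw [hfb] at hlb; simp at hlb
      · rw [hfa] at hla; simp at hla
    have hedge : ∀ a b, F.Adj a b → (f a).isLeft = true ∨ (f b).isLeft = true := by
      intro a b hab
      have h5 := hAdj a b hab
      rcases hfa : f a with a' | a'
      · exact Or.inl rfl
      · rcases hfb : f b with b' | b'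
        · exact Or.inr rfl
        · rw [hfa, hfb] at h5
          exact absurd h5 (by simp [hostPG])
    rcases hedge p p' hpp with h5 | h5 <;> rcases hedge r r' hrr with h6 | h6
    · exact h1 (hone p r hp hr h5 h6)
    · exact h2 (hone p r' hp hr' h5 h6)
    · exact h3 (hone p' r hp' hr h5 h6)
    · exact h4 (hone p' r' hp' hr' h5 h6)
  · -- all neighbours of `c` are mapped to the left class
    have hleft : ∀ a, F.Adj c a → ∃ a', f a = Sum.inl a' := by
      intro a ha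
      have h5 := hAdj c a ha
      rcases hfa : f a with a' | a'
      · exact ⟨a', rfl⟩
      · rw [hc, hfa] at h5
        exact absurd h5 (by simp [hostPG])
    obtain ⟨u', hu'⟩ := hleft u hu
    obtain ⟨v', hv'⟩ := hleft v hv
    obtain ⟨w', hw'⟩ := hleft w hw
    have h5 := hA v u ⟨hvu, Or.inr ⟨hu.ne', Or.inl rfl⟩⟩
    have h6 := hA v w ⟨hvw, Or.inr ⟨hw.ne', Or.inl rfl⟩⟩
    rw [hv', hu'] at h5
    rw [hv', hw'] at h6
    have h7 := hostPD_out k g h v' u' w' h5 h6
    exact huw (hf (by rw [hu', hw', h7]))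

/-- a graph with a vertex `c` whose neighbourhood contains a path `u v w` and two disjoint edges:
many free orientations. -/
theorem lowP {W : Type*} (F : SimpleGraph W) (c u v w p p' r r' : W)
    (hu : F.Adj c u) (hv : F.Adj c v) (hw : F.Adj c w) (hvu : F.Adj v u) (hvw : F.Adj v w)
    (huw : u ≠ w) (hp : F.Adj c p) (hp' : F.Adj c p') (hpp : F.Adj p p')
    (hr : F.Adj c r) (hr' : F.Adj c r') (hrr : F.Adj r r')
    (h1 : p ≠ r) (h2 : p ≠ r') (h3 : p' ≠ r) (h4 : p' ≠ r') :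
    ∃ A : W → W → Prop, IsOr F A ∧ ∀ k : ℕ, ∃ H : SimpleGraph ((Fin k × Fin 3) ⊕ (Fin k × Fin 3)),
      3 ^ k * 2 ^ ((3 * k) ^ 2) ≤ numFree A H := by
  refine ⟨srcOrP F c v, srcOrP_isOr F c v, fun k => ⟨hostPG k, ?_⟩⟩
  have hsub : (fun q : ((Fin k × Fin 3) → (Fin k × Fin 3) → Bool) × (Fin k → Fin 3) =>
      hostPD k q.1 q.2) '' Set.univ ⊆
      {D | IsOr (hostPG k) D ∧ ¬ Contains (srcOrP F c v) D} := by
    rintro D ⟨q, _, rfl⟩
    exact ⟨hostPD_isOr k q.1 q.2, hostPD_free F c u v w p p' r r' hu hv hw hvu hvw huw hp hp' hpp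
      hr hr' hrr h1 h2 h3 h4 k q.1 q.2⟩
  have hcard : ((fun q : ((Fin k × Fin 3) → (Fin k × Fin 3) → Bool) × (Fin k → Fin 3) =>
      hostPD k q.1 q.2) '' Set.univ).ncard = 3 ^ k * 2 ^ ((3 * k) ^ 2) := by
    rw [Set.ncard_image_of_injective _ (hostPD_inj k), Set.ncard_univ, Nat.card_eq_fintype_card]
    simp only [Fintype.card_prod, Fintype.card_fun, Fintype.card_fin, Fintype.card_bool]
    rw [mul_comm, ← pow_mul, pow_two, mul_comm k 3]
  rw [← hcard]
  exact Set.ncard_le_ncard hsub (Set.toFinite _)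

end MP_0a9719_co
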