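import Pool.Agent.Lib.MP_0a9719_co_FR.FinW
import Pool.Agent.Lib.MP_0a9719_co_FR.LowP

/-! MP_0a9719_co: graphs like a vertex joined to all vertices of a path with four vertices. -/

namespace MP_0a9719_co

theorem two_le_ncard {W : Type*} [Finite W] {S : Set W} {a b : W} (ha : a ∈ S) (hb : b ∈ S)
    (hab : a ≠ b) : 2 ≤ S.ncard := by
  rw [← Set.ncard_pair hab]
  apply Set.ncard_le_ncard _ (Set.toFinite S)
  intro z hz
  rcases hz with rfl | hz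
  · exact ha
  · rw [Set.mem_singleton_iff] at hz
    rw [hz]
    exact hb

theorem gem_type {W : Type*} [Finite W] (F : SimpleGraph W) (c : W) (K : Set W)
    (hK : K.ncard ≤ 2) (hbip : (F.deleteEdges {e | ∃ x ∈ K, e = s(c, x)}).Colorable 2)
    (Q : Set W) (hQ2 : ∀ x ∈ Q, ∀ y ∈ Q, ∀ z ∈ Q, F.Adj x y → F.Adj x z → y = z)
    (hQ3 : ∀ x ∉ Q, ∀ y ∉ Q, ∀ z ∉ Q, F.Adj x y → F.Adj x z → y = z)
    (hpath : ∃ u v w, F.Adj c u ∧ F.Adj c v ∧ F.Adj c w ∧ F.Adj v u ∧ F.Adj v w ∧ u ≠ w)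
    (hedges : ∃ p p' r r', F.Adj c p ∧ F.Adj c p' ∧ F.Adj p p' ∧ F.Adj c r ∧ F.Adj c r' ∧
      F.Adj r r' ∧ p ≠ r ∧ p ≠ r' ∧ p' ≠ r ∧ p' ≠ r') : PropertyP F := by
  obtain ⟨u, v, w, hu, hv, hw, hvu, hvw, huw⟩ := hpath
  obtain ⟨p, p', r, r', hp, hp', hpp, hr, hr', hrr, h1, h2, h3, h4⟩ := hedges
  refine main_one F (srcOrP F c v) (srcOrP_isOr F c v) 2 le_rfl c K hK hbip Q hQ2 hQ3 ?_
  intro J hJ
  by_cases hc : c ∈ J
  · refine ⟨c, hc, ?_⟩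
    have key : ∀ a, a ∈ J → F.Adj c a → a ∈ {u | u ∈ J ∧ srcOrP F c v c u} :=
      fun a ha hca => ⟨ha, hca, Or.inl rfl⟩
    rcases hJ p p' hpp with hpJ | hpJ <;> rcases hJ r r' hrr with hrJ | hrJ
    · exact two_le_ncard (key p hpJ hp) (key r hrJ hr) h1
    · exact two_le_ncard (key p hpJ hp) (key r' hrJ hr') h2
    · exact two_le_ncard (key p' hpJ hp') (key r hrJ hr) h3
    · exact two_le_ncard (key p' hpJ hp') (key r' hrJ hr') h4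
  · refine ⟨v, (hJ c v hv).resolve_left hc, ?_⟩
    have key : ∀ a, F.Adj c a → F.Adj v a → a ∈ {u | u ∈ J ∧ srcOrP F c v v u} :=
      fun a hca hva => ⟨(hJ c a hca).resolve_left hc, hva, Or.inr ⟨hca.ne', Or.inl rfl⟩⟩
    exact two_le_ncard (key u hu hvu) (key w hw hvw) huw

end MP_0a9719_co
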