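import Pool.Agent.Lib.MP_0a9719_co.Defs

/-! MP_0a9719_co, lower bound for graphs without a critical edge.

Let `S` be the set of all vertices `c` of `F` such that `F - c` is bipartite. If `S` is independent
and no single edge of `F` meets all odd cycles, orient `F` so that every vertex of `S` is a source.
Host: `K_{m,m}` with a star centred at `inl 0` inside the left class; the orientations in which at most
one star edge leaves the centre contain no copy. There are at least `m * 2 ^ (m ^ 2)` of them. -/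

namespace MP_0a9719_co


/-- the orientation of `F` in which all vertices of `S` are sources. -/
def srcOr {W : Type*} (F : SimpleGraph W) (S : Set W) (u v : W) : Prop :=
  F.Adj u v ∧ (u ∈ S ∨ (v ∉ S ∧ WellOrderingRel u v))

theorem srcOr_isOr {W : Type*} (F : SimpleGraph W) (S : Set W)
    (hS : ∀ c ∈ S, ∀ d ∈ S, ¬ F.Adj c d) : IsOr F (srcOr F S) := by
  intro u v
  constructor
  · constructor
    · intro h
      by_cases hu : u ∈ S
      · exact Or.inl ⟨h, Or.inl hu⟩
      · by_cases hv : v ∈ S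
        · exact Or.inr ⟨h.symm, Or.inl hv⟩
        · rcases trichotomous_of (WellOrderingRel (α := W)) u v with h1 | h1 | h1
          · exact Or.inl ⟨h, Or.inr ⟨hv, h1⟩⟩
          · exact absurd h1 h.ne
          · exact Or.inr ⟨h.symm, Or.inr ⟨hu, h1⟩⟩
    · rintro (h | h)
      · exact h.1
      · exact h.1.symm
  · rintro ⟨⟨h1, h2⟩, ⟨_, h4⟩⟩
    rcases h2 with h2 | ⟨h2, h2'⟩
    · rcases h4 with h4 | ⟨h4, _⟩
      · exact hS u h2 v h4 h1
      · exact h4 h2
    · rcases h4 with h4 | ⟨_, h4'⟩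
      · exact h2 h4
      · exact asymm_of (WellOrderingRel (α := W)) h2' h4'

/-- the host: `K_{m,m}` plus the star at `inl 0` in the left class. -/
def hostG (m : ℕ) [NeZero m] : SimpleGraph (Fin m ⊕ Fin m) where
  Adj x y := match x, y with
    | Sum.inl i, Sum.inl i' => i ≠ i' ∧ (i = 0 ∨ i' = 0)
    | Sum.inl _, Sum.inr _ => True
    | Sum.inr _, Sum.inl _ => True
    | Sum.inr _, Sum.inr _ => False
  symm := by
    constructor
    rintro (i | i) (j | j) h
    · exact ⟨h.1.symm, h.2.symm⟩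
    · trivial
    · trivial
    · exact h
  loopless := by
    constructor
    rintro (i | i) h
    · exact h.1 rfl
    · exact h

/-- the orientation of the host given by `g` on the cross edges; only the star edge to `inl j`
leaves the centre. -/
def hostD (m : ℕ) [NeZero m] (g : Fin m → Fin m → Bool) (j : Fin m) :
    (Fin m ⊕ Fin m) → (Fin m ⊕ Fin m) → Prop
  | Sum.inl i, Sum.inl i' => (i = 0 ∧ i' = j ∧ j ≠ 0) ∨ (i' = 0 ∧ i ≠ 0 ∧ i ≠ j)
  | Sum.inl i, Sum.inr k => g i k = true
  | Sum.inr k, Sum.inl i => g i k = false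
  | Sum.inr _, Sum.inr _ => False

theorem hostD_isOr (m : ℕ) [NeZero m] (g : Fin m → Fin m → Bool) (j : Fin m) :
    IsOr (hostG m) (hostD m g j) := by
  rintro (i | i) (k | k)
  · simp only [hostG, hostD]
    constructor
    · constructor
      · rintro ⟨h1, h2 | h2⟩
        · subst h2
          by_cases hk : k = j
          · left; left; exact ⟨rfl, hk, fun h => h1 (by rw [hk, h])⟩
          · right; right; exact ⟨rfl, fun h => h1 h.symm, hk⟩
        · subst h2
          by_cases hk : i = j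
          · right; left; exact ⟨rfl, hk, fun h => h1 (by rw [hk, h])⟩
          · left; right; exact ⟨rfl, h1, hk⟩
      · rintro ((⟨h1, h2, h3⟩ | ⟨h1, h2, h3⟩) | (⟨h1, h2, h3⟩ | ⟨h1, h2, h3⟩))
        · exact ⟨fun h => h3 (by rw [← h2, ← h, h1]), Or.inl h1⟩
        · exact ⟨fun h => h2 (by rw [h, h1]), Or.inr h1⟩
        · exact ⟨fun h => h3 (by rw [← h2, h, h1]), Or.inr h1⟩
        · exact ⟨fun h => h2 (by rw [← h, h1]), Or.inl h1⟩
    · rintro ⟨(⟨h1, h2, h3⟩ | ⟨h1, h2, h3⟩), (⟨h4, h5, h6⟩ | ⟨h4, h5, h6⟩)⟩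
      · exact h3 (by rw [← h2, h4])
      · exact h6 h2
      · exact h3 h5
      · exact h2 h4
  · simp only [hostG, hostD]
    cases g i k <;> simp
  · simp only [hostG, hostD]
    cases g k i <;> simp
  · simp [hostG, hostD]

theorem hostD_inj (m : ℕ) [NeZero m] :
    Function.Injective (fun p : (Fin m → Fin m → Bool) × Fin m => hostD m p.1 p.2) := by
  rintro ⟨g, j⟩ ⟨g', j'⟩ h
  have hg : g = g' := by
    funext i k
    have h1 := congrFun (congrFun h (Sum.inl i)) (Sum.inr k)
    simp only [hostD, eq_iff_iff] at h1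
    cases h2 : g i k <;> cases h3 : g' i k <;> simp_all
  have hj : j = j' := by
    by_cases hj0 : j = 0
    · by_contra hne
      have hj' : j' ≠ 0 := fun h0 => hne (by rw [hj0, h0])
      have h1 : hostD m g j (Sum.inl 0) (Sum.inl j') = hostD m g' j' (Sum.inl 0) (Sum.inl j') :=
        congrFun (congrFun h (Sum.inl 0)) (Sum.inl j')
      have h2 : ((0 : Fin m) = 0 ∧ j' = j ∧ j ≠ 0) ∨ (j' = 0 ∧ (0 : Fin m) ≠ 0 ∧ 0 ≠ j) :=
        (iff_of_eq h1).mpr (Or.inl ⟨rfl, rfl, hj'⟩)
      rcases h2 with ⟨_, _, h3⟩ | ⟨_, h3, _⟩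
      · exact h3 hj0
      · exact h3 rfl
    · have h1 : hostD m g j (Sum.inl 0) (Sum.inl j) = hostD m g' j' (Sum.inl 0) (Sum.inl j) :=
        congrFun (congrFun h (Sum.inl 0)) (Sum.inl j)
      have h2 : ((0 : Fin m) = 0 ∧ j = j' ∧ j' ≠ 0) ∨ (j = 0 ∧ (0 : Fin m) ≠ 0 ∧ 0 ≠ j') :=
        (iff_of_eq h1).mp (Or.inl ⟨rfl, rfl, hj0⟩)
      rcases h2 with ⟨_, h3, _⟩ | ⟨_, h3, _⟩
      · exact h3
      · exact absurd rfl h3
  rw [hg, hj]

/-- an orientation of the host with at most one star edge leaving the centre is free. -/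
theorem hostD_free {W : Type*} [Nonempty W] (F : SimpleGraph W)
    (h2 : ∀ e : Sym2 W, ¬ (F.deleteEdges {e}).Colorable 2)
    (m : ℕ) [NeZero m] (g : Fin m → Fin m → Bool) (j : Fin m) :
    ¬ Contains (srcOr F {c | (F.induce {c}ᶜ).Colorable 2}) (hostD m g j) := by
  set S : Set W := {c | (F.induce {c}ᶜ).Colorable 2} with hSdef
  rintro ⟨f, hf, hA⟩
  have hAdj : ∀ u v, F.Adj u v → u ∈ S ∨ v ∈ S ∨ True → (hostG m).Adj (f u) (f v) := by
    intro u v huv _
    have hor : srcOr F S u v ∨ srcOr F S v u := by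
      by_cases hu : u ∈ S
      · exact Or.inl ⟨huv, Or.inl hu⟩
      · by_cases hv : v ∈ S
        · exact Or.inr ⟨huv.symm, Or.inl hv⟩
        · rcases trichotomous_of (WellOrderingRel (α := W)) u v with h1 | h1 | h1
          · exact Or.inl ⟨huv, Or.inr ⟨hv, h1⟩⟩
          · exact absurd h1 huv.ne
          · exact Or.inr ⟨huv.symm, Or.inr ⟨hu, h1⟩⟩
    have hO := (hostD_isOr m g j (f u) (f v)).1
    rcases hor with h | h
    · exact hO.mpr (Or.inl (hA u v h))
    · exact hO.mpr (Or.inr (hA v u h))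
  -- a monochromatic edge contains the centre
  have hmono : ∀ u v, F.Adj u v → (f u).isLeft = (f v).isLeft →
      (f u = Sum.inl 0 ∧ (f v).isLeft = true) ∨ (f v = Sum.inl 0 ∧ (f u).isLeft = true) := by
    intro u v huv heq
    have hH := hAdj u v huv (Or.inr (Or.inr trivial))
    rcases hu : f u with i | i <;> rcases hv : f v with k | k <;> rw [hu, hv] at hH heq
    · rcases hH.2 with h | h
      · left; exact ⟨by rw [h], rfl⟩
      · right; exact ⟨by rw [h], rfl⟩
    · simp at heq
    · simp at heq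
    · exact absurd hH (by simp [hostG])
  -- colourings from `isLeft`
  have hcol : ∀ e : Sym2 W, (∀ u v, F.Adj u v → (f u).isLeft = (f v).isLeft → s(u, v) = e) →
      (F.deleteEdges {e}).Colorable 2 := by
    intro e he
    refine ⟨SimpleGraph.Coloring.mk (fun w => if (f w).isLeft then (0 : Fin 2) else 1) ?_⟩
    intro u v huv
    rw [SimpleGraph.deleteEdges_adj] at huv
    intro hc
    have h3 : (f u).isLeft = (f v).isLeft := by
      rcases h4 : (f u).isLeft <;> rcases h5 : (f v).isLeft <;> simp [h4, h5] at hc ⊢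
    exact huv.2 (he u v huv.1 h3)
  by_cases hex : ∃ c, f c = Sum.inl 0
  · obtain ⟨c, hc⟩ := hex
    have hcS : c ∈ S := by
      refine ⟨SimpleGraph.Coloring.mk
        (fun w : ({c}ᶜ : Set W) => if (f w.1).isLeft then (0 : Fin 2) else 1) ?_⟩
      rintro ⟨u, hu⟩ ⟨v, hv⟩ huv hcc
      have huv' : F.Adj u v := huv
      have h3 : (f u).isLeft = (f v).isLeft := by
        rcases h4 : (f u).isLeft <;> rcases h5 : (f v).isLeft <;> simp [h4, h5] at hcc ⊢
      rcases hmono u v huv' h3 with ⟨h4, _⟩ | ⟨h4, _⟩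
      · exact hu (hf (h4.trans hc.symm))
      · exact hv (hf (h4.trans hc.symm))
    have hout : ∀ v, F.Adj c v → (f v).isLeft = true → f v = Sum.inl j := by
      intro v hcv hl
      have h3 := hA c v ⟨hcv, Or.inl hcS⟩
      rcases hv : f v with k | k
      · rw [hc, hv] at h3
        simp only [hostD] at h3
        rcases h3 with ⟨_, h4, _⟩ | ⟨_, h4, _⟩
        · rw [h4]
        · exact absurd rfl h4
      · rw [hv] at hl; simp at hl
    by_cases hv0 : ∃ v0, f v0 = Sum.inl j
    · obtain ⟨v0, hv0⟩ := hv0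
      apply h2 s(c, v0)
      apply hcol
      intro u v huv heq
      rcases hmono u v huv heq with ⟨h4, h5⟩ | ⟨h4, h5⟩
      · have hu : u = c := hf (h4.trans hc.symm)
        subst hu
        have hv : v = v0 := hf ((hout v huv h5).trans hv0.symm)
        rw [hv]
      · have hv : v = c := hf (h4.trans hc.symm)
        subst hv
        have hu : u = v0 := hf ((hout u huv.symm h5).trans hv0.symm)
        rw [hu, Sym2.eq_swap]
    · apply h2 s(c, c)
      apply hcol
      intro u v huv heq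
      exfalso
      rcases hmono u v huv heq with ⟨h4, h5⟩ | ⟨h4, h5⟩
      · have hu : u = c := hf (h4.trans hc.symm)
        subst hu
        exact hv0 ⟨v, hout v huv h5⟩
      · have hv : v = c := hf (h4.trans hc.symm)
        subst hv
        exact hv0 ⟨u, hout u huv.symm h5⟩
  · obtain ⟨w⟩ := (inferInstance : Nonempty W)
    apply h2 s(w, w)
    apply hcol
    intro u v huv heq
    exfalso
    rcases hmono u v huv heq with ⟨h4, _⟩ | ⟨h4, _⟩
    · exact hex ⟨u, h4⟩
    · exact hex ⟨v, h4⟩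

/-- a graph without critical edge whose centres are independent: many free orientations. -/
theorem low {W : Type*} [Nonempty W] (F : SimpleGraph W)
    (h2 : ∀ e : Sym2 W, ¬ (F.deleteEdges {e}).Colorable 2)
    (hS : ∀ c d, (F.induce {c}ᶜ).Colorable 2 → (F.induce {d}ᶜ).Colorable 2 → ¬ F.Adj c d) :
    ∃ A : W → W → Prop, IsOr F A ∧ ∀ m : ℕ, 0 < m → ∃ H : SimpleGraph (Fin m ⊕ Fin m),
      m * 2 ^ (m ^ 2) ≤ numFree A H := by
  refine ⟨srcOr F {c | (F.induce {c}ᶜ).Colorable 2},
    srcOr_isOr F _ (fun c hc d hd => hS c d hc hd), ?_⟩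
  intro m hm
  have : NeZero m := ⟨hm.ne'⟩
  refine ⟨hostG m, ?_⟩
  have hsub : (fun p : (Fin m → Fin m → Bool) × Fin m => hostD m p.1 p.2) '' Set.univ ⊆
      {D | IsOr (hostG m) D ∧ ¬ Contains (srcOr F {c | (F.induce {c}ᶜ).Colorable 2}) D} := by
    rintro D ⟨p, _, rfl⟩
    exact ⟨hostD_isOr m p.1 p.2, hostD_free F h2 m p.1 p.2⟩
  have hcard : ((fun p : (Fin m → Fin m → Bool) × Fin m => hostD m p.1 p.2) ''
      Set.univ).ncard = m * 2 ^ (m ^ 2) := by
    rw [Set.ncard_image_of_injective _ (hostD_inj m), Set.ncard_univ, Nat.card_eq_fintype_card]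
    simp only [Fintype.card_prod, Fintype.card_fun, Fintype.card_fin, Fintype.card_bool]
    rw [mul_comm, ← pow_mul, pow_two]
  rw [← hcard]
  exact Set.ncard_le_ncard hsub (Set.toFinite _)

end MP_0a9719_co
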