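import Pool.Agent.Lib.MP_0a9719_co.Cnt

/-! MP_0a9719_co, lower bounds with gadgets: host `K_{m,m}` with `l` disjoint copies of a graph `Q`
in both classes (or in one class); the orientations in which all out-degrees inside the classes
are below `k`. -/

namespace MP_0a9719_co

/-- the host: complete bipartite, plus copies of `Q` in the left class and of `R` in the right
class. -/
def hostQ {U U' : Type*} (l : ℕ) (Q : SimpleGraph U) (R : SimpleGraph U') :
    SimpleGraph ((Fin l × U) ⊕ (Fin l × U')) where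
  Adj x y := match x, y with
    | Sum.inl x, Sum.inl y => x.1 = y.1 ∧ Q.Adj x.2 y.2
    | Sum.inl _, Sum.inr _ => True
    | Sum.inr _, Sum.inl _ => True
    | Sum.inr x, Sum.inr y => x.1 = y.1 ∧ R.Adj x.2 y.2
  symm := by
    constructor
    rintro (i | i) (j | j) h
    · exact ⟨h.1.symm, h.2.symm⟩
    · trivial
    · trivial
    · exact ⟨h.1.symm, h.2.symm⟩
  loopless := by
    constructor
    rintro (i | i) h
    · exact Q.loopless.irrefl _ h.2
    · exact R.loopless.irrefl _ h.2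

/-- the orientation of the host given by `g` on the cross edges and `o`, `o'` on the gadgets. -/
def hostQD {U U' : Type*} (l : ℕ) (g : (Fin l × U) → (Fin l × U') → Bool)
    (o : Fin l → U → U → Prop) (o' : Fin l → U' → U' → Prop) :
    ((Fin l × U) ⊕ (Fin l × U')) → ((Fin l × U) ⊕ (Fin l × U')) → Prop
  | Sum.inl x, Sum.inl y => x.1 = y.1 ∧ o x.1 x.2 y.2
  | Sum.inl x, Sum.inr y => g x y = true
  | Sum.inr y, Sum.inl x => g x y = false
  | Sum.inr x, Sum.inr y => x.1 = y.1 ∧ o' x.1 x.2 y.2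

theorem hostQD_isOr {U U' : Type*} (l : ℕ) (Q : SimpleGraph U) (R : SimpleGraph U')
    (g : (Fin l × U) → (Fin l × U') → Bool)
    (o : Fin l → U → U → Prop) (o' : Fin l → U' → U' → Prop)
    (ho : ∀ i, IsOr Q (o i)) (ho' : ∀ i, IsOr R (o' i)) :
    IsOr (hostQ l Q R) (hostQD l g o o') := by
  rintro (⟨i, a⟩ | ⟨i, a⟩) (⟨j, b⟩ | ⟨j, b⟩)
  · constructor
    · constructor
      · rintro ⟨h1, h2⟩
        simp only at h1 h2
        subst h1
        rcases (ho i a b).1.mp h2 with h3 | h3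
        · exact Or.inl ⟨rfl, h3⟩
        · exact Or.inr ⟨rfl, h3⟩
      · rintro (⟨h1, h2⟩ | ⟨h1, h2⟩)
        · simp only at h1 h2
          subst h1
          exact ⟨rfl, (ho i a b).1.mpr (Or.inl h2)⟩
        · simp only at h1 h2
          subst h1
          exact ⟨rfl, (ho j a b).1.mpr (Or.inr h2)⟩
    · rintro ⟨⟨h1, h2⟩, ⟨_, h3⟩⟩
      simp only at h1 h2 h3
      subst h1
      exact (ho i a b).2 ⟨h2, h3⟩
  · simp only [hostQ, hostQD]
    cases g (i, a) (j, b) <;> simp
  · simp only [hostQ, hostQD]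
    cases g (j, b) (i, a) <;> simp
  · constructor
    · constructor
      · rintro ⟨h1, h2⟩
        simp only at h1 h2
        subst h1
        rcases (ho' i a b).1.mp h2 with h3 | h3
        · exact Or.inl ⟨rfl, h3⟩
        · exact Or.inr ⟨rfl, h3⟩
      · rintro (⟨h1, h2⟩ | ⟨h1, h2⟩)
        · simp only at h1 h2
          subst h1
          exact ⟨rfl, (ho' i a b).1.mpr (Or.inl h2)⟩
        · simp only at h1 h2
          subst h1
          exact ⟨rfl, (ho' j a b).1.mpr (Or.inr h2)⟩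
    · rintro ⟨⟨h1, h2⟩, ⟨_, h3⟩⟩
      simp only at h1 h2 h3
      subst h1
      exact (ho' i a b).2 ⟨h2, h3⟩

theorem hostQD_inj {U U' : Type*} (l : ℕ) (g g' : (Fin l × U) → (Fin l × U') → Bool)
    (o p : Fin l → U → U → Prop) (o' p' : Fin l → U' → U' → Prop)
    (h : hostQD l g o o' = hostQD l g' p p') : g = g' ∧ o = p ∧ o' = p' := by
  refine ⟨?_, ?_, ?_⟩
  · funext x y
    have h1 := congrFun (congrFun h (Sum.inl x)) (Sum.inr y)
    simp only [hostQD, eq_iff_iff] at h1
    cases h2 : g x y <;> cases h3 : g' x y <;> simp_all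
  · funext i a b
    have h1 := congrFun (congrFun h (Sum.inl (i, a))) (Sum.inl (i, b))
    simpa [hostQD] using h1
  · funext i a b
    have h1 := congrFun (congrFun h (Sum.inr (i, a))) (Sum.inr (i, b))
    simpa [hostQD] using h1

/-- if every 2-colouring of `F` (`p`: a pair of allowed conditions) has a vertex with `k`
out-neighbours of its own colour, then no copy exists. -/
theorem hostQD_free {W U U' : Type*} [Finite U] [Finite U'] (A : W → W → Prop) (k : ℕ)
    (l : ℕ) (g : (Fin l × U) → (Fin l × U') → Bool)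
    (o : Fin l → U → U → Prop) (o' : Fin l → U' → U' → Prop)
    (ho : ∀ i u, {w | o i u w}.ncard < k) (ho' : ∀ i u, {w | o' i u w}.ncard < k)
    (hcol : ∀ f : W → (Fin l × U) ⊕ (Fin l × U'), (∀ u v, A u v → hostQD l g o o' (f u) (f v)) →
      ∃ v, ∃ S : Finset W, k ≤ S.card ∧ ∀ w ∈ S, A v w ∧ (f w).isLeft = (f v).isLeft) :
    ¬ Contains A (hostQD l g o o') := by
  classical
  rintro ⟨f, hf, hA⟩
  obtain ⟨v, S, hS, hSv⟩ := hcol f hA
  rcases hv : f v with x | x
  · have h1 : ∀ w ∈ S, ∃ b, f w = Sum.inl (x.1, b) ∧ o x.1 x.2 b := by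
      intro w hw
      obtain ⟨h2, h3⟩ := hSv w hw
      have h4 := hA v w h2
      rcases hw' : f w with y | y
      · rw [hv, hw'] at h4
        obtain ⟨h5, h6⟩ := h4
        exact ⟨y.2, by rw [h5], h6⟩
      · rw [hv, hw'] at h3; simp at h3
    have : Nonempty U := ⟨x.2⟩
    choose! b hb hb' using h1
    have h2 : S.card ≤ {w | o x.1 x.2 w}.ncard := by
      have h3 : (S.image b).card = S.card := by
        apply Finset.card_image_of_injOn
        intro s hs t ht hst
        have h4 := hb s hs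
        rw [hst, ← hb t ht] at h4
        exact hf h4
      rw [← h3, ← Set.ncard_coe_finset]
      apply Set.ncard_le_ncard _ (Set.toFinite _)
      intro y hy
      simp only [Finset.coe_image, Set.mem_image, Finset.mem_coe] at hy
      obtain ⟨w, hw, rfl⟩ := hy
      exact hb' w hw
    exact absurd (hS.trans h2) (not_le.2 (ho _ _))
  · have h1 : ∀ w ∈ S, ∃ b, f w = Sum.inr (x.1, b) ∧ o' x.1 x.2 b := by
      intro w hw
      obtain ⟨h2, h3⟩ := hSv w hw
      have h4 := hA v w h2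
      rcases hw' : f w with y | y
      · rw [hv, hw'] at h3; simp at h3
      · rw [hv, hw'] at h4
        obtain ⟨h5, h6⟩ := h4
        exact ⟨y.2, by rw [h5], h6⟩
    have : Nonempty U' := ⟨x.2⟩
    choose! b hb hb' using h1
    have h2 : S.card ≤ {w | o' x.1 x.2 w}.ncard := by
      have h3 : (S.image b).card = S.card := by
        apply Finset.card_image_of_injOn
        intro s hs t ht hst
        have h4 := hb s hs
        rw [hst, ← hb t ht] at h4
        exact hf h4
      rw [← h3, ← Set.ncard_coe_finset]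
      apply Set.ncard_le_ncard _ (Set.toFinite _)
      intro y hy
      simp only [Finset.coe_image, Set.mem_image, Finset.mem_coe] at hy
      obtain ⟨w, hw, rfl⟩ := hy
      exact hb' w hw
    exact absurd (hS.trans h2) (not_le.2 (ho' _ _))

/-- the set of good orientations of a gadget -/
def goodOr {U : Type*} (Q : SimpleGraph U) (k : ℕ) : Set (U → U → Prop) :=
  {O | IsOr Q O ∧ ∀ u, {w | O u w}.ncard < k}

theorem low_gen {W U U' : Type*} [Finite U] [Finite U'] (A : W → W → Prop) (k : ℕ)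
    (Q : SimpleGraph U) (R : SimpleGraph U') (l : ℕ)
    (hcol : ∀ (g : (Fin l × U) → (Fin l × U') → Bool)
      (o : Fin l → U → U → Prop) (o' : Fin l → U' → U' → Prop),
      (∀ i, o i ∈ goodOr Q k) → (∀ i, o' i ∈ goodOr R k) →
      ∀ f : W → (Fin l × U) ⊕ (Fin l × U'), (∀ u v, A u v → hostQD l g o o' (f u) (f v)) →
      ∃ v, ∃ S : Finset W, k ≤ S.card ∧ ∀ w ∈ S, A v w ∧ (f w).isLeft = (f v).isLeft) :
    (goodOr Q k).ncard ^ l * (goodOr R k).ncard ^ l *
      2 ^ ((l * Nat.card U) * (l * Nat.card U')) ≤ numFree A (hostQ l Q R) := by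
  classical
  have : Fintype U := Fintype.ofFinite U
  have : Fintype U' := Fintype.ofFinite U'
  let Φ : (((Fin l × U) → (Fin l × U') → Bool) × (Fin l → goodOr Q k) × (Fin l → goodOr R k)) →
      (((Fin l × U) ⊕ (Fin l × U')) → ((Fin l × U) ⊕ (Fin l × U')) → Prop) :=
    fun p => hostQD l p.1 (fun i => (p.2.1 i).1) (fun i => (p.2.2 i).1)
  have hinj : Function.Injective Φ := by
    rintro ⟨g, o, o'⟩ ⟨g', p, p'⟩ h
    obtain ⟨h1, h2, h3⟩ := hostQD_inj l _ _ _ _ _ _ h
    simp only at h1 h2 h3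
    rw [h1]
    have h4 : o = p := by
      funext i
      exact Subtype.ext (congrFun h2 i)
    have h5 : o' = p' := by
      funext i
      exact Subtype.ext (congrFun h3 i)
    rw [h4, h5]
  have hsub : Set.range Φ ⊆ {D | IsOr (hostQ l Q R) D ∧ ¬ Contains A D} := by
    rintro D ⟨⟨g, o, o'⟩, rfl⟩
    refine ⟨hostQD_isOr l Q R g _ _ (fun i => (o i).2.1) (fun i => (o' i).2.1), ?_⟩
    exact hostQD_free A k l g _ _ (fun i => (o i).2.2) (fun i => (o' i).2.2)
      (hcol g _ _ (fun i => (o i).2) (fun i => (o' i).2))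
  have hcard : (Set.range Φ).ncard = (goodOr Q k).ncard ^ l * (goodOr R k).ncard ^ l *
      2 ^ ((l * Nat.card U) * (l * Nat.card U')) := by
    rw [← Set.image_univ, Set.ncard_image_of_injective _ hinj, Set.ncard_univ, Nat.card_prod,
      Nat.card_prod, Nat.card_fun, Nat.card_fun, Nat.card_fun, Nat.card_fun, Nat.card_prod,
      Nat.card_prod]
    simp only [Nat.card_eq_fintype_card, Fintype.card_fin, Fintype.card_bool,
      Set.fintypeCard_eq_ncard]
    rw [← pow_mul, mul_comm (l * Fintype.card U') (l * Fintype.card U)]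
    ring
  rw [← hcard]
  exact Set.ncard_le_ncard hsub (Set.toFinite _)

/-- the path on three vertices -/
def gadP : SimpleGraph (Fin 3) where
  Adj a b := a ≠ b ∧ (a = 1 ∨ b = 1)
  symm := ⟨fun _ _ h => ⟨h.1.symm, h.2.symm⟩⟩
  loopless := ⟨fun _ h => h.1 rfl⟩

theorem gadP_aux1 : ∀ t t' : Fin 3,
    (∀ b : Fin 3, ((1 : Fin 3) ≠ b ∧ (((1 : Fin 3) = 1 ∧ b = t) ∨ (b = 1 ∧ (1 : Fin 3) ≠ t))) ↔
      ((1 : Fin 3) ≠ b ∧ (((1 : Fin 3) = 1 ∧ b = t') ∨ (b = 1 ∧ (1 : Fin 3) ≠ t')))) → t = t' := by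
  decide

theorem gadP_aux2 : ∀ t a b : Fin 3,
    ((a ≠ b ∧ (a = 1 ∨ b = 1)) ↔ ((a ≠ b ∧ ((a = 1 ∧ b = t) ∨ (b = 1 ∧ a ≠ t))) ∨
      (b ≠ a ∧ ((b = 1 ∧ a = t) ∨ (a = 1 ∧ b ≠ t))))) ∧
    ¬ ((a ≠ b ∧ ((a = 1 ∧ b = t) ∨ (b = 1 ∧ a ≠ t))) ∧
      (b ≠ a ∧ ((b = 1 ∧ a = t) ∨ (a = 1 ∧ b ≠ t)))) := by
  decide

theorem gadP_aux3 : ∀ t u a b : Fin 3, (u ≠ a ∧ ((u = 1 ∧ a = t) ∨ (a = 1 ∧ u ≠ t))) →
    (u ≠ b ∧ ((u = 1 ∧ b = t) ∨ (b = 1 ∧ u ≠ t))) → a = b := by
  decide

theorem gadP_card : 3 ≤ (goodOr gadP 2).ncard := by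
  let O : Fin 3 → Fin 3 → Fin 3 → Prop := fun t a b => a ≠ b ∧ ((a = 1 ∧ b = t) ∨ (b = 1 ∧ a ≠ t))
  have hinj : Function.Injective O := by
    intro t t' h
    exact gadP_aux1 t t' (fun b => iff_of_eq (congrFun (congrFun h 1) b))
  have hsub : Set.range O ⊆ goodOr gadP 2 := by
    rintro _ ⟨t, rfl⟩
    refine ⟨fun a b => gadP_aux2 t a b, fun u => ?_⟩
    refine Nat.lt_succ_of_le ((Set.ncard_le_one (Set.toFinite _)).2 ?_)
    intro a ha b hb
    exact gadP_aux3 t u a b ha hb
  have hcard : (Set.range O).ncard = 3 := by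
    rw [← Set.image_univ, Set.ncard_image_of_injective _ hinj, Set.ncard_univ]
    simp
  exact hcard.symm.le.trans (Set.ncard_le_ncard hsub (Set.toFinite _))

end MP_0a9719_co
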