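import Pool.Agent.Lib.MP_0a9719_co_FR.DegV
import Pool.Agent.Lib.MP_0a9719_co_FR.Bnd

/-! MP_0a9719_co: graphs `F` which become bipartite when at most `k` edges at one vertex are
deleted: `ex(n, F) ≤ n^2/4 + (k-1) n/2 + C`. -/

namespace MP_0a9719_co

open Finset

/-- a star with `k` leaves in one class -/
theorem emb_kstar {W V : Type*} [Fintype W] (F : SimpleGraph W) (G : SimpleGraph V) (c : W)
    (N : Finset W) (P : Set W) (hP : ∀ s t, F.Adj s t → s ∉ P → t ∈ P)
    (hP2 : ∀ s t, F.Adj s t → s ∈ P → t ∈ P → (s = c ∧ t ∈ N) ∨ (t = c ∧ s ∈ N))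
    (hcN : c ∉ N) (v : V) (S T C : Finset V) (hNS : N.card ≤ S.card)
    (hvS : ∀ t ∈ S, G.Adj v t) (hT : Fintype.card W ≤ T.card) (hvT : v ∉ T)
    (hST : ∀ t ∈ S, t ∉ T) (hC : Fintype.card W ≤ C.card) (hCv : ∀ z ∈ C, G.Adj v z)
    (hCS : ∀ t ∈ S, ∀ z ∈ C, G.Adj t z) (hCT : ∀ t ∈ T, ∀ z ∈ C, G.Adj t z) :
    F.IsContained G := by
  classical
  obtain ⟨g⟩ : Nonempty (W ↪ T) := by
    apply Function.Embedding.nonempty_of_card_le
    simpa using hT
  obtain ⟨h⟩ : Nonempty (N ↪ S) := by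
    apply Function.Embedding.nonempty_of_card_le
    simpa using hNS
  have hgv : ∀ w, (g w : V) ≠ v := fun w h1 => hvT (h1 ▸ (g w).2)
  have hgh : ∀ w x, (g w : V) ≠ h x := fun w x h1 => hST _ (h x).2 (h1 ▸ (g w).2)
  have hhv : ∀ x, (h x : V) ≠ v := fun x h1 => (hvS _ (h x).2).ne h1.symm
  let φ : W → V := fun w => if w = c then v else if hw : w ∈ N then h ⟨w, hw⟩ else g w
  have hφc : φ c = v := by simp [φ]
  have hφN : ∀ w (hw : w ∈ N), φ w = h ⟨w, hw⟩ := by
    intro w hw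
    have h1 : w ≠ c := fun h1 => hcN (h1 ▸ hw)
    simp [φ, h1, hw]
  have hφo : ∀ w, w ≠ c → w ∉ N → φ w = g w := by
    intro w h1 h2
    simp [φ, h1, h2]
  refine emb_extend F G P hP φ ?_ ?_ C hC ?_
  · intro s _ t _ hst
    by_cases hs : s = c
    · by_cases ht : t = c
      · rw [hs, ht]
      · by_cases ht2 : t ∈ N
        · rw [hs, hφc, hφN t ht2] at hst
          exact absurd hst.symm (hhv _)
        · rw [hs, hφc, hφo t ht ht2] at hst
          exact absurd hst.symm (hgv _)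
    · by_cases hs2 : s ∈ N
      · rw [hφN s hs2] at hst
        by_cases ht : t = c
        · rw [ht, hφc] at hst
          exact absurd hst (hhv _)
        · by_cases ht2 : t ∈ N
          · rw [hφN t ht2] at hst
            have h1 := h.injective (Subtype.ext hst)
            exact congrArg Subtype.val h1
          · rw [hφo t ht ht2] at hst
            exact absurd hst.symm (hgh _ _)
      · rw [hφo s hs hs2] at hst
        by_cases ht : t = c
        · rw [ht, hφc] at hst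
          exact absurd hst (hgv _)
        · by_cases ht2 : t ∈ N
          · rw [hφN t ht2] at hst
            exact absurd hst (hgh _ _)
          · rw [hφo t ht ht2] at hst
            exact g.injective (Subtype.ext hst)
  · intro s hs t ht hst
    rcases hP2 s t hst hs ht with ⟨rfl, h1⟩ | ⟨rfl, h1⟩
    · rw [hφc, hφN t h1]
      exact hvS _ (h _).2
    · rw [hφc, hφN s h1]
      exact (hvS _ (h _).2).symm
  · intro s _ z hz
    by_cases hs : s = c
    · rw [hs, hφc]; exact hCv z hz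
    · by_cases hs2 : s ∈ N
      · rw [hφN s hs2]; exact hCS _ (h _).2 z hz
      · rw [hφo s hs hs2]; exact hCT _ (g s).2 z hz

variable {V : Type*} [DecidableEq V]

/-- no vertex has `k` neighbours in its class -/
theorem inner_case {W : Type*} [Fintype W] (F : SimpleGraph W) (c : W) (N : Finset W) (P : Set W)
    (hP : ∀ s t, F.Adj s t → s ∉ P → t ∈ P)
    (hP2 : ∀ s t, F.Adj s t → s ∈ P → t ∈ P → (s = c ∧ t ∈ N) ∨ (t = c ∧ s ∈ N))
    (hcN : c ∉ N) (G : SimpleGraph V) [DecidableRel G.Adj] (A A₁ B₁ : Finset V) (q M : ℕ)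
    (hq : Fintype.card W = q) (hA₁ : A₁ ⊆ A)
    (hm : ∀ a ∈ A, (B₁.filter (fun y => ¬ G.Adj a y)).card ≤ M)
    (hB : (2 * q + 1) * M + q ≤ B₁.card) (hAc : 2 * q + 1 ≤ A₁.card)
    (v : V) (hv : v ∈ A) (hdeg : N.card ≤ (A.filter (G.Adj v)).card) : F.IsContained G := by
  obtain ⟨S, hS, hSc⟩ := exists_subset_card_eq hdeg
  have hNq : N.card ≤ q := hq ▸ card_le_univ N
  have hins : (insert v S).card ≤ q + 1 := (card_insert_le v S).trans (by omega)
  have h1 := le_card_sdiff (insert v S) A₁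
  obtain ⟨T, hT, hTc⟩ := exists_subset_card_eq (s := A₁ \ insert v S) (n := q) (by omega)
  have hTm : ∀ t ∈ T, t ∈ A₁ ∧ t ∉ insert v S := fun t ht => mem_sdiff.1 (hT ht)
  have hSm : ∀ t ∈ S, t ∈ A ∧ G.Adj v t := fun t ht => mem_filter.1 (hS ht)
  obtain ⟨U, hU⟩ : ∃ U, U = insert v S ∪ T := ⟨_, rfl⟩
  have hUA : ∀ u ∈ U, u ∈ A := by
    intro u hu
    rw [hU, mem_union, mem_insert] at hu
    rcases hu with (rfl | hu) | hu
    · exact hv
    · exact (hSm u hu).1
    · exact hA₁ (hTm u hu).1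
  have hUc : U.card ≤ 2 * q + 1 := by
    rw [hU]
    refine (card_union_le _ _).trans ?_
    omega
  have h2 := common_card G B₁ U M (fun a ha => hm a (hUA a ha))
  have h3 : U.card * M ≤ (2 * q + 1) * M := Nat.mul_le_mul_right M hUc
  have h4 : q ≤ (B₁.filter (fun y => ∀ a ∈ U, G.Adj a y)).card := by
    generalize (2 * q + 1) * M = z at *
    omega
  refine emb_kstar F G c N P hP hP2 hcN v S T (B₁.filter (fun y => ∀ a ∈ U, G.Adj a y))
    hSc.ge (fun t ht => (hSm t ht).2) (hq.trans hTc.symm).le ?_ ?_ (hq.trans_le h4) ?_ ?_ ?_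
  · intro h
    exact (hTm v h).2 (mem_insert_self v S)
  · intro t ht h
    exact (hTm t h).2 (mem_insert_of_mem ht)
  · intro z hz
    exact (mem_filter.1 hz).2 v (by rw [hU]; exact mem_union_left _ (mem_insert_self v S))
  · intro t ht z hz
    exact (mem_filter.1 hz).2 t (by rw [hU]; exact mem_union_left _ (mem_insert_of_mem ht))
  · intro t ht z hz
    exact (mem_filter.1 hz).2 t (by rw [hU]; exact mem_union_right _ ht)

/-- all degrees above half and no copy: two classes with all inner degrees below `k` -/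
theorem classes_of_deg {W : Type*} [Fintype W] (F : SimpleGraph W) (c : W) (N : Finset W)
    (P : Set W) (hP : ∀ s t, F.Adj s t → s ∉ P → t ∈ P)
    (hP2 : ∀ s t, F.Adj s t → s ∈ P → t ∈ P → (s = c ∧ t ∈ N) ∨ (t = c ∧ s ∈ N))
    (hcN : c ∉ N) (G : SimpleGraph V) [DecidableRel G.Adj] (hF : F.Free G) (X : Finset V)
    (q s e k : ℕ) (hq : Fintype.card W = q) (hq0 : 0 < q) (hk : N.card ≤ k)
    (h1 : X.card * q + 2 ^ s * q * s < s * e)
    (h2 : 2 * ((2 * q + 1) * (q + q * (3 * e + 3 * s) + 3 * e + 3 * s) + q) + 2 * e + 2 * s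
      ≤ X.card)
    (h3 : 2 * (2 * q + 2 * q * q) + 2 * e + 2 * s < X.card)
    (hdeg : ∀ v ∈ X, X.card < 2 * (X.filter (G.Adj v)).card) :
    ∃ A B : Finset V, A ⊆ X ∧ B ⊆ X ∧ (∀ y ∈ X, y ∈ A ∨ y ∈ B) ∧ A.card + B.card ≤ X.card ∧
      (∀ a ∈ A, (A.filter (G.Adj a)).card < k) ∧ (∀ b ∈ B, (B.filter (G.Adj b)).card < k) := by
  have hstar : ∀ v : V, ∀ T C : Finset V, q ≤ T.card → (∀ t ∈ T, G.Adj v t) → q ≤ C.card →
      (∀ y ∈ C, G.Adj v y) → (∀ t ∈ T, ∀ y ∈ C, G.Adj t y) → False := by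
    intro v T C hT hTv hC hCv hCT
    refine hF (emb_star F G c P hP ?_ v T C (hq ▸ hT) hTv (hq ▸ hC) hCv hCT)
    intro x y hxy hx hy
    rcases hP2 x y hxy hx hy with h | h
    · exact Or.inl h.1
    · exact Or.inr h.1
  obtain ⟨A₁, B₁, A, B, hA₁, hB₁, hAX, hBX, hsplit, hcard, hA₁c, hB₁c, hmA, hmB⟩ :=
    split_of_deg G X q s e _ _ hq0 rfl rfl h1 h3 hdeg hstar
  have hqq : 2 * q + 1 ≤ 2 * q + 2 * q * q := by nlinarith
  have hA₁' : 2 * q + 1 ≤ A₁.card := hqq.trans (ar5 _ _ _ _ _ _ h3 hA₁c le_rfl).le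
  have hB₁' : 2 * q + 1 ≤ B₁.card := hqq.trans (ar5 _ _ _ _ _ _ h3 hB₁c le_rfl).le
  refine ⟨A, B, hAX, hBX, hsplit, hcard, ?_, ?_⟩
  · intro a ha
    by_contra hcon
    exact hF (inner_case F c N P hP hP2 hcN G A A₁ B₁ q _ hq hA₁ hmA
      (ar4 _ _ _ _ _ h2 hB₁c) hA₁' a ha (hk.trans (not_lt.1 hcon)))
  · intro b hb
    by_contra hcon
    exact hF (inner_case F c N P hP hP2 hcN G B B₁ A₁ q _ hq hB₁ hmB
      (ar4 _ _ _ _ _ h2 hA₁c) hB₁' b hb (hk.trans (not_lt.1 hcon)))

/-- the sum of the degrees when there are two classes with inner degrees at most `k` -/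
theorem sum_of_classes (G : SimpleGraph V) [DecidableRel G.Adj] (X A B : Finset V) (k : ℕ)
    (hsplit : ∀ y ∈ X, y ∈ A ∨ y ∈ B) (hcard : A.card + B.card ≤ X.card)
    (hA : ∀ a ∈ A, (A.filter (G.Adj a)).card ≤ k) (hB : ∀ b ∈ B, (B.filter (G.Adj b)).card ≤ k) :
    2 * ∑ x ∈ X, (X.filter (G.Adj x)).card ≤ X.card ^ 2 + 2 * k * X.card := by
  have hdec : ∀ x, (X.filter (G.Adj x)).card ≤
      (A.filter (G.Adj x)).card + (B.filter (G.Adj x)).card := by
    intro x
    refine (card_le_card (t := A.filter (G.Adj x) ∪ B.filter (G.Adj x)) ?_).trans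
      (card_union_le _ _)
    intro y hy
    rw [mem_filter] at hy
    rw [mem_union, mem_filter, mem_filter]
    rcases hsplit y hy.1 with h | h
    · exact Or.inl ⟨h, hy.2⟩
    · exact Or.inr ⟨h, hy.2⟩
  have h1 : ∑ x ∈ X, (X.filter (G.Adj x)).card ≤
      ∑ x ∈ A ∪ B, ((A.filter (G.Adj x)).card + (B.filter (G.Adj x)).card) := by
    refine (sum_le_sum fun x _ => hdec x).trans (sum_le_sum_of_subset ?_)
    intro y hy
    rw [mem_union]
    exact hsplit y hy
  have h2 : ∑ x ∈ A ∪ B, ((A.filter (G.Adj x)).card + (B.filter (G.Adj x)).card) ≤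
      ∑ x ∈ A, ((A.filter (G.Adj x)).card + (B.filter (G.Adj x)).card) +
      ∑ x ∈ B, ((A.filter (G.Adj x)).card + (B.filter (G.Adj x)).card) := by
    rw [← sum_union_inter (s₁ := A) (s₂ := B)]
    exact Nat.le_add_right _ _
  have h3 : ∑ x ∈ A, ((A.filter (G.Adj x)).card + (B.filter (G.Adj x)).card) ≤
      A.card * (k + B.card) := by
    have := sum_le_card_nsmul A (fun x => (A.filter (G.Adj x)).card + (B.filter (G.Adj x)).card)
      (k + B.card) (fun x hx => Nat.add_le_add (hA x hx) (card_filter_le _ _))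
    rwa [smul_eq_mul] at this
  have h4 : ∑ x ∈ B, ((A.filter (G.Adj x)).card + (B.filter (G.Adj x)).card) ≤
      B.card * (A.card + k) := by
    have := sum_le_card_nsmul B (fun x => (A.filter (G.Adj x)).card + (B.filter (G.Adj x)).card)
      (A.card + k) (fun x hx => Nat.add_le_add (card_filter_le _ _) (hB x hx))
    rwa [smul_eq_mul] at this
  have h5 := (h1.trans h2).trans (Nat.add_le_add h3 h4)
  have h6 : 4 * (A.card * B.card) ≤ (A.card + B.card) ^ 2 := by
    have := four_mul_le_sq_add A.card B.card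
    linarith [this, mul_assoc 4 A.card B.card]
  have h7 : (A.card + B.card) ^ 2 ≤ X.card ^ 2 := Nat.pow_le_pow_left hcard 2
  have h8 : k * (A.card + B.card) ≤ k * X.card := Nat.mul_le_mul_left k hcard
  nlinarith

end MP_0a9719_co
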