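import Pool.Agent.Lib.MP_0a9719_co_FR.FinW

/-! MP_0a9719_co: complete tripartite graphs with classes of sizes `1`, `k` and at least `2k - 1`. -/

namespace MP_0a9719_co

theorem tripartite {W : Type*} [Finite W] (F : SimpleGraph W) (k : ℕ) (hk : 2 ≤ k)
    (p : W → Fin 3) (hp : ∀ u v, F.Adj u v ↔ p u ≠ p v) (h0 : {u | p u = 0}.ncard = 1)
    (h1 : {u | p u = 1}.ncard = k) (h2 : 2 * k - 1 ≤ {u | p u = 2}.ncard) : PropertyP F := by
  obtain ⟨c, hc⟩ := Set.ncard_eq_one.1 h0
  have hpc : p c = 0 := by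
    have h : c ∈ ({c} : Set W) := rfl
    rw [← hc] at h
    exact h
  have hc1 : ∀ u, p u = 0 → u = c := by
    intro u hu
    have h : u ∈ {u | p u = 0} := hu
    rw [hc] at h
    exact h
  have hfin : ∀ a : Fin 3, a = 0 ∨ a = 1 ∨ a = 2 := by decide
  refine main_two F (fun u v => p u < p v) ?_ k hk c {u | p u = 1} h1.le ?_ ?_
  · intro u v
    rw [hp]
    exact ⟨ne_iff_lt_or_gt, fun h => absurd h.1 (not_lt.2 h.2.le)⟩
  · refine ⟨⟨fun u => if p u = 2 then 1 else 0, ?_⟩⟩
    intro u v huv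
    rw [SimpleGraph.deleteEdges_adj, hp] at huv
    obtain ⟨hne, hnd⟩ := huv
    rw [SimpleGraph.top_adj]
    intro heq
    apply hnd
    rcases hfin (p u) with hu | hu | hu <;> rcases hfin (p v) with hv | hv | hv
    · exact absurd (hu.trans hv.symm) hne
    · rw [hc1 u hu]
      exact ⟨v, hv, rfl⟩
    · rw [hu, hv] at heq
      simp at heq
    · rw [hc1 v hv]
      exact ⟨u, hu, Sym2.eq_swap⟩
    · exact absurd (hu.trans hv.symm) hne
    · rw [hu, hv] at heq
      simp at heq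
    · rw [hu, hv] at heq
      simp at heq
    · rw [hu, hv] at heq
      simp at heq
    · exact absurd (hu.trans hv.symm) hne
  · intro J
    obtain ⟨O, hO⟩ : ∃ O : Set W, O = {u | (u ∈ J ↔ c ∈ J) ∧ p c < p u} := ⟨_, rfl⟩
    by_cases h : k ≤ O.ncard
    · exact ⟨c, by rw [← hO]; exact h⟩
    push Not at h
    obtain ⟨y, hy1, hyJ⟩ : ∃ y, p y = 1 ∧ ¬ (y ∈ J ↔ c ∈ J) := by
      by_contra hcon
      push Not at hcon
      have h3 : {u | p u = 1} ⊆ O := by
        intro u hu
        have hu' : p u = 1 := hu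
        have hcu := hcon u hu'
        rw [hO]
        refine ⟨?_, by rw [hpc, hu']; decide⟩
        by_cases h4 : u ∈ J <;> by_cases h5 : c ∈ J <;> simp_all
      have h4 := Set.ncard_le_ncard h3 (Set.toFinite O)
      omega
    refine ⟨y, ?_⟩
    have h3 : {u | p u = 2} ⊆ {u | (u ∈ J ↔ y ∈ J) ∧ p y < p u} ∪ O := by
      intro u hu
      have hu' : p u = 2 := hu
      by_cases hs : (u ∈ J ↔ c ∈ J)
      · right
        rw [hO]
        exact ⟨hs, by rw [hpc, hu']; decide⟩
      · left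
        exact ⟨by tauto, by rw [hy1, hu']; decide⟩
    have h4 := Set.ncard_le_ncard h3 (Set.toFinite _)
    have h5 := Set.ncard_union_le {u | (u ∈ J ↔ y ∈ J) ∧ p y < p u} O
    omega

end MP_0a9719_co
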